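import Pool.Agent.Lib.MP_e5111b_co.FG.Laur

/-! The places of the rational function field. -/

namespace Pool.Agent.Lib.MP_e5111b_co.FG

open Finset

section base

open Polynomial

/-- Image of the variable at a point of the complex projective line. -/
noncomputable def bxp : Option ℂ → LS
  | some t => HahnSeries.C t + HahnSeries.single 1 1
  | none => HahnSeries.single (-1) 1

noncomputable def bmp : Option ℂ → LS
  | some _ => HahnSeries.single (-1) 1
  | none => HahnSeries.single 1 (-1)

theorem bmp_ne (p : Option ℂ) : bmp p ≠ 0 := by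
  cases p <;> exact HahnSeries.single_ne_zero (by norm_num)

theorem bmp_th (p : Option ℂ) : bmp p * th (bxp p) = 1 := by
  cases p
  · simp only [bmp, bxp, th_single', HahnSeries.single_mul_single]
    norm_num
  · simp only [bmp, bxp, th_add, th_C, zero_add, th_single', HahnSeries.single_mul_single]
    norm_num

noncomputable def bE (p : Option ℂ) : ℂ[X] →+* LS := eval₂RingHom HahnSeries.C (bxp p)

theorem bE_C (p : Option ℂ) (a : ℂ) : bE p (C a) = HahnSeries.C a := by simp [bE]

theorem bE_X (p : Option ℂ) : bE p X = bxp p := by simp [bE]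

theorem bE_der (p : Option ℂ) (q : ℂ[X]) : bE p (derivative q) = bmp p * th (bE p q) := by
  induction q using Polynomial.induction_on with
  | C a => rw [derivative_C, map_zero, bE_C, th_C, mul_zero]
  | add q r hq hr => rw [derivative_add, map_add, hq, hr, map_add, th_add, mul_add]
  | monomial n a h =>
    have : C a * X ^ (n + 1) = C a * X ^ n * X := by ring
    rw [this, derivative_mul, derivative_X, mul_one, map_add, map_mul (bE p) _ X, h,
      map_mul (bE p) _ X, th_mul, bE_X]
    linear_combination (-(bE p (C a * X ^ n))) * bmp_th p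

/-- All that is needed about the orders of a non zero polynomial. -/
structure BGood (q : ℂ[X]) : Prop where
  q0 : q ≠ 0
  ne : ∀ p, bE p q ≠ 0
  fin : (Function.support fun p => (bE p q).order).Finite
  prod : ∑ᶠ p, (bE p q).order = 0
  nn : ∀ t, 0 ≤ (bE (some t) q).order
  zz : ∀ t, (bE (some t) q).order = 0 ↔ q.eval t ≠ 0
  inf : (bE none q).order = -(q.natDegree : ℤ)

theorem BGood.mul {q r : ℂ[X]} (hq : BGood q) (hr : BGood r) : BGood (q * r) := by
  have h : ∀ p, (bE p (q * r)).order = (bE p q).order + (bE p r).order := fun p => by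
    rw [map_mul, ord_mul (hq.ne p) (hr.ne p)]
  refine ⟨mul_ne_zero hq.q0 hr.q0, fun p => ?_, ?_, ?_, fun t => ?_, fun t => ?_, ?_⟩
  · rw [map_mul]; exact mul_ne_zero (hq.ne p) (hr.ne p)
  · simp only [h]
    exact (hq.fin.union hr.fin).subset (Function.support_add _ _)
  · simp only [h]
    rw [finsum_add_distrib hq.fin hr.fin, hq.prod, hr.prod, add_zero]
  · rw [h]; exact add_nonneg (hq.nn t) (hr.nn t)
  · rw [h, eval_mul, mul_ne_zero_iff, ← hq.zz, ← hr.zz]
    have := hq.nn t
    have := hr.nn t
    omega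
  · rw [h, hq.inf, hr.inf, natDegree_mul hq.q0 hr.q0]; push_cast; ring

theorem bgood_C {a : ℂ} (ha : a ≠ 0) : BGood (C a) := by
  have h : ∀ p, (bE p (C a)).order = 0 := fun p => by rw [bE_C, HahnSeries.order_C]
  refine ⟨C_ne_zero.mpr ha, fun p => ?_, ?_, ?_, fun t => ?_, fun t => ?_, ?_⟩
  · rw [bE_C]; exact HahnSeries.C_ne_zero ha
  · simp [h]
  · simp [h]
  · rw [h]
  · simp [h, ha]
  · simp [h]

theorem bgood_lin (a : ℂ) : BGood (X - C a) := by
  have s1 : (HahnSeries.single 1 1 : LS) ≠ 0 := HahnSeries.single_ne_zero one_ne_zero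
  have o1 : (HahnSeries.single 1 1 : LS).order = 1 := HahnSeries.order_single one_ne_zero
  have s2 : (HahnSeries.single (-1) 1 : LS) ≠ 0 := HahnSeries.single_ne_zero one_ne_zero
  have o2 : (HahnSeries.single (-1) 1 : LS).order = -1 := HahnSeries.order_single one_ne_zero
  have e0 : bE none (X - C a) = HahnSeries.single (-1) 1 + HahnSeries.C (-a) := by
    rw [map_sub, bE_X, bE_C, map_neg, bxp, sub_eq_add_neg]
  have e1 : ∀ t, bE (some t) (X - C a) = HahnSeries.C (t - a) + HahnSeries.single 1 1 := by
    intro t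
    rw [map_sub, bE_X, bE_C, map_sub, bxp]; ring
  have h0 : (bE none (X - C a)).order = -1 := by
    rw [e0, ord_add_of_lt s2 (by rw [o2, HahnSeries.order_C]; norm_num), o2]
  have h1 : (bE (some a) (X - C a)).order = 1 := by
    rw [e1, sub_self, map_zero, zero_add, o1]
  have h2 : ∀ t, t ≠ a → (bE (some t) (X - C a)).order = 0 := fun t ht => by
    rw [e1, ord_add_of_lt (HahnSeries.C_ne_zero (sub_ne_zero.mpr ht))
      (by rw [o1, HahnSeries.order_C]; norm_num), HahnSeries.order_C]
  have hs : (Function.support fun p => (bE p (X - C a)).order) ⊆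
      (({none, some a} : Finset (Option ℂ)) : Set (Option ℂ)) := by
    intro p hp
    cases p with
    | none => simp
    | some t =>
      by_cases ht : t = a
      · simp [ht]
      · exact absurd (h2 t ht) hp
  refine ⟨X_sub_C_ne_zero a, fun p => ?_, (Finset.finite_toSet _).subset hs, ?_, fun t => ?_,
    fun t => ?_, ?_⟩
  · cases p with
    | none => intro h; rw [h] at h0; simp at h0
    | some t =>
      intro h
      have := congrArg (fun x : LS => x.coeff 1) (h.symm.trans (e1 t))
      simp [HahnSeries.C_apply] at this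
  · rw [finsum_eq_sum_of_support_subset _ hs, Finset.sum_pair (by simp), h0, h1]; norm_num
  · by_cases ht : t = a
    · rw [ht, h1]; norm_num
    · rw [h2 t ht]
  · by_cases ht : t = a
    · rw [ht, h1]; simp
    · rw [h2 t ht]; simp [sub_ne_zero.mpr ht]
  · rw [h0, natDegree_X_sub_C]; norm_num

theorem bgood {q : ℂ[X]} (hq : q ≠ 0) : BGood q := by
  have h : ∀ s : Multiset ℂ, BGood (s.map fun a => X - C a).prod := by
    intro s
    induction s using Multiset.induction_on with
    | empty => simpa using bgood_C one_ne_zero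
    | cons a s ih => rw [Multiset.map_cons, Multiset.prod_cons]; exact (bgood_lin a).mul ih
  rw [(IsAlgClosed.splits q).eq_prod_roots]
  exact (bgood_C (leadingCoeff_ne_zero.mpr hq)).mul (h _)

/-- Complexification of a real polynomial. -/
noncomputable def bcx : ℝ[X] →+* ℂ[X] := mapRingHom Complex.ofRealHom

theorem bcx_apply (q : ℝ[X]) : bcx q = q.map Complex.ofRealHom := rfl

theorem bgoodR {q : ℝ[X]} (hq : q ≠ 0) : BGood (bcx q) :=
  bgood (by rw [bcx_apply]; exact Polynomial.map_ne_zero hq)

theorem bE_inj (p : Option ℂ) : Function.Injective ((bE p).comp bcx) := by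
  rw [injective_iff_map_eq_zero]
  intro q hq
  by_contra h
  exact (bgoodR h).ne p hq

noncomputable def bemb (p : Option ℂ) : RatFunc ℝ →+* LS := IsFractionRing.lift (bE_inj p)

theorem bemb_alg (p : Option ℂ) (q : ℝ[X]) :
    bemb p (algebraMap ℝ[X] (RatFunc ℝ) q) = bE p (bcx q) :=
  IsFractionRing.lift_algebraMap (bE_inj p) q

theorem bemb_eq (p : Option ℂ) (z : RatFunc ℝ) :
    bemb p z = bE p (bcx z.num) / bE p (bcx z.denom) := by
  conv_lhs => rw [← RatFunc.num_div_denom z]
  rw [map_div₀, bemb_alg, bemb_alg]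

theorem bemb_order (p : Option ℂ) {z : RatFunc ℝ} (hz : z ≠ 0) :
    (bemb p z).order = (bE p (bcx z.num)).order - (bE p (bcx z.denom)).order := by
  rw [bemb_eq, div_eq_mul_inv, ord_mul ((bgoodR (RatFunc.num_ne_zero hz)).ne p)
    (inv_ne_zero ((bgoodR z.denom_ne_zero).ne p)), ord_inv, sub_eq_add_neg]

noncomputable def bD (z : RatFunc ℝ) : RatFunc ℝ :=
  algebraMap ℝ[X] (RatFunc ℝ) (derivative z.num * z.denom - z.num * derivative z.denom) /
    algebraMap ℝ[X] (RatFunc ℝ) (z.denom * z.denom)

theorem bemb_D (p : Option ℂ) (z : RatFunc ℝ) : bemb p (bD z) = bmp p * th (bemb p z) := by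
  have hd := (bgoodR z.denom_ne_zero).ne p
  have h1 : bE p (bcx z.num) = bemb p z * bE p (bcx z.denom) := by
    rw [bemb_eq, div_mul_cancel₀ _ hd]
  have h2 : ∀ q : ℝ[X], bE p (bcx (derivative q)) = bmp p * th (bE p (bcx q)) := fun q => by
    rw [← bE_der, bcx_apply, bcx_apply, derivative_map]
  rw [bD, map_div₀, bemb_alg, bemb_alg, div_eq_iff (by
    rw [map_mul, map_mul]; exact mul_ne_zero hd hd)]
  simp only [map_sub, map_mul, h2]
  rw [h1, th_mul]; ring

/-- The places of the rational function field. -/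
noncomputable def base : EP (RatFunc ℝ) where
  σ := Option ℂ
  s0 := none
  emb := bemb
  mul := bmp
  mul_ne := bmp_ne
  D := bD
  hD := bemb_D
  fin z := by
    by_cases hz : z = 0
    · simp [hz]
    simp only [bemb_order _ hz]
    exact ((bgoodR (RatFunc.num_ne_zero hz)).fin.union (bgoodR z.denom_ne_zero).fin).subset
      (Function.support_sub _ _)
  prod z := by
    by_cases hz : z = 0
    · simp [hz]
    simp only [bemb_order _ hz]
    rw [finsum_sub_distrib (bgoodR (RatFunc.num_ne_zero hz)).fin (bgoodR z.denom_ne_zero).fin,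
      (bgoodR (RatFunc.num_ne_zero hz)).prod, (bgoodR z.denom_ne_zero).prod, sub_zero]
  κ := RatFunc.C
  hκ s a := by rw [← RatFunc.algebraMap_C, bemb_alg, bcx_apply, map_C, bE_C]; rfl

theorem bmp_order (p : Option ℂ) : -1 ≤ (bmp p).order := by
  cases p <;> rw [bmp, HahnSeries.order_single (by norm_num)]
  norm_num

end base

end Pool.Agent.Lib.MP_e5111b_co.FG
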