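import Pool.Agent.Lib.MP_e5111b_co.FG.Spl
import Pool.Agent.Lib.MP_e5111b_co.FG.Ext
import Pool.Agent.Lib.MP_e5111b_co.FG.Base

/-! The places of the function field of a real plane curve. -/

namespace Pool.Agent.Lib.MP_e5111b_co.FG

open Finset Polynomial

/-- function field of `p (t, y) = 0` -/
abbrev FC (p : ℝ[X][X]) : Type := AdjoinRoot (p.map (algebraMap ℝ[X] (RatFunc ℝ)))

theorem res_deg (f g : ℝ[X][X]) (m n d : ℕ) (hf : ∀ i, (f.coeff i).natDegree ≤ d)
    (hg : ∀ i, (g.coeff i).natDegree ≤ d) : (resultant f g m n).natDegree ≤ (m + n) * d := by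
  have h : ∀ i j, (sylvester f g m n i j).natDegree ≤ d := fun i j => by
    rw [sylvester, Matrix.of_apply]
    refine Fin.addCases (fun k => ?_) (fun k => ?_) j
    · rw [Fin.addCases_left]; split_ifs
      exacts [hg _, by simp]
    · rw [Fin.addCases_right]; split_ifs
      exacts [hf _, by simp]
  rw [resultant, Matrix.det_apply]
  refine natDegree_sum_le_of_forall_le _ _ fun σ _ => (natDegree_smul_le _ _).trans ?_
  refine (natDegree_prod_le _ _).trans ((sum_le_card_nsmul _ _ d fun i _ => h _ _).trans ?_)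
  simp

theorem res_sep {R K : Type} [CommRing R] [Field K] (φ : R →+* K) {p : R[X]}
    (hm : φ p.leadingCoeff ≠ 0) (h0 : 0 < p.natDegree) : (p.map φ).Separable ↔
      φ (resultant p (derivative p) p.natDegree p.natDegree) ≠ 0 := by
  have h1 : (derivative (p.map φ)).natDegree ≤ p.natDegree :=
    (natDegree_derivative_le _).trans ((Nat.sub_le _ _).trans natDegree_map_le)
  rw [← resultant_map_map, ← derivative_map]
  constructor
  · intro h
    obtain ⟨k, hk⟩ := Nat.exists_eq_add_of_le h1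
    have := resultant_add_right_deg (p.map φ) (derivative (p.map φ)) p.natDegree _ k le_rfl
    rw [← hk] at this
    rw [this, coeff_map, coeff_natDegree]
    refine mul_ne_zero (pow_ne_zero _ hm) ?_
    rw [← natDegree_map_of_leadingCoeff_ne_zero φ hm]
    exact resultant_ne_zero _ _ h
  · intro h
    obtain ⟨a, b, -, -, e⟩ := exists_mul_add_mul_eq_C_resultant (p.map φ) (derivative (p.map φ))
      natDegree_map_le h1 (Or.inl h0.ne')
    refine ⟨C (resultant (p.map φ) (derivative (p.map φ)) p.natDegree p.natDegree)⁻¹ * a,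
      C (resultant (p.map φ) (derivative (p.map φ)) p.natDegree p.natDegree)⁻¹ * b, ?_⟩
    rw [mul_assoc, mul_assoc, ← mul_add, mul_comm a, mul_comm b, e, ← C_mul, inv_mul_cancel₀ h,
      C_1]

theorem good_split {p : ℝ[X][X]} (h0 : 0 < p.natDegree) (t : ℂ) (h : (bcx
    (resultant p (derivative p) p.natDegree p.natDegree * p.leadingCoeff)).eval t ≠ 0) :
    ((p.map (algebraMap ℝ[X] (RatFunc ℝ))).map (bemb (some t))).Splits := by
  let ρ : ℝ[X] →+* PowerSeries ℂ :=
    (eval₂RingHom PowerSeries.C (PowerSeries.C t + PowerSeries.X)).comp bcx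
  have h1 : oP.comp ρ = (bemb (some t)).comp (algebraMap ℝ[X] (RatFunc ℝ)) := by
    refine RingHom.ext fun q => ?_
    rw [RingHom.comp_apply, RingHom.comp_apply (bemb _), bemb_alg]
    show oP (eval₂ _ _ (bcx q)) = eval₂ _ _ (bcx q)
    rw [hom_eval₂, map_add, HahnSeries.ofPowerSeries_C, HahnSeries.ofPowerSeries_X]
    congr 1
    exact RingHom.ext fun a => HahnSeries.ofPowerSeries_C a
  have h2 : PowerSeries.constantCoeff.comp ρ = (evalRingHom t).comp bcx := by
    refine RingHom.ext fun q => ?_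
    show PowerSeries.constantCoeff (eval₂ _ _ (bcx q)) = eval t (bcx q)
    rw [hom_eval₂, map_add, PowerSeries.constantCoeff_C, PowerSeries.constantCoeff_X, add_zero,
      PowerSeries.constantCoeff_comp_C]
    rfl
  rw [Polynomial.map_map, ← h1, ← Polynomial.map_map]
  rw [map_mul, eval_mul] at h
  have h3 : PowerSeries.constantCoeff (ρ p.leadingCoeff) ≠ 0 := by
    rw [← RingHom.comp_apply, h2]; exact right_ne_zero_of_mul h
  obtain ⟨u, hu⟩ := PowerSeries.isUnit_iff_constantCoeff.mpr (isUnit_iff_ne_zero.mpr h3)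
  have h4 : (C ((u⁻¹ : (PowerSeries ℂ)ˣ) : PowerSeries ℂ) * p.map ρ).Splits := by
    refine pu_split (monic_C_mul_of_mul_leadingCoeff_eq_one ?_) ?_
    · rw [leadingCoeff_map_of_leadingCoeff_ne_zero ρ (hu ▸ u.ne_zero), ← hu, Units.inv_mul]
    · rw [Polynomial.map_mul, map_C, Polynomial.map_map, h2]
      exact Separable.unit_mul (isUnit_C.mpr ((Units.isUnit _).map _))
        ((res_sep _ (right_ne_zero_of_mul h) h0).mpr (left_ne_zero_of_mul h))
  have h5 := h4.C_mul (u : PowerSeries ℂ)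
  rw [← mul_assoc, ← C_mul, Units.mul_inv, C_1, one_mul] at h5
  exact h5.map oP

theorem curve (d : ℕ) : ∃ R G : ℕ, 1 ≤ R ∧ ∀ p : ℝ[X][X], p.natDegree ≤ d →
    (∀ i, (p.coeff i).natDegree ≤ d) →
    ∀ [Fact (Irreducible (p.map (algebraMap ℝ[X] (RatFunc ℝ))))], ∃ Q : EP (FC p),
      Q.κ = (AdjoinRoot.of _).comp RatFunc.C ∧ Q.Ug R G := by
  classical
  obtain ⟨N, ψ, hψ, H⟩ := puiseux d
  refine ⟨N, ((d + d) * d + d + 1) * d, hψ.pos, fun p hd hc hq => ?_⟩
  have hi := IsFractionRing.injective ℝ[X] (RatFunc ℝ)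
  have hn : (p.map (algebraMap ℝ[X] (RatFunc ℝ))).natDegree = p.natDegree :=
    natDegree_map_eq_of_injective hi _
  have h0 : 0 < p.natDegree := hn ▸ hq.out.natDegree_pos
  have l0 : p.leadingCoeff ≠ 0 := leadingCoeff_ne_zero.mpr (by rintro rfl; simp at h0)
  obtain ⟨Δ, hΔ⟩ : ∃ Δ, Δ = resultant p (derivative p) p.natDegree p.natDegree * p.leadingCoeff :=
    ⟨_, rfl⟩
  have h1 : Δ ≠ 0 := hΔ ▸ mul_ne_zero (fun h => (res_sep (algebraMap ℝ[X] (RatFunc ℝ))
    ((map_ne_zero_iff _ hi).mpr l0) h0).mp hq.out.separable (by rw [h, map_zero])) l0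
  have h2 : Δ.natDegree ≤ (d + d) * d + d := by
    refine hΔ ▸ natDegree_mul_le.trans (add_le_add ?_ (hc _))
    refine (res_deg _ _ _ _ d hc fun i => ?_).trans (by gcongr)
    rw [coeff_derivative]
    refine natDegree_mul_le.trans ?_
    have : ((i : ℝ[X]) + 1).natDegree = 0 := by exact_mod_cast natDegree_natCast (R := ℝ) (i + 1)
    rw [this]; exact hc _
  let U : Finset (Option ℂ) := insert none ((bcx Δ).roots.toFinset.image some)
  have h3 : #U ≤ (d + d) * d + d + 1 := by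
    refine (card_insert_le _ _).trans (Nat.succ_le_succ (card_image_le.trans ?_))
    exact (Multiset.toFinset_card_le _).trans ((card_roots' _).trans (natDegree_map_le.trans h2))
  have h4 : ∀ s : Option ℂ, s ∉ U →
      ((p.map (algebraMap ℝ[X] (RatFunc ℝ))).map (bemb s)).Splits := fun s hs => by
    cases s with
    | none => exact absurd (mem_insert_self _ _) hs
    | some t =>
      refine good_split h0 t fun h => hs (mem_insert_of_mem (mem_image_of_mem _ ?_))
      rw [Multiset.mem_toFinset, mem_roots (bgoodR h1).q0, hΔ]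
      exact h
  obtain ⟨Q, k1, u1, e1⟩ := base.ram bmp_order U hψ
  obtain ⟨Q', k2, V, v1, v2⟩ := Q.spl u1 (p.map (algebraMap ℝ[X] (RatFunc ℝ))) (by
    intro s'
    obtain ⟨s, ⟨-, e⟩ | ⟨hs, e⟩⟩ := e1 s'
    · rw [e, ← Polynomial.map_map]
      exact H _ (natDegree_map_le.trans (hn.le.trans hd))
    · rw [e]
      exact h4 s hs)
  exact ⟨Q', by rw [k2, k1]; rfl, V, v1.trans (Nat.mul_le_mul h3 (hn.le.trans hd)), v2⟩

theorem places (d : ℕ) : ∃ Q : ℕ, ∀ p : ℝ[X][X], p.natDegree ≤ d →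
    (∀ i, (p.coeff i).natDegree ≤ d) →
    ∀ [Fact (Irreducible (p.map (algebraMap ℝ[X] (RatFunc ℝ))))] (δ : FC p)
      [Fact (∀ r, r ^ 2 ≠ δ + 0 * r)], ∃ P : PS (QuadraticAlgebra (FC p) δ 0),
      P.R ≤ Q ∧ #P.U ≤ Q ∧ (∀ z, star (P.D z) = P.D (star z)) ∧
      (∀ s z, P.bad s → s ∉ P.U → star z ≠ z → P.w s (z - star z) ≠ 0) ∧
      ∀ x : FC p, P.D (algebraMap (FC p) _ x) = 0 → ∃ a n : ℝ,
        x ^ 2 - AdjoinRoot.of _ (RatFunc.C a) * x + AdjoinRoot.of _ (RatFunc.C n) = 0 := by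
  obtain ⟨R, G, hR, H⟩ := curve d
  refine ⟨2 * R + 2 * G, fun p hd hc _ δ _ => ?_⟩
  obtain ⟨Q, k, u⟩ := H p hd hc
  obtain ⟨P, p1, p2, p3, p4, p5⟩ := Q.ext hR u δ
  rw [k] at p5
  exact ⟨P, by omega, by omega, p3, p4, p5⟩

end Pool.Agent.Lib.MP_e5111b_co.FG
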