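import Pool.Agent.Lib.MP_e5111b_co.FG.Raw
import Pool.Agent.Lib.MP_e5111b_co.FG.Places

/-! The algebraic half of the bridge: points in a field with an involution. -/

namespace Pool.Agent.Lib.MP_e5111b_co.FG

open Finset

/-- Extension of an embedding by a chosen square root. -/
def brj {F L : Type} [Field F] [Field L] {δ : F} (φ : F →+* L) (w : L) (hw : w * w = φ δ) :
    QuadraticAlgebra F δ 0 →+* L where
  toFun z := φ z.re + φ z.im * w
  map_one' := by simp [QuadraticAlgebra.re_one, QuadraticAlgebra.im_one]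
  map_zero' := by simp
  map_add' z w := by simp; ring
  map_mul' z w := by
    simp only [QuadraticAlgebra.re_mul, QuadraticAlgebra.im_mul, map_add, map_mul, map_zero, ← hw]
    ring

theorem brj_apply {F L : Type} [Field F] [Field L] {δ : F} (φ : F →+* L) (w : L)
    (hw : w * w = φ δ) (z : QuadraticAlgebra F δ 0) : brj φ w hw z = φ z.re + φ z.im * w := rfl

/-- Coordinates in a quadratic extension. -/
theorem br_coord {F L ι : Type} [Field F] [Field L] [CharZero L] (φ : F →+* L) (cj : L →+* L)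
    (hcc : ∀ x, cj (cj x) = x) (hφ : ∀ x, cj (φ x) = φ x) (ξ : ι → L) (r : ι → ι → F)
    (hr : ∀ a b, (ξ a - ξ b) * cj (ξ a - ξ b) = φ (r a b) ^ 2) (o e s : ι)
    (hs : (ξ s - ξ o) * cj (ξ e - ξ o) ≠ cj (ξ s - ξ o) * (ξ e - ξ o)) :
    ∃ (δ : F) (_ : ∀ x : F, x ^ 2 ≠ δ + 0 * x) (j : QuadraticAlgebra F δ 0 →+* L)
      (u : ι → QuadraticAlgebra F δ 0), (∀ z, j (star z) = cj (j z)) ∧
      (∀ x, j (algebraMap F _ x) = φ x) ∧ ∀ a, j (u a) = 2 * ((ξ a - ξ o) * cj (ξ e - ξ o)) := by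
  obtain ⟨W, hW⟩ : ∃ W : ι → L, ∀ a, W a =
    (ξ a - ξ o) * cj (ξ e - ξ o) - cj (ξ a - ξ o) * (ξ e - ξ o) := ⟨_, fun _ => rfl⟩
  obtain ⟨X, hX⟩ : ∃ X : ι → F, ∀ a, X a = r a o ^ 2 + r e o ^ 2 - r a e ^ 2 := ⟨_, fun _ => rfl⟩
  obtain ⟨Y, hY⟩ : ∃ Y : ι → F, ∀ a, Y a =
    X a * X s - 2 * (r e o ^ 2 * (r a o ^ 2 + r s o ^ 2 - r a s ^ 2)) := ⟨_, fun _ => rfl⟩
  have h1 : ∀ a, φ (X a) = (ξ a - ξ o) * cj (ξ e - ξ o) + cj (ξ a - ξ o) * (ξ e - ξ o) := by
    intro a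
    simp only [hX, map_sub, map_add, map_pow, ← hr]
    ring
  have h2 : ∀ a, φ (Y a) = W a * W s := by
    intro a
    simp only [hY, map_sub φ, map_add φ, map_mul φ, map_pow φ, map_ofNat φ, ← hr, h1, hW,
      map_sub cj]
    ring
  have h0 : W s ≠ 0 := by rw [hW]; exact sub_ne_zero.mpr hs
  have h3 : cj (W s) = - W s := by
    simp only [hW, map_sub, map_mul, hcc]; ring
  have h4 : ∀ x : F, x ^ 2 ≠ Y s + 0 * x := by
    intro x hx
    have h5 : (W s - φ x) * (W s + φ x) = 0 := by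
      have := congrArg φ hx
      rw [zero_mul, add_zero, map_pow, h2] at this
      linear_combination -this
    have h6 : cj (W s) = W s := by
      rcases mul_eq_zero.mp h5 with h | h
      · rw [sub_eq_zero.mp h, hφ]
      · rw [eq_neg_of_add_eq_zero_left h, map_neg, hφ]
    exact h0 (by linear_combination (h3 - h6) / 2)
  refine ⟨Y s, h4, brj φ (W s) (h2 s).symm, fun a => ⟨X a, Y a / Y s⟩, fun z => ?_, fun x => ?_,
    fun a => ?_⟩
  · have e1 : (star z).re = z.re := by simp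
    have e2 : (star z).im = - z.im := by simp
    rw [brj_apply, brj_apply, e1, e2, map_add, map_mul, hφ, hφ, h3, map_neg]; ring
  · simp [brj_apply]
  · rw [brj_apply]
    show φ (X a) + φ (Y a / Y s) * W s = _
    have : φ (Y a / Y s) * W s = W a := by rw [map_div₀, h2, h2]; field_simp
    rw [this, h1, hW]; ring

theorem br_alg (Q : ℕ) : ∃ m : ℕ, 2 ≤ m ∧ ∀ (F : Type) [Field F] (κ : ℝ → F),
    (∀ (δ : F) [Fact (∀ r : F, r ^ (2 : ℕ) ≠ δ + (0 : F) * r)],
      ∃ P : PS (QuadraticAlgebra F δ 0),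
      P.R ≤ Q ∧ #P.U ≤ Q ∧ (∀ z, star (P.D z) = P.D (star z)) ∧
      (∀ s z, P.bad s → s ∉ P.U → star z ≠ z → P.w s (z - star z) ≠ 0) ∧
      ∀ x : F, P.D (algebraMap F (QuadraticAlgebra F δ 0) x) = 0 →
        ∃ a n : ℝ, x ^ 2 - κ a * x + κ n = 0) →
    ∀ (L ι : Type) [Field L] [CharZero L] (φ : F →+* L) (cj : L →+* L),
    (∀ x, cj (cj x) = x) → (∀ x, cj (φ x) = φ x) → ∀ (ξ : ι → L) (r : ι → ι → F),
    (∀ a b, (ξ a - ξ b) * cj (ξ a - ξ b) = φ (r a b) ^ 2) → ∀ (g : Fin 3 → Fin m → ι),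
    (∀ i, Function.Injective fun j => ξ (g i j)) → ∀ A B : Fin 3 → L,
    (∀ i j, cj (ξ (g i j)) = A i * ξ (g i j) + B i) →
    (A 1 - A 0) * (B 2 - B 0) ≠ (A 2 - A 0) * (B 1 - B 0) →
    ∀ a b c d, ξ c ≠ ξ d → ∃ p n : ℝ,
      (r a b ^ 2 / r c d ^ 2) ^ 2 - κ p * (r a b ^ 2 / r c d ^ 2) + κ n = 0 := by
  classical
  obtain ⟨m, hm⟩ := raw Q
  refine ⟨m + 2, by omega, fun F _ κ hP L ι _ _ φ cj hcc hφ ξ r hr g hg A B hl hdet => ?_⟩
  have hne : ∀ i, ξ (g i 1) - ξ (g i 0) ≠ 0 := fun i =>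
    sub_ne_zero.mpr fun h => absurd (hg i h) (by simp)
  have hA : ∀ i, cj (ξ (g i 1) - ξ (g i 0)) = A i * (ξ (g i 1) - ξ (g i 0)) := fun i => by
    rw [map_sub, hl, hl]; ring
  obtain ⟨s, hs⟩ : ∃ s, (ξ s - ξ (g 0 0)) * cj (ξ (g 0 1) - ξ (g 0 0)) ≠
      cj (ξ s - ξ (g 0 0)) * (ξ (g 0 1) - ξ (g 0 0)) := by
    by_contra hc
    push Not at hc
    have h1 : ∀ s, cj (ξ s) = A 0 * ξ s + B 0 := fun s => by
      have := hc s
      rw [hA, map_sub, hl 0 0] at this
      exact mul_right_cancel₀ (hne 0) (by linear_combination -this)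
    have h2 : ∀ i, A i = A 0 := fun i =>
      mul_right_cancel₀ (hne i) (by rw [← hA, map_sub, h1, h1]; ring)
    exact hdet (by rw [h2 1, h2 2]; ring)
  obtain ⟨δ, hδ, j, u, js, ja, ju⟩ := br_coord φ cj hcc hφ ξ r hr _ _ s hs
  have : Fact (∀ x : F, x ^ 2 ≠ δ + 0 * x) := ⟨hδ⟩
  obtain ⟨P, pR, pU, p1, p2, p3⟩ := hP δ
  have : CharZero (QuadraticAlgebra F δ 0) := j.charZero
  obtain ⟨e, he⟩ : ∃ e, e = ξ (g 0 1) - ξ (g 0 0) := ⟨_, rfl⟩
  have e0 : e ≠ 0 := he ▸ hne 0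
  have e1 : cj e ≠ 0 := (map_ne_zero cj).mpr e0
  have ee : e * cj e = φ (r (g 0 1) (g 0 0)) ^ 2 := he ▸ hr _ _
  rw [← he] at ju
  have jd : ∀ a b, j (u a - u b) = 2 * ((ξ a - ξ b) * cj e) := fun a b => by
    rw [map_sub, ju, ju]; ring
  have jd' : ∀ a b, j (star (u a - u b)) = 2 * (cj (ξ a - ξ b) * e) := fun a b => by
    rw [js, jd, map_mul, map_mul, hcc, map_ofNat]
  have ju' : ∀ a, j (star (u a)) = 2 * (cj (ξ a - ξ (g 0 0)) * e) := fun a => by
    rw [js, ju, map_mul, map_mul, hcc, map_ofNat]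
  have sq : ∀ a b, (u a - u b) * star (u a - u b) =
      algebraMap F _ (2 * r (g 0 1) (g 0 0) * r a b) ^ 2 := fun a b => by
    apply j.injective
    rw [map_mul, jd, jd', map_pow, ja, map_mul, map_mul, map_ofNat]
    linear_combination 4 * (e * cj e) * hr a b + 4 * φ (r a b) ^ 2 * ee
  let α : Fin 3 → QuadraticAlgebra F δ 0 := fun i =>
    star (u (g i 1) - u (g i 0)) / (u (g i 1) - u (g i 0))
  let β : Fin 3 → QuadraticAlgebra F δ 0 := fun i => star (u (g i 0)) - α i * u (g i 0)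
  have jα : ∀ i, j (α i) = A i * e / cj e := fun i => by
    have := hne i
    rw [map_div₀, jd, jd', hA]; field_simp
  have jβ : ∀ i, j (β i) = 2 * e * (A i * ξ (g 0 0) + B i - cj (ξ (g 0 0))) := fun i => by
    rw [map_sub, map_mul, jα, ju', ju, map_sub cj, hl i 0]; field_simp; ring
  have key := hm _ P (starRingEnd _) pR pU (fun x => star_star x) p1 p2 (Set.range u) (by
      rintro _ ⟨a, rfl⟩ _ ⟨b, rfl⟩
      exact ⟨_, j.injective (by rw [starRingEnd_apply, js, ja, hφ]), sq a b⟩) α β (fun i => univ.image fun k => u (g i k))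
    (fun i x hx => by
      obtain ⟨k, -, rfl⟩ := mem_image.mp hx
      exact ⟨_, rfl⟩)
    (fun i => by
      rw [card_image_of_injective, card_univ, Fintype.card_fin]
      · omega
      · intro k k' h
        have h1 := jd (g i k) (g i k')
        rw [show u (g i k) = u (g i k') from h, sub_self, map_zero] at h1
        have h2 : (ξ (g i k) - ξ (g i k')) * cj e = 0 := by linear_combination -h1 / 2
        exact hg i (sub_eq_zero.mp ((mul_eq_zero.mp h2).resolve_right e1)))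
    (fun i x hx => by
      obtain ⟨k, -, rfl⟩ := mem_image.mp hx
      apply j.injective
      rw [starRingEnd_apply, ju', map_add, map_mul, jα, jβ, ju, map_sub cj, hl i k]
      field_simp; ring)
    (fun h => hdet (by
      have h1 := congrArg j h
      simp only [map_mul, map_sub j (α _), map_sub j (β _), jα, jβ] at h1
      field_simp at h1
      linear_combination h1))
  intro a b c d hcd
  apply p3
  have k1 := key _ ⟨a, rfl⟩ _ ⟨b, rfl⟩ _ ⟨c, rfl⟩ _ ⟨d, rfl⟩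
  have k2 : P.D (star ((u a - u b) / (u c - u d))) = 0 := by rw [← p1, k1, star_zero]
  have k3 := P.D_mul_eq_zero k1 k2
  have r0 : r (g 0 1) (g 0 0) ≠ 0 := fun h => by
    rw [h, map_zero] at ee
    exact mul_ne_zero e0 e1 (by rw [ee]; ring)
  have r1 : r c d ≠ 0 := fun h => by
    have := hr c d
    rw [h, map_zero] at this
    have h1 := sub_ne_zero.mpr hcd
    exact mul_ne_zero h1 ((map_ne_zero cj).mpr h1) (by rw [this]; ring)
  have : CharZero F := φ.charZero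
  rw [star_div₀, div_mul_div_comm, sq, sq, ← map_pow, ← map_pow, ← map_div₀] at k3
  rw [← k3]
  congr 2
  field_simp

end Pool.Agent.Lib.MP_e5111b_co.FG
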