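import Pool.Agent.Lib.MP_e5111b_co.FG.BrL

/-! Germs along the hyperfilter, the identity principle on the curve, and plane lines. -/

namespace Pool.Agent.Lib.MP_e5111b_co.FG

open Finset

/-- Germs of complex functions along the hyperfilter. -/
abbrev GmL (T : Type) [Infinite T] : Type :=
  Filter.Germ ((Filter.hyperfilter T : Ultrafilter T) : Filter T) ℂ

theorem br_germ (T : Type) [Infinite T] : ∃ (γ : (T → ℂ) →+* GmL T) (cj : GmL T →+* GmL T),
    (∀ x, cj (cj x) = x) ∧ (∀ h, cj (γ h) = γ fun z => (starRingEnd ℂ) (h z)) ∧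
    (∀ h k, γ (fun z => h z / k z) = γ h / γ k) ∧ ∀ h, γ h = 0 → {z | h z = 0}.Infinite := by
  refine ⟨Filter.Germ.coeRingHom _, {
    toFun := Filter.Germ.map (starRingEnd ℂ)
    map_one' := congrArg Filter.Germ.ofFun (funext fun _ => map_one (starRingEnd ℂ))
    map_zero' := congrArg Filter.Germ.ofFun (funext fun _ => map_zero (starRingEnd ℂ))
    map_mul' := fun x y => Filter.Germ.inductionOn₂ x y fun a b =>
      congrArg Filter.Germ.ofFun (funext fun z => map_mul (starRingEnd ℂ) (a z) (b z))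
    map_add' := fun x y => Filter.Germ.inductionOn₂ x y fun a b =>
      congrArg Filter.Germ.ofFun (funext fun z => map_add (starRingEnd ℂ) (a z) (b z)) },
    fun x => Filter.Germ.inductionOn x fun a =>
      congrArg Filter.Germ.ofFun (funext fun z => Complex.conj_conj (a z)),
    fun _ => rfl, fun _ _ => rfl, fun h h0 hf => ?_⟩
  exact hf.notMem_hyperfilter (Filter.Germ.coe_eq.mp h0)

section curve

open Polynomial

theorem br_fin {p : ℝ[X][X]} (hm : p.IsPrimitive) {q : ℝ[X]} (hq : q ≠ 0) :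
    {z : ℝ × ℝ | p.evalEval z.1 z.2 = 0 ∧ q.eval z.1 = 0}.Finite := by
  have h0 : ∀ t, p.map (evalRingHom t) ≠ 0 := fun t h => not_isUnit_X_sub_C t
    (hm _ ((C_dvd_iff_dvd_coeff _ _).mpr fun i => dvd_iff_isRoot.mpr (by
      have := congrArg (coeff · i) h
      simpa using this)))
  refine ((finite_setOfPred_isRoot hq).biUnion fun t _ =>
    (finite_setOfPred_isRoot (h0 t)).image fun y => (t, y)).subset ?_
  rintro ⟨t, y⟩ ⟨h1, h2⟩
  refine Set.mem_biUnion (x := t) h2 ⟨y, ?_, rfl⟩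
  show eval y (p.map (evalRingHom t)) = 0
  rw [map_evalRingHom_eval]; exact h1

/-- Polynomials in the two coordinates, as elements of the function field. -/
noncomputable def brψ (p : ℝ[X][X]) : ℝ[X][X] →+* FC p :=
  (AdjoinRoot.mk _).comp (mapRingHom (algebraMap ℝ[X] (RatFunc ℝ)))

theorem brψ_C (p : ℝ[X][X]) (a : ℝ) : brψ p (C (C a)) = AdjoinRoot.of _ (RatFunc.C a) := by
  simp [brψ]

theorem brψ_zero {p q : ℝ[X][X]} (hm : p.IsPrimitive) (h : brψ p q = 0) {z : ℝ × ℝ}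
    (hz : p.evalEval z.1 z.2 = 0) : q.evalEval z.1 z.2 = 0 := by
  obtain ⟨r, rfl⟩ := hm.dvd_of_fraction_map_dvd_fraction_map (K := RatFunc ℝ)
    (AdjoinRoot.mk_eq_zero.mp h)
  rw [evalEval_mul, hz, zero_mul]

/-- The function field embeds into the germs. -/
theorem br_emb {p : ℝ[X][X]} (hm : p.IsPrimitive) (I : Set (ℝ × ℝ)) [Infinite I]
    (hz : ∀ z ∈ I, p.evalEval z.1 z.2 = 0) (γ : (I → ℂ) →+* GmL I) (cj : GmL I →+* GmL I)
    (h1 : ∀ h, cj (γ h) = γ fun z => (starRingEnd ℂ) (h z))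
    (h2 : ∀ h, γ h = 0 → {z | h z = 0}.Infinite) : ∃ φ : FC p →+* GmL I,
    (∀ x, cj (φ x) = φ x) ∧
      ∀ q, φ (brψ p q) = γ fun z => ((q.evalEval z.1.1 z.1.2 : ℝ) : ℂ) := by
  let E : ℝ[X][X] →+* I → ℂ :=
    RingHom.pi fun z => Complex.ofRealHom.comp (evalEvalRingHom z.1.1 z.1.2)
  have hE : ∀ q, E q = fun z => ((q.evalEval z.1.1 z.1.2 : ℝ) : ℂ) := fun _ => rfl
  have hi : Function.Injective ((γ.comp E).comp C) := by
    rw [injective_iff_map_eq_zero]
    intro q hq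
    by_contra h
    refine h2 _ hq (((br_fin hm h).preimage Subtype.val_injective.injOn).subset ?_)
    intro z h0
    refine ⟨hz z.1 z.2, ?_⟩
    rw [← evalEval_C _ z.1.2]
    exact Complex.ofReal_eq_zero.mp h0
  let φ0 : RatFunc ℝ →+* GmL I := IsFractionRing.lift hi
  have p0 : ∀ q, φ0 (algebraMap _ _ q) = γ (E (C q)) := IsFractionRing.lift_algebraMap hi
  have hr : ∀ q, cj (γ (E q)) = γ (E q) := fun q => by
    rw [h1, hE]; simp only [Complex.conj_ofReal]
  have c0 : ∀ x, cj (φ0 x) = φ0 x := fun x => by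
    rw [← RatFunc.num_div_denom x, map_div₀, map_div₀, p0, p0, hr, hr]
  have ev : ∀ q : ℝ[X][X],
      eval₂ φ0 (γ (E X)) (q.map (algebraMap ℝ[X] (RatFunc ℝ))) = γ (E q) := fun q => by
    have : (eval₂RingHom φ0 (γ (E X))).comp (mapRingHom (algebraMap ℝ[X] (RatFunc ℝ))) =
        γ.comp E := by
      refine Polynomial.ringHom_ext (fun a => ?_) ?_
      · rw [RingHom.comp_apply, coe_mapRingHom, map_C, coe_eval₂RingHom, eval₂_C, p0]; rfl
      · rw [RingHom.comp_apply, coe_mapRingHom, map_X, coe_eval₂RingHom, eval₂_X]; rfl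
    exact RingHom.congr_fun this q
  have hw : eval₂ φ0 (γ (E X)) (p.map (algebraMap ℝ[X] (RatFunc ℝ))) = 0 := by
    rw [ev, ← map_zero γ]
    congr 1
    funext z
    rw [hE]
    exact Complex.ofReal_eq_zero.mpr (hz z.1 z.2)
  refine ⟨AdjoinRoot.lift φ0 _ hw, fun x => ?_, fun q => (AdjoinRoot.lift_mk hw _).trans (ev q)⟩
  have : cj.comp (AdjoinRoot.lift φ0 _ hw) = AdjoinRoot.lift φ0 _ hw := by
    refine AdjoinRoot.ringHom_ext (RingHom.ext fun a => ?_) ?_
    · simp only [RingHom.comp_apply, AdjoinRoot.lift_of, c0]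
    · simp only [RingHom.comp_apply, AdjoinRoot.lift_root, hr]
  exact RingHom.congr_fun this x

end curve

open ComplexConjugate in
theorem br_line {p e w : ℂ} (he : e ≠ 0) : (∃ s : ℝ, w = p + s * e) ↔
    conj w = conj e / e * w + (conj p - conj e / e * p) := by
  constructor
  · rintro ⟨s, rfl⟩
    rw [map_add, map_mul, Complex.conj_ofReal]; field_simp; ring
  · intro h
    have h0 : conj e ≠ 0 := (map_ne_zero _).mpr he
    obtain ⟨s, hs⟩ := Complex.conj_eq_iff_real.mp (show conj ((w - p) / e) = (w - p) / e by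
      rw [map_div₀, map_sub, h]; field_simp; ring)
    exact ⟨s, by rw [← hs]; field_simp; ring⟩

open ComplexConjugate in
theorem br_meet {p e p' e' : ℂ} (he : e ≠ 0) (he' : e' ≠ 0) (h : conj e' / e' ≠ conj e / e) :
    ∃ w, conj w = conj e / e * w + (conj p - conj e / e * p) ∧
      conj w = conj e' / e' * w + (conj p' - conj e' / e' * p') := by
  obtain ⟨A, hA⟩ : ∃ A, A = conj e / e := ⟨_, rfl⟩
  obtain ⟨A', hA'⟩ : ∃ A', A' = conj e' / e' := ⟨_, rfl⟩
  have h0 : conj e ≠ 0 := (map_ne_zero _).mpr he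
  have h0' : conj e' ≠ 0 := (map_ne_zero _).mpr he'
  have a0 : A ≠ 0 := hA ▸ div_ne_zero h0 he
  have a0' : A' ≠ 0 := hA' ▸ div_ne_zero h0' he'
  have cA : conj A = A⁻¹ := by rw [hA, map_div₀, Complex.conj_conj, inv_div]
  have cA' : conj A' = A'⁻¹ := by rw [hA', map_div₀, Complex.conj_conj, inv_div]
  rw [← hA, ← hA'] at h ⊢
  have h1 : A' - A ≠ 0 := sub_ne_zero.mpr h
  have h2 : A - A' ≠ 0 := sub_ne_zero.mpr h.symm
  have h3 : A'⁻¹ - A⁻¹ = (A - A') / (A * A') := by field_simp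
  refine ⟨((conj p - A * p) - (conj p' - A' * p')) / (A' - A), ?_, ?_⟩ <;>
  · simp only [map_div₀, map_sub, map_mul, Complex.conj_conj, cA, cA', h3]
    field_simp; ring

open ComplexConjugate in
theorem br_det (p e : Fin 3 → ℂ) (he : ∀ i, e i ≠ 0) (h1 : ¬ ∃ w, ∀ i, ∃ s : ℝ, w = p i + s * e i)
    (h2 : ¬ ∀ i, ∃ s : ℝ, e i = s * e 0) (A B : Fin 3 → ℂ) (hA : ∀ i, A i = conj (e i) / e i)
    (hB : ∀ i, B i = conj (p i) - conj (e i) / e i * p i) :
    (A 1 - A 0) * (B 2 - B 0) - (A 2 - A 0) * (B 1 - B 0) ≠ 0 := by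
  intro h
  have key : ∀ w, conj w = A 0 * w + B 0 → conj w = A 1 * w + B 1 → conj w = A 2 * w + B 2 →
      False := fun w a b c => h1 ⟨w, fun i => (br_line (he i)).mpr (by
    rw [← hB, ← hA]
    fin_cases i
    exacts [a, b, c])⟩
  by_cases c1 : A 1 = A 0
  · by_cases c2 : A 2 = A 0
    · refine h2 fun i => ?_
      have h3 : A i = A 0 := by
        fin_cases i
        exacts [rfl, c1, c2]
      obtain ⟨s, hs⟩ := (br_line (p := 0) (w := e i) (he 0)).mpr (by
        rw [← hA, ← h3, hA]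
        have := he i
        field_simp; simp)
      exact ⟨s, by rw [hs, zero_add]⟩
    · obtain ⟨w, w1, w2⟩ := br_meet (p := p 0) (p' := p 2) (he 0) (he 2) (by rwa [← hA, ← hA])
      rw [← hB, ← hA] at w1 w2
      have h3 : B 1 - B 0 = 0 := (mul_eq_zero.mp (show (A 2 - A 0) * (B 1 - B 0) = 0 by
        linear_combination -h + (B 2 - B 0) * c1)).resolve_left (sub_ne_zero.mpr c2)
      exact key w w1 (by linear_combination w1 - w * c1 - h3) w2
  · obtain ⟨w, w1, w2⟩ := br_meet (p := p 0) (p' := p 1) (he 0) (he 1) (by rwa [← hA, ← hA])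
    rw [← hB, ← hA] at w1 w2
    refine key w w1 w2 (mul_left_cancel₀ (sub_ne_zero.mpr c1) ?_)
    linear_combination (A 1 - A 2) * w1 + (A 2 - A 0) * w2 - h

end Pool.Agent.Lib.MP_e5111b_co.FG
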