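import Pool.Agent.Lib.MP_e5111b_co.FG.BrM

namespace Pool.Agent.Lib.MP_e5111b_co.FG

open Polynomial

theorem final0 (d : ℕ) : ∃ m : ℕ, ∀ p : ℝ[X][X], p.natDegree ≠ 0 → Irreducible p →
    p.natDegree ≤ d → (∀ i, (p.coeff i).natDegree ≤ d) →
    ∀ I : Set (ℝ × ℝ), I.Infinite → (∀ z ∈ I, p.evalEval z.1 z.2 = 0) →
    ∀ (ι : Type) (P : ι → ℝ × ℝ → ℂ) (R G : ι → ι → ℝ[X][X]),
    (∀ z ∈ I, ∀ a b, (G a b).evalEval z.1 z.2 ≠ 0 ∧
      dist (P a z) (P b z) = |(R a b).evalEval z.1 z.2 / (G a b).evalEval z.1 z.2|) →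
    ∀ g : Fin 3 → Fin m → ι,
    (∀ z ∈ I, (∀ i, Function.Injective fun j => P (g i j) z) ∧ ∃ o e : Fin 3 → ℂ,
      (∀ i, e i ≠ 0) ∧ (∀ i j, ∃ s : ℝ, P (g i j) z = o i + s * e i) ∧
      (¬ ∃ w, ∀ i, ∃ s : ℝ, w = o i + s * e i) ∧ ¬ ∀ i, ∃ s : ℝ, e i = s * e 0) →
    ∀ z ∈ I, ∀ z' ∈ I, ∃ l : ℝ, 0 < l ∧
      ∀ a b, dist (P a z') (P b z') = l * dist (P a z) (P b z) := by
  obtain ⟨Q, hQ⟩ := places d
  obtain ⟨m, m2, hm⟩ := br_alg Q
  refine ⟨m, fun p hn hirr hd hc I hI hz ι P R G hR g hg => ?_⟩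
  have hp := hirr.isPrimitive hn
  have : Fact (Irreducible (p.map (algebraMap ℝ[X] (RatFunc ℝ)))) :=
    ⟨hp.irreducible_iff_irreducible_map_fraction_map.mp hirr⟩
  have : Infinite I := hI.to_subtype
  obtain ⟨γ, cj, g1, g2, g3, g4⟩ := br_germ I
  have g5 : ∀ h : I → ℂ, (∀ z, h z ≠ 0) → γ h ≠ 0 := fun h h0 e => by
    obtain ⟨z, hz⟩ := (g4 h e).nonempty
    exact h0 z hz
  have : CharZero (GmL I) := (RingHom.charZero_iff (γ.comp (Pi.constRingHom I ℂ)).injective).mp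
    inferInstance
  obtain ⟨φ, f1, f2⟩ := br_emb hp I hz γ cj g2 g4
  obtain ⟨z0, hz0⟩ := hI.nonempty
  have hG : ∀ a b, brψ p (G a b) ≠ 0 := fun a b h => (hR z0 hz0 a b).1 (brψ_zero hp h (hz z0 hz0))
  have f3 : ∀ a b, φ (brψ p (R a b) / brψ p (G a b)) ^ 2 =
      γ fun z => ((dist (P a z) (P b z) ^ 2 : ℝ) : ℂ) := fun a b => by
    rw [map_div₀, f2, f2, ← g3, ← map_pow]
    congr 1
    funext z
    rw [(hR z z.2 a b).2, sq_abs, Pi.pow_apply]
    push_cast; rfl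
  choose o e he hl h1 h2 using fun z : I => (hg z z.2).2
  have hne : ∀ i j j', j ≠ j' → γ (fun z => P (g i j) z) ≠ γ fun z => P (g i j') z :=
    fun i j j' h => sub_ne_zero.mp (by
      rw [← map_sub]
      exact g5 _ fun z => sub_ne_zero.mpr fun c => h ((hg z z.2).1 i c))
  let j0 : Fin m := ⟨0, by omega⟩
  let j1 : Fin m := ⟨1, by omega⟩
  have j01 : j1 ≠ j0 := by simp [j0, j1]
  have hpos : ∀ z ∈ I, 0 < dist (P (g 0 j1) z) (P (g 0 j0) z) := fun z hz =>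
    dist_pos.2 fun c => j01 ((hg z hz).1 0 c)
  have key := hm (FC p) (fun a => AdjoinRoot.of _ (RatFunc.C a)) (fun δ _ => hQ p hd hc δ)
    (GmL I) ι φ cj g1 f1 (fun a => γ fun z => P a z) (fun a b => brψ p (R a b) / brψ p (G a b))
    (fun a b => by
      rw [f3, ← map_sub, g2, ← map_mul]
      congr 1
      funext z
      rw [Pi.mul_apply, Complex.mul_conj, Complex.normSq_eq_norm_sq, dist_eq_norm]; rfl)
    g (fun i j j' h => by_contra fun c => hne i j j' c h)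
    (fun i => γ fun z => (starRingEnd ℂ) (e z i) / e z i)
    (fun i => γ fun z => (starRingEnd ℂ) (o z i) - (starRingEnd ℂ) (e z i) / e z i * o z i)
    (fun i j => by
      rw [g2, ← map_mul, ← map_add]
      congr 1
      funext z
      exact (br_line (he z i)).mp (hl z i j))
    (sub_ne_zero.mp (by
      simp only [← map_sub γ, ← map_mul γ]
      exact g5 _ fun z => br_det (o z) (e z) (he z) (h1 z) (h2 z) _ _ (fun _ => rfl) fun _ => rfl))
  have k2 : ∀ a b, ∃ r : ℝ, ∀ z ∈ I,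
      dist (P a z) (P b z) ^ 2 = r * dist (P (g 0 j1) z) (P (g 0 j0) z) ^ 2 := fun a b => by
    obtain ⟨s, n, h⟩ := key a b (g 0 j1) (g 0 j0) (hne 0 j1 j0 j01)
    have r0 : brψ p (R (g 0 j1) (g 0 j0)) ≠ 0 := fun h0 => by
      have h3 := hpos z0 hz0
      rw [(hR z0 hz0 _ _).2, brψ_zero hp h0 (hz z0 hz0)] at h3
      simp at h3
    obtain ⟨x, hx⟩ : ∃ x, x = (brψ p (R a b) / brψ p (G a b)) ^ 2 /
      (brψ p (R (g 0 j1) (g 0 j0)) / brψ p (G (g 0 j1) (g 0 j0))) ^ 2 := ⟨_, rfl⟩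
    rw [← hx] at h
    obtain ⟨u, hu⟩ : ∃ u : ℝ, u ^ 2 - s * u + n = 0 := by
      have h3 := congrArg φ h
      rw [map_add, map_sub, map_mul, map_pow, ← brψ_C, ← brψ_C, f2, f2, hx, map_div₀, map_pow,
        map_pow, f3, f3, ← g3, ← map_pow, ← map_mul, ← map_sub, ← map_add, map_zero] at h3
      obtain ⟨z, h4⟩ := (g4 _ h3).nonempty
      refine ⟨dist (P a z) (P b z) ^ 2 / dist (P (g 0 j1) z) (P (g 0 j0) z) ^ 2, ?_⟩
      simp only [Set.mem_ofPred_eq, Pi.add_apply, Pi.sub_apply, Pi.mul_apply, Pi.pow_apply,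
        evalEval_CC] at h4
      exact_mod_cast h4
    obtain ⟨r, hr⟩ : ∃ r : ℝ, x = brψ p (C (C r)) := by
      have h3 : n = u * (s - u) := by linear_combination hu
      rw [← brψ_C, ← brψ_C, h3] at h
      have h4 : (x - brψ p (C (C u))) * (x - brψ p (C (C (s - u)))) = 0 := by
        simp only [map_mul, map_sub] at h ⊢
        linear_combination h
      rcases mul_eq_zero.mp h4 with h5 | h5
      exacts [⟨_, sub_eq_zero.mp h5⟩, ⟨_, sub_eq_zero.mp h5⟩]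
    refine ⟨r, fun z hzI => ?_⟩
    have e1 := brψ_zero (q := R a b ^ 2 * G (g 0 j1) (g 0 j0) ^ 2 -
        C (C r) * R (g 0 j1) (g 0 j0) ^ 2 * G a b ^ 2) hp (by
      have h3 := hG a b
      have h4 := hG (g 0 j1) (g 0 j0)
      simp only [map_sub, map_mul, map_pow, ← hr, hx]
      field_simp
      ring) (hz z hzI)
    simp only [evalEval_sub, evalEval_mul, evalEval_pow, evalEval_CC] at e1
    have h3 := (hR z hzI a b).1
    have h4 := (hR z hzI (g 0 j1) (g 0 j0)).1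
    rw [(hR z hzI a b).2, (hR z hzI (g 0 j1) (g 0 j0)).2, sq_abs, sq_abs]
    field_simp
    linear_combination e1
  intro z hz z' hz'
  have p1 := hpos z hz
  have p2 := hpos z' hz'
  refine ⟨dist (P (g 0 j1) z') (P (g 0 j0) z') / dist (P (g 0 j1) z) (P (g 0 j0) z),
    div_pos p2 p1, fun a b => ?_⟩
  obtain ⟨r, hr⟩ := k2 a b
  refine (pow_left_inj₀ dist_nonneg (by positivity) two_ne_zero).1 ?_
  rw [mul_pow, hr z hz, hr z' hz']
  field_simp

theorem evalEval_swap (x y : ℝ) (q : ℝ[X][X]) :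
    (Bivariate.swap q).evalEval x y = q.evalEval y x := by
  simpa only [coe_aevalAeval_eq_evalEval] using Bivariate.aevalAeval_swap x y q

theorem final (d : ℕ) : ∃ m : ℕ, ∀ p : ℝ[X][X], Irreducible p → p.natDegree ≤ d →
    (∀ i, (p.coeff i).natDegree ≤ d) →
    ∀ I : Set (ℝ × ℝ), I.Infinite → (∀ z ∈ I, p.evalEval z.1 z.2 = 0) →
    ∀ (ι : Type) (P : ι → ℝ × ℝ → ℂ) (R G : ι → ι → ℝ[X][X]),
    (∀ z ∈ I, ∀ a b, (G a b).evalEval z.1 z.2 ≠ 0 ∧
      dist (P a z) (P b z) = |(R a b).evalEval z.1 z.2 / (G a b).evalEval z.1 z.2|) →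
    ∀ g : Fin 3 → Fin m → ι,
    (∀ z ∈ I, (∀ i, Function.Injective fun j => P (g i j) z) ∧ ∃ o e : Fin 3 → ℂ,
      (∀ i, e i ≠ 0) ∧ (∀ i j, ∃ s : ℝ, P (g i j) z = o i + s * e i) ∧
      (¬ ∃ w, ∀ i, ∃ s : ℝ, w = o i + s * e i) ∧ ¬ ∀ i, ∃ s : ℝ, e i = s * e 0) →
    ∀ z ∈ I, ∀ z' ∈ I, ∃ l : ℝ, 0 < l ∧
      ∀ a b, dist (P a z') (P b z') = l * dist (P a z) (P b z) := by
  obtain ⟨m, hm⟩ := final0 d
  refine ⟨m, fun p hirr hd hc I hI hz ι P R G hR g hg => ?_⟩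
  by_cases hn : p.natDegree ≠ 0
  · exact hm p hn hirr hd hc I hI hz ι P R G hR g hg
  obtain ⟨q, rfl⟩ := natDegree_eq_zero.mp (not_not.mp hn)
  have hq : (Bivariate.swap (C q)).natDegree = q.natDegree := by
    rw [Bivariate.swap_C, natDegree_map_eq_of_injective C_injective]
  have h0 : q.natDegree ≠ 0 := fun h => by
    obtain ⟨a, rfl⟩ := natDegree_eq_zero.mp h
    obtain ⟨z, hz0⟩ := hI.nonempty
    have h1 := hz z hz0
    rw [evalEval_CC] at h1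
    exact hirr.ne_zero (by rw [h1, C_0, C_0])
  intro z hz0 z' hz'
  exact hm (Bivariate.swap (C q)) (hq ▸ h0) (hirr.map Bivariate.swap)
    (hq ▸ by simpa using hc 0) (fun i => by rw [Bivariate.swap_C, coeff_map]; simp)
    (Prod.swap ⁻¹' I) (hI.preimage fun w _ => ⟨w.swap, rfl⟩) (fun w hw => by rw [evalEval_swap]; exact hz _ hw)
    ι (fun a w => P a w.swap) (fun a b => Bivariate.swap (R a b))
    (fun a b => Bivariate.swap (G a b)) (fun w hw a b => by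
      rw [evalEval_swap, evalEval_swap]; exact hR _ hw a b) g (fun w hw => hg _ hw)
    z.swap hz0 z'.swap hz'

end Pool.Agent.Lib.MP_e5111b_co.FG
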