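import Pool.Agent.Lib.MP_e5111b_co.FG.Val
import Pool.Agent.Lib.MP_e5111b_co.FG.Comb

namespace Pool.Agent.Lib.MP_e5111b_co.FG

open Finset

open Classical in
theorem conv_row {α : Type} {m : ℕ} {r : α → α → Prop} (hr : Equivalence r) {θ : ℤ} (hθ : 0 ≤ θ)
    (X Y : Fin m → α) (i : Fin m) :
    ∑ j, (if r (X i) (Y j) ∧ cnt r X (X i) ≤ θ ∧ cnt r Y (X i) ≤ θ then (1 : ℤ) else 0) ≤ θ := by
  by_cases h : cnt r Y (X i) ≤ θ
  · refine le_trans (sum_le_sum fun j _ => ?_) h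
    split_ifs with h1 h2
    · exact le_rfl
    · exact absurd (hr.symm h1.1) h2
    · exact zero_le_one
    · exact le_rfl
  · simpa [h] using hθ

namespace PS

variable {K : Type} [Field K] (P : PS K) {m : ℕ}

/-- parity of the order of a square -/
theorem conv_par {s : P.σ} {x y a b : K} (a0 : a ≠ 0) (sq : IsSquare ((x - y) * (x - (a * y + b))))
    (n3 : x ≠ a * x + b) (wa : P.w s a = 0) (wx : P.w s (x - (a * x + b)) = 0)
    (h : P.ge s 1 (x - y)) : P.ge s 2 (x - y) := by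
  by_cases n1 : x - y = 0
  · exact Or.inl n1
  have h1 : P.ge s (P.w s (x - (a * x + b)) + 1) (a * (x - y)) := by
    have := (ge_mul_left (P := P) (s := s) (n := 1) (x := x - y) a0).2 h
    rwa [wa, add_zero, ← zero_add (1 : ℤ), ← wx] at this
  obtain ⟨h2, h3⟩ := w_add_eq (sub_ne_zero.2 n3) h1
  rw [show x - (a * x + b) + a * (x - y) = x - (a * y + b) by ring] at h2 h3
  obtain ⟨r, hr⟩ := sq
  have r0 : r ≠ 0 := fun e => mul_ne_zero n1 h2 (by rw [hr, e, zero_mul])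
  have h4 := P.w_mul s _ _ n1 h2
  rw [hr, P.w_mul s r r r0 r0, h3, wx] at h4
  have h5 := (ge_iff n1).1 h
  exact Or.inr (by omega)

open Classical in
theorem conv_lev (X Y : Fin m → K) (a b : K) (hS : PS.Sq (Set.range X) (Set.range Y) a b)
    (θ : ℤ) (hθ : 0 ≤ θ) (p : P.σ × ℤ) (h1 : 1 ≤ p.2) (h2 : p.2 ≤ P.rho p.1) :
    sm (P.rel p) θ X Y ≤ (if P.bad p.1 then 0 else sm (P.rel (p.1, 2)) θ X Y) +
      θ * ∑ i, if P.bad p.1 then 1 else ((if P.w p.1 (X i - (a * X i + b)) ≠ 0 then 1 else 0) +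
        (if P.w p.1 a ≠ 0 then 1 else 0)) := by
  have row := conv_row (P.rel_equiv p) hθ X Y
  rw [mul_sum]
  by_cases hb : P.bad p.1
  · simp only [if_pos hb, zero_add, mul_one]
    exact sum_le_sum fun i _ => row i
  simp only [if_neg hb]
  unfold sm
  rw [← sum_add_distrib]
  refine sum_le_sum fun i _ => ?_
  have nn : (0 : ℤ) ≤ ∑ j, if P.rel (p.1, 2) (X i) (Y j) ∧ cnt (P.rel (p.1, 2)) X (X i) ≤ θ ∧
      cnt (P.rel (p.1, 2)) Y (X i) ≤ θ then (1 : ℤ) else 0 :=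
    sum_nonneg fun j _ => by split_ifs <;> omega
  by_cases hf : P.w p.1 (X i - (a * X i + b)) = 0 ∧ P.w p.1 a = 0
  · have l1 : p.2 = 1 := by
      have := P.rho_good hb
      omega
    have mo : ∀ x y, P.rel (p.1, 2) x y → P.rel p x y := fun x y h =>
      ge.mono (P := P) h (by omega)
    simp only [hf.1, hf.2, ne_eq, not_true_eq_false, if_false, add_zero, mul_zero]
    refine sum_le_sum fun j _ => ?_
    split_ifs with h3 h4
    · exact le_rfl
    · refine absurd ⟨P.conv_par hS.a0 (hS.sq _ ⟨i, rfl⟩ _ ⟨j, rfl⟩) (hS.ne3 _ ⟨i, rfl⟩) hf.2 hf.1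
        (l1 ▸ h3.1), (cnt_mono mo X _).trans h3.2.1, (cnt_mono mo Y _).trans h3.2.2⟩ h4
    · exact zero_le_one
    · exact le_rfl
  · refine (row i).trans (le_add_of_nonneg_of_le nn (le_mul_of_one_le_right hθ ?_))
    split_ifs <;> omega

theorem sm_conv (X Y : Fin m → K) (a b : K) (hS : PS.Sq (Set.range X) (Set.range Y) a b)
    (nb : ℤ) (hnb : P.NB nb) (θ : ℤ) (hθ : 0 ≤ θ) (B : ℤ) (hB : P.Sm2 θ X Y B) :
    P.Sm1 θ X Y (2 * B + 2 * θ * ∑ i, (2 * P.h (X i - (a * X i + b)) + 2 * P.h a + nb)) := by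
  classical
  intro L hL
  obtain ⟨fr, hfr⟩ : ∃ fr : P.σ → ℤ, fr = fun s => ∑ i,
      ((if P.w s (X i - (a * X i + b)) ≠ 0 then 1 else 0) + (if P.w s a ≠ 0 then 1 else 0) +
        if P.bad s then (P.R : ℤ) else 0) := ⟨_, rfl⟩
  obtain ⟨fz, hfz⟩ : ∃ fz : P.σ → ℤ, fz = fun s => ∑ i, if P.bad s then 1 else
      ((if P.w s (X i - (a * X i + b)) ≠ 0 then 1 else 0) + (if P.w s a ≠ 0 then 1 else 0)) :=
    ⟨_, rfl⟩
  have f0 : ∀ s, 0 ≤ fz s := fun s => hfz ▸ sum_nonneg fun i _ => by split_ifs <;> omega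
  have f1 : ∀ s, P.rho s * fz s ≤ fr s := fun s => by
    rw [hfr, hfz, mul_sum]
    refine sum_le_sum fun i _ => ?_
    by_cases hb : P.bad s
    · rw [P.rho_bad hb, if_pos hb, if_pos hb]
      split_ifs <;> omega
    · rw [P.rho_good hb, if_neg hb, if_neg hb, one_mul, add_zero]
  have fb : P.Bd fr (∑ i, (2 * P.h (X i - (a * X i + b)) + 2 * P.h a + nb)) :=
    hfr ▸ Bd.sum univ fun i _ => ((P.bd_ne _).add (P.bd_ne a)).add hnb
  have h1 := hB {p ∈ L | P.rho p.1 < p.2} fun p hp => (mem_filter.1 hp).2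
  obtain ⟨M, hM⟩ : ∃ M, M = {p ∈ L | ¬ P.rho p.1 < p.2} := ⟨_, rfl⟩
  have m1 : ∀ p ∈ M, 1 ≤ p.2 ∧ p.2 ≤ P.rho p.1 := fun p hp => by
    rw [hM, mem_filter] at hp
    exact ⟨hL p hp.1, not_lt.1 hp.2⟩
  have h2 : ∑ p ∈ M, sm (P.rel p) θ X Y ≤
      ∑ p ∈ M, ((if P.bad p.1 then 0 else sm (P.rel (p.1, 2)) θ X Y) + θ * fz p.1) :=
    sum_le_sum fun p hp => by
      rw [hfz]
      convert P.conv_lev X Y a b hS θ hθ p (m1 p hp).1 (m1 p hp).2
  have h3 : ∑ p ∈ M, (if P.bad p.1 then 0 else sm (P.rel (p.1, 2)) θ X Y) ≤ B := by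
    have h4 := hB (({p ∈ M | ¬ P.bad p.1}).image fun p => (p.1, (2 : ℤ))) fun q hq => by
      obtain ⟨p, hp, rfl⟩ := mem_image.1 hq
      rw [P.rho_good (mem_filter.1 hp).2]
      norm_num
    rw [sum_image, sum_filter] at h4
    · refine le_trans (le_of_eq (sum_congr rfl fun p _ => ?_)) h4
      split_ifs <;> rfl
    · intro p hp q hq e
      rw [mem_coe, mem_filter] at hp hq
      have e1 := P.rho_good hp.2
      have e2 := P.rho_good hq.2
      have := m1 p hp.1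
      have := m1 q hq.1
      exact Prod.ext (congrArg Prod.fst e :) (by omega)
  have h4 : ∑ p ∈ M, fz p.1 ≤ ∑ s ∈ M.image Prod.fst, fr s := by
    rw [← sum_fiberwise_of_maps_to (g := Prod.fst) fun p hp => mem_image_of_mem Prod.fst hp]
    refine sum_le_sum fun s _ => le_trans ?_ (f1 s)
    rw [sum_congr rfl fun p hp => by rw [(mem_filter.1 hp).2], sum_const, nsmul_eq_mul]
    refine mul_le_mul_of_nonneg_right ?_ (f0 s)
    have h5 : #{p ∈ M | p.1 = s} ≤ #(Icc 1 (P.rho s)) := card_le_card_of_injOn Prod.snd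
      (fun p hp => by
        rw [mem_coe, mem_filter] at hp
        rw [mem_coe, mem_Icc, ← hp.2]
        exact m1 p hp.1)
      fun p hp q hq e => Prod.ext ((mem_filter.1 hp).2.trans (mem_filter.1 hq).2.symm) e
    have := P.one_le_rho s
    rw [Int.card_Icc] at h5
    omega
  rw [sum_add_distrib, ← mul_sum] at h2
  rw [← sum_filter_add_sum_filter_not L fun p => P.rho p.1 < p.2, ← hM]
  have h5 := mul_le_mul_of_nonneg_left (h4.trans (fb _)) hθ
  have h6 := mul_nonneg hθ fb.nonneg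
  linarith

end PS

end Pool.Agent.Lib.MP_e5111b_co.FG
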