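import Pool.Agent.Lib.MP_e5111b_co.FG.Mass
import Pool.Agent.Lib.MP_e5111b_co.FG.Conv

namespace Pool.Agent.Lib.MP_e5111b_co.FG

open Finset

namespace PS

variable {K : Type} [Field K] (P : PS K) {m : ℕ}

theorem Sq.inv {A Y : Fin m → K} {a b : K} (h : PS.Sq (Set.range A) (Set.range Y) a b) :
    PS.Sq (Set.range A) (Set.range fun j => a * Y j + b) a⁻¹ (-(a⁻¹ * b)) := by
  have ha := h.a0
  have key : ∀ y : K, a⁻¹ * (a * y + b) + -(a⁻¹ * b) = y := fun y => by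
    field_simp
    ring
  refine ⟨inv_ne_zero ha, ?_, ?_, ?_, ?_⟩
  · rintro x hx _ ⟨j, rfl⟩
    rw [key, mul_comm]
    exact h.sq x hx _ ⟨j, rfl⟩
  · rintro x hx _ ⟨j, rfl⟩
    exact h.ne2 x hx _ ⟨j, rfl⟩
  · rintro x hx _ ⟨j, rfl⟩
    rw [key]
    exact h.ne1 x hx _ ⟨j, rfl⟩
  · intro x hx h0
    apply h.ne3 x hx
    have : a * x = a * (a⁻¹ * x + -(a⁻¹ * b)) := by rw [← h0]
    rw [this]
    field_simp
    ring

theorem TT_nonneg (X Y : Fin m → K) : 0 ≤ P.TT X Y :=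
  sum_nonneg fun _ _ => sum_nonneg fun _ _ => P.h_nonneg _

theorem sum_sum_le {f g : Fin m → Fin m → ℤ} (h : ∀ i j, f i j ≤ g i j) :
    ∑ i, ∑ j, f i j ≤ ∑ i, ∑ j, g i j :=
  sum_le_sum fun i _ => sum_le_sum fun j _ => h i j

theorem ht_mul (hm : 2 ≤ m) (A Y : Fin m → K) (hY : Function.Injective Y) (a b : K) :
    (m : ℤ) ^ 2 * P.h a ≤ 2 * (P.TT A Y + P.TT A fun j => a * Y j + b) := by
  obtain ⟨n, rfl⟩ : ∃ n, m = n + 2 := ⟨m - 2, by omega⟩
  have h1 : ∀ i j, P.h a ≤ (P.h (A i - Y j) + P.h (A i - (a * Y j + b))) +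
      (P.h (A i - Y (j + 1)) + P.h (A i - (a * Y (j + 1) + b))) := by
    intro i j
    have hne : Y j - Y (j + 1) ≠ 0 := sub_ne_zero.2 fun h => by simpa using hY h
    have : a = ((A i - (a * Y (j + 1) + b)) - (A i - (a * Y j + b))) /
        ((A i - Y (j + 1)) - (A i - Y j)) := by
      rw [eq_div_iff (by rwa [sub_sub_sub_cancel_left])]
      ring
    have h2 := P.h_div ((A i - (a * Y (j + 1) + b)) - (A i - (a * Y j + b)))
      ((A i - Y (j + 1)) - (A i - Y j))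
    rw [← this] at h2
    have h3 := P.h_sub (A i - (a * Y (j + 1) + b)) (A i - (a * Y j + b))
    have h4 := P.h_sub (A i - Y (j + 1)) (A i - Y j)
    omega
  have h2 := sum_sum_le h1
  have h3 : ∀ i, ∑ j, (P.h (A i - Y (j + 1)) + P.h (A i - (a * Y (j + 1) + b))) =
      ∑ j, (P.h (A i - Y j) + P.h (A i - (a * Y j + b))) := fun i =>
    Equiv.sum_comp (Equiv.addRight 1) fun j => P.h (A i - Y j) + P.h (A i - (a * Y j + b))
  simp only [sum_add_distrib (f := fun j => P.h (A _ - Y j) + P.h (A _ - (a * Y j + b))), h3] at h2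
  simp only [sum_add_distrib, sum_const, card_univ, Fintype.card_fin, nsmul_eq_mul] at h2
  unfold TT
  nlinarith [h2]

theorem ht_lam (A Y : Fin m → K) (a b : K) :
    m * ∑ i, P.h (A i - (a * A i + b)) ≤
      P.TT A Y + (P.TT A fun j => a * Y j + b) + (m : ℤ) ^ 2 * P.h a := by
  have h1 : ∀ i j, P.h (A i - (a * A i + b)) ≤
      P.h (A i - Y j) + P.h (A i - (a * Y j + b)) + P.h a := by
    intro i j
    have h2 := P.h_sub (A i - (a * Y j + b)) (a * (A i - Y j))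
    have h3 := P.h_mul a (A i - Y j)
    have : A i - (a * Y j + b) - a * (A i - Y j) = A i - (a * A i + b) := by ring
    rw [this] at h2
    omega
  have h2 := sum_sum_le h1
  simp only [sum_add_distrib, sum_const, card_univ, Fintype.card_fin, nsmul_eq_mul,
    ← mul_sum] at h2
  unfold TT
  nlinarith [h2]

theorem ht_right (A Y : Fin m → K) : m * ∑ j, P.h (Y j) ≤ P.TT A Y + m * ∑ i, P.h (A i) := by
  have h1 : ∀ i j, P.h (Y j) ≤ P.h (A i - Y j) + P.h (A i) := by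
    intro i j
    have h2 := P.h_sub (A i) (A i - Y j)
    rw [sub_sub_cancel] at h2
    omega
  have h2 := sum_sum_le h1
  simp only [sum_add_distrib, sum_const, card_univ, Fintype.card_fin, nsmul_eq_mul,
    ← mul_sum] at h2
  exact h2

theorem ht_left (A Y : Fin m → K) : m * ∑ i, P.h (A i) ≤ P.TT A Y + m * ∑ j, P.h (Y j) := by
  have h1 : ∀ i j, P.h (A i) ≤ P.h (A i - Y j) + P.h (Y j) := by
    intro i j
    have h2 := P.h_add (A i - Y j) (Y j)
    rwa [sub_add_cancel] at h2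
  have h2 := sum_sum_le h1
  simp only [sum_add_distrib, sum_const, card_univ, Fintype.card_fin, nsmul_eq_mul,
    ← mul_sum] at h2
  exact h2

theorem h_sub_one (a : K) : P.h (a - 1) ≤ P.h a := by
  have := P.h_sub a 1
  rwa [P.h_one, add_zero] at this

theorem ht_zero (A Y : Fin m → K) (a : K) (ha : a ≠ 1) :
    m * ∑ j, P.h (Y j) ≤ P.TT A Y + (P.TT A fun j => a * Y j + 0) + (m : ℤ) ^ 2 * P.h a := by
  have h1 : ∀ i j, P.h (Y j) ≤ P.h (A i - Y j) + P.h (A i - (a * Y j + 0)) + P.h a := by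
    intro i j
    have h2 := P.h_div ((A i - Y j) - (A i - (a * Y j + 0))) (a - 1)
    have h3 := P.h_sub (A i - Y j) (A i - (a * Y j + 0))
    have h4 := P.h_sub_one a
    have : ((A i - Y j) - (A i - (a * Y j + 0))) / (a - 1) = Y j := by
      rw [div_eq_iff (sub_ne_zero.2 ha)]
      ring
    rw [this] at h2
    omega
  have h2 := sum_sum_le h1
  simp only [sum_add_distrib, sum_const, card_univ, Fintype.card_fin, nsmul_eq_mul,
    ← mul_sum] at h2
  unfold TT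
  nlinarith [h2]

theorem ht_ck (X : Fin m → K) {nb T : ℤ} (hnb : P.NB nb) (h1 : m * ∑ i, P.h (X i) ≤ 5 * T)
    (h2 : (m : ℤ) ^ 2 * nb ≤ 8 * T) : m * ∑ i, P.ck (X i) ≤ 26 * T := by
  have h3 : ∑ i, P.ck (X i) ≤ ∑ i, (2 * P.h (X i) + 2 * nb) :=
    sum_le_sum fun i _ => P.ck_le _ hnb
  simp only [sum_add_distrib, sum_const, card_univ, Fintype.card_fin, nsmul_eq_mul,
    ← mul_sum] at h3
  have h4 := mul_le_mul_of_nonneg_left h3 (Int.natCast_nonneg m)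
  nlinarith [h4]

theorem small (A Y : Fin m → K) (a b : K) (hS : PS.Sq (Set.range A) (Set.range Y) a b)
    {nb T : ℤ} (hnb : P.NB nb) (h1 : m * ∑ i, P.h (A i) ≤ 5 * T) (h2 : m * ∑ i, P.h (Y i) ≤ 5 * T)
    (h3 : (m : ℤ) ^ 2 * nb ≤ 8 * T) (h4 : (m : ℤ) ^ 2 * P.h a ≤ 2 * T)
    (h5 : P.TT A Y + (P.TT A fun j => a * Y j + b) ≤ T) (k θ γ : ℕ) (hm : m = k * θ) (hθ : 0 < θ)
    (H : P.Sm2 θ A Y (γ * θ * (∑ i, P.ck (A i) + ∑ j, P.ck (Y j)))) :
    ∃ B, P.Sm1 θ A Y B ∧ k * B ≤ (36 + 104 * γ) * T := by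
  refine ⟨_, P.sm_conv A Y a b hS nb hnb θ (Int.natCast_nonneg θ) _ H, ?_⟩
  have c1 := P.ht_ck A hnb h1 h3
  have c2 := P.ht_ck Y hnb h2 h3
  have c3 := P.ht_lam A Y a b
  simp only [sum_add_distrib, sum_const, card_univ, Fintype.card_fin, nsmul_eq_mul, ← mul_sum]
  have hm' : (m : ℤ) = k * θ := by exact_mod_cast hm
  generalize ∑ i, P.ck (A i) = u at *
  generalize ∑ i, P.ck (Y i) = v at *
  generalize ∑ i, P.h (A i - (a * A i + b)) = l at *
  have e : (k : ℤ) * (2 * (γ * θ * (u + v)) + 2 * θ * (2 * l + m * (2 * P.h a) + m * nb)) =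
      2 * γ * (m * u + m * v) + 2 * (2 * (m * l) + 2 * ((m : ℤ) ^ 2 * P.h a) + (m : ℤ) ^ 2 * nb) := by
    rw [hm']
    ring
  have c4 : 2 * (γ : ℤ) * (m * u + m * v) ≤ 2 * γ * (52 * T) :=
    mul_le_mul_of_nonneg_left (by linarith) (by positivity)
  rw [e]
  linarith

theorem D_many (X : Fin m → K) (hm : 2 ≤ m) (h : 4 * (m * ∑ i, P.h (X i)) ≤ (m : ℤ) ^ 2) :
    ∃ Z : Finset (Fin m), m ≤ 2 * #Z ∧ ∀ i ∈ Z, P.D (X i) = 0 := by
  classical
  refine ⟨univ.filter fun i => P.D (X i) = 0, ?_, fun i hi => (mem_filter.1 hi).2⟩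
  have h1 : ((#(univ.filter fun i => ¬ P.D (X i) = 0) : ℕ) : ℤ) ≤ ∑ i, P.h (X i) := by
    rw [← sum_boole]
    refine sum_le_sum fun i _ => ?_
    have := P.h_nonneg (X i)
    by_cases h0 : P.D (X i) = 0
    · rwa [if_neg (not_not.mpr h0)]
    · rw [if_pos h0]
      by_contra hc
      exact h0 (P.D_of_h (by omega))
  have h2 := card_filter_add_card_filter_not (s := univ) fun i => P.D (X i) = 0
  rw [card_univ, Fintype.card_fin] at h2
  have h3 : (2 : ℤ) ≤ m := by exact_mod_cast hm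
  have h4 : 4 * ∑ i, P.h (X i) ≤ m := by nlinarith
  omega

theorem chain {P : PS K} {A B C : Fin m → K} {α β b0 : K} (hα : α ≠ 0) (hβ : β ≠ 0)
    (hb : b0 * (α - 1) = 1) {N : ℝ} (s0 : P.St A B N 1) (s1 : P.St A (fun j => α * B j + 0) N 1)
    (s2 : P.St A C N 1) (s3 : P.St A (fun j => β * C j + b0) N 1) :
    P.St (fun i => A i + 1) A N 64 := by
  have r1 := (s0.aff α 0 hα).tri s1.symm
  have r2 := (s2.aff β b0 hβ).tri s3.symm
  have r21 := (r1.aff β b0 hβ).tri r2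
  have r12 := (r2.aff α 0 hα).tri r1
  have r3 := r21.symm.aff 1 1 one_ne_zero
  have e1 : (fun i => 1 * (β * (α * A i + 0) + b0) + 1) = fun i => α * (β * A i + b0) + 0 := by
    funext i
    linear_combination -hb
  have e2 : (fun i => 1 * A i + 1) = fun i => A i + 1 := by
    funext i
    rw [one_mul]
  rw [e1, e2] at r3
  have r4 := r3.tri r12
  norm_num at r4 ⊢
  exact r4

theorem core_a1 {Q S T x h : ℤ} (hQ : 2 ≤ Q) (hS : 0 ≤ S) (hx : 0 ≤ x) (hT : T = Q * S + Q * Q * x)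
    (h1 : x * h ≤ 2 * S) : S ≤ T ∧ x * (Q * (4 * h + Q)) ≤ 8 * T := by
  have h2 := mul_le_mul_of_nonneg_left h1 (show 0 ≤ Q by omega)
  have h3 : 0 ≤ Q * Q * x := by positivity
  constructor <;> nlinarith

theorem core_a2 {Q S T x W : ℤ} (hQ : 2 ≤ Q) (hS : 0 ≤ S) (hx : 0 ≤ x) (hT : T = Q * S + Q * Q * x)
    (hW : W = 16 * (Q * Q)) (h : 4 * S * W ≤ 3 * T) : 16 * S ≤ x := by
  have h1 : 0 ≤ Q * S := by positivity
  have h2 : Q * S ≤ Q * Q * S := by nlinarith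
  have h3 : 0 ≤ Q * Q * x := by positivity
  have h4 : Q * Q * (16 * S) ≤ Q * Q * x := by
    rw [hW, hT] at h
    linarith
  exact le_of_mul_le_mul_left h4 (by positivity)

theorem core_a3 {x h S : ℤ} (hx : 0 < x) (h1 : x * h ≤ 2 * S) (h2 : 16 * S ≤ x) : h ≤ 0 := by
  by_contra hc
  nlinarith

variable [CharZero K]

theorem core {Q : ℕ} (hR : P.R ≤ Q) (hU : #P.U ≤ Q)
    (A B C : Fin m → K) (hA : Function.Injective A) (hB : Function.Injective B)
    (hC : Function.Injective C) (α β b0 : K) (hα : α ≠ 1) (hb : b0 * (α - 1) = 1)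
    (sB : PS.Sq (Set.range A) (Set.range B) α 0) (sC : PS.Sq (Set.range A) (Set.range C) β b0)
    (hbad : ∀ s, P.bad s → s ∉ P.U → P.w s α ≠ 0 ∨ P.w s (α - 1) ≠ 0)
    (W k1 k2 θ1 θ2 γ1 γ2 : ℕ) (hW : W = 16 * (Q * Q)) (hm1 : m = k1 * θ1) (hm2 : m = k2 * θ2)
    (hθ : 8 ≤ θ2) (hk1 : 16 * W * (36 + 104 * γ1) ≤ k1)
    (hk2 : 266240 * W * k1 ^ 3 * (36 + 104 * γ2) ≤ k2) (hm : 532480 * W * k1 ^ 3 * k2 ≤ m)
    (H : ∀ Y : Fin m → K,
      (Y = B ∨ Y = (fun j => α * B j + 0) ∨ Y = C ∨ Y = fun j => β * C j + b0) →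
      P.Sm2 θ1 A Y (γ1 * θ1 * (∑ i, P.ck (A i) + ∑ j, P.ck (Y j))) ∧
        P.Sm2 θ2 A Y (γ2 * θ2 * (∑ i, P.ck (A i) + ∑ j, P.ck (Y j)))) :
    P.D α = 0 ∧ (∃ Z : Finset (Fin m), m ≤ 2 * #Z ∧ ∀ i ∈ Z, P.D (A i) = 0) ∧
      ∃ Z : Finset (Fin m), m ≤ 2 * #Z ∧ ∀ i ∈ Z, P.D (B i) = 0 := by
  classical
  have Q2 : 2 ≤ Q := P.R2.trans hR
  have Wp : 1 ≤ W := hW ▸ Nat.succ_le_of_lt (by positivity)
  have k1p : 1 ≤ k1 := le_trans (Nat.succ_le_of_lt (by positivity)) hk1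
  have k2p : 1 ≤ k2 := le_trans (Nat.succ_le_of_lt (by positivity)) hk2
  have hm3 : 16640 * k1 ^ 3 ≤ m := by
    refine le_trans ?_ hm
    calc 16640 * k1 ^ 3 = 16640 * 1 * k1 ^ 3 * 1 := by ring
      _ ≤ _ := by gcongr; norm_num
  have k3p : 1 ≤ k1 ^ 3 := Nat.one_le_pow _ _ k1p
  have m2 : 2 ≤ m := by omega
  have θ1p : 0 < θ1 := Nat.pos_of_ne_zero fun h => by
    rw [h, mul_zero] at hm1
    omega
  have t0 := P.TT_nonneg A B
  have t1 := P.TT_nonneg A fun j => α * B j + 0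
  have t2 := P.TT_nonneg A C
  have t3 := P.TT_nonneg A fun j => β * C j + b0
  have a1 := P.ht_mul m2 A B hB α 0
  have a2 := P.ht_mul m2 A C hC β b0
  have b1 := P.ht_zero A B α hα
  have b2 := P.ht_left A B
  have b3 := P.ht_right A fun j => α * B j + 0
  have b4 := P.ht_right A C
  have b5 := P.ht_right A fun j => β * C j + b0
  have hnb : P.NB (Q * (4 * P.h α + Q)) := by
    have := P.h_sub_one α
    refine ((((P.bd_ne α).add (P.bd_ne (α - 1))).add (P.bd_U hU)).smul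
      (Int.natCast_nonneg Q)).mono (fun s => ?_)
      (mul_le_mul_of_nonneg_left (by omega) (Int.natCast_nonneg Q))
    have := hbad s
    split_ifs <;> first | omega | tauto
  obtain ⟨S, hS⟩ : ∃ S, S = P.TT A B + (P.TT A fun j => α * B j + 0) + P.TT A C +
    P.TT A fun j => β * C j + b0 := ⟨_, rfl⟩
  obtain ⟨T, hT⟩ : ∃ T : ℤ, T = Q * S + Q * Q * (m : ℤ) ^ 2 := ⟨_, rfl⟩
  have QZ : (2 : ℤ) ≤ Q := by exact_mod_cast Q2
  have S0 : 0 ≤ S := by omega
  have aS : (m : ℤ) ^ 2 * P.h α ≤ 2 * S := by linarith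
  obtain ⟨ST, nbT⟩ := core_a1 QZ S0 (sq_nonneg _) hT aS
  have hT0 : (0 : ℝ) ≤ T := by exact_mod_cast S0.trans ST
  have k1R : (1 : ℝ) ≤ k1 := by exact_mod_cast k1p
  have k2R : (1 : ℝ) ≤ k2 := by exact_mod_cast k2p
  have WR : (1 : ℝ) ≤ W := by exact_mod_cast Wp
  have mR : (2 : ℝ) ≤ m := by exact_mod_cast m2
  obtain ⟨N, hN⟩ : ∃ N : ℝ, N = (2 * (36 + 104 * γ2) / k2 + 4 * k2 / m) * T := ⟨_, rfl⟩
  have N0 : 0 ≤ N := by
    rw [hN]
    positivity
  have key : ∀ (Y : Fin m → K) (a b : K), Function.Injective Y →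
      PS.Sq (Set.range A) (Set.range Y) a b → m * ∑ i, P.h (Y i) ≤ 5 * T →
      (m : ℤ) ^ 2 * P.h a ≤ 2 * T → P.TT A Y + (P.TT A fun j => a * Y j + b) ≤ T →
      (Y = B ∨ Y = (fun j => α * B j + 0) ∨ Y = C ∨ Y = fun j => β * C j + b0) →
      P.St A Y N 1 ∧ (P.St (fun i => A i + 1) A N 64 →
        (P.TT A Y : ℝ) ≤ T / W / 16 + 8320 * (k1 : ℝ) ^ 3 * N) := by
    intro Y a b hY hS h2 h4 h5 h6
    have hne : ∀ i j, A i ≠ Y j := fun i j => hS.ne1 _ ⟨i, rfl⟩ _ ⟨j, rfl⟩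
    obtain ⟨B1, s1, c1⟩ := P.small A Y a b hS hnb (T := T) (by linarith) h2 nbT h4 h5
      k1 θ1 γ1 hm1 θ1p (H Y h6).1
    obtain ⟨B2, s2, c2⟩ := P.small A Y a b hS hnb (T := T) (by linarith) h2 nbT h4 h5
      k2 θ2 γ2 hm2 (by omega) (H Y h6).2
    have hst : P.St A Y N 1 := by
      refine P.star A Y hA hY hne θ2 (by exact_mod_cast hθ) B2 s2 N ?_
      have c3 : (k2 : ℝ) * B2 ≤ (36 + 104 * γ2) * T := by exact_mod_cast c2
      have c4 : (P.TT A Y : ℝ) ≤ T := by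
        have := P.TT_nonneg A fun j => a * Y j + b
        exact_mod_cast (by omega : P.TT A Y ≤ T)
      have c5 : (m : ℝ) = k2 * θ2 := by exact_mod_cast hm2
      have θR : (8 : ℝ) ≤ θ2 := by exact_mod_cast hθ
      have c6 : (B2 : ℝ) ≤ (36 + 104 * γ2) / k2 * T := by
        rw [div_mul_eq_mul_div, le_div_iff₀ (by linarith)]
        linarith
      have c7 : (θ2 : ℝ) * N = 2 * θ2 * ((36 + 104 * γ2) / k2 * T) + 4 * T := by
        rw [hN, c5]
        field_simp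
      push_cast
      rw [c7]
      nlinarith
    refine ⟨hst, fun h64 => ?_⟩
    have c8 := P.mass A Y hne k1 θ1 hm1 k1p hm3 N N0 h64 hst B1 s1
    have c9 : (k1 : ℝ) * B1 ≤ (36 + 104 * γ1) * T := by exact_mod_cast c1
    have c10 : (16 * W * (36 + 104 * γ1) : ℝ) ≤ k1 := by exact_mod_cast hk1
    have c11 : (k1 : ℝ) * (16 * B1 * W) ≤ k1 * T := by
      have := mul_le_mul_of_nonneg_left c9 (show (0 : ℝ) ≤ 16 * W by positivity)
      have := mul_le_mul_of_nonneg_right c10 hT0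
      linarith
    have c12 := (le_div_iff₀ (by linarith)).2 (le_of_mul_le_mul_left c11 (by linarith))
    linarith
  have inj : ∀ (Y : Fin m → K) (a b : K), a ≠ 0 → Function.Injective Y →
      Function.Injective fun j => a * Y j + b := fun Y a b ha hY i j h =>
    hY (mul_left_cancel₀ ha (add_right_cancel h))
  have back : ∀ (Y : Fin m → K) (a b : K), a ≠ 0 →
      (fun j => a⁻¹ * (a * Y j + b) + -(a⁻¹ * b)) = Y := fun Y a b ha => by
    funext j
    field_simp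
    ring
  obtain ⟨s0, m0⟩ := key B α 0 hB sB (by linarith) (by linarith) (by linarith) (Or.inl rfl)
  obtain ⟨s1, m1⟩ := key _ _ _ (inj B α 0 sB.a0 hB) sB.inv (by linarith)
    (by rw [P.h_inv]; linarith) (by rw [back B α 0 sB.a0]; linarith) (Or.inr (Or.inl rfl))
  obtain ⟨s2, m2'⟩ := key C β b0 hC sC (by linarith) (by linarith) (by linarith)
    (Or.inr (Or.inr (Or.inl rfl)))
  obtain ⟨s3, m3⟩ := key _ _ _ (inj C β b0 sC.a0 hC) sC.inv (by linarith)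
    (by rw [P.h_inv]; linarith) (by rw [back C β b0 sC.a0]; linarith)
    (Or.inr (Or.inr (Or.inr rfl)))
  have h64 := chain sB.a0 sC.a0 hb s0 s1 s2 s3
  have hSR : (S : ℝ) = P.TT A B + (P.TT A fun j => α * B j + 0) + P.TT A C +
      P.TT A fun j => β * C j + b0 := by exact_mod_cast hS
  have n1 : 33280 * (k1 : ℝ) ^ 3 * N ≤ T / W / 2 := by
    have d1 : (266240 * W * (k1 : ℝ) ^ 3 * (36 + 104 * γ2)) ≤ k2 := by exact_mod_cast hk2
    have d2 : (532480 * W * (k1 : ℝ) ^ 3 * k2) ≤ m := by exact_mod_cast hm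
    have d3 : 33280 * (k1 : ℝ) ^ 3 * (2 * (36 + 104 * γ2) / k2) ≤ 1 / (4 * W) := by
      rw [← mul_div_assoc, div_le_div_iff₀ (by linarith) (by linarith)]
      linarith
    have d4 : 33280 * (k1 : ℝ) ^ 3 * (4 * k2 / m) ≤ 1 / (4 * W) := by
      rw [← mul_div_assoc, div_le_div_iff₀ (by linarith) (by linarith)]
      linarith
    have d5 := mul_le_mul_of_nonneg_right (add_le_add d3 d4) hT0
    have d6 : (1 / (4 * (W : ℝ)) + 1 / (4 * W)) * T = T / W / 2 := by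
      field_simp
      ring
    rw [hN]
    linarith
  have T0 : 4 * S * W ≤ 3 * T := by
    have h1 : (4 * S : ℝ) ≤ 3 * T / W := by
      rw [mul_div_assoc]
      linarith [m0 h64, m1 h64, m2' h64, m3 h64]
    rw [le_div_iff₀ (by linarith)] at h1
    exact_mod_cast h1
  have T1 := core_a2 QZ S0 (sq_nonneg _) hT (by exact_mod_cast hW) T0
  exact ⟨P.D_of_h (core_a3 (by positivity) aS T1), P.D_many A m2 (by linarith),
    P.D_many B m2 (by linarith)⟩

end PS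

end Pool.Agent.Lib.MP_e5111b_co.FG
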