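import Mathlib

set_option autoImplicit false

/-! A non zero minor and its order. -/

namespace Pool.Agent.Lib.MP_e5111b_co.FG

open Submodule

variable {K : Type} [Field K]

/-- order at least `n` -/
def DGe (w : K → ℤ) (n : ℤ) (a : K) : Prop := a = 0 ∨ n ≤ w a

/-- a discrete valuation written additively, with an arbitrary value at `0` -/
structure DVal (w : K → ℤ) : Prop where
  mul : ∀ a b, a ≠ 0 → b ≠ 0 → w (a * b) = w a + w b
  add : ∀ n a b, DGe w n a → DGe w n b → DGe w n (a + b)

section one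
variable {w : K → ℤ} {n m : ℤ} {a b : K}

theorem DGe.zero : DGe w n 0 := Or.inl rfl

theorem DGe.mono (h : DGe w n a) (k : m ≤ n) : DGe w m a := h.imp id fun h => k.trans h

theorem DVal.one (h : DVal w) : w 1 = 0 := by
  have := h.mul 1 1 one_ne_zero one_ne_zero
  rw [one_mul] at this
  omega

theorem DVal.neg_one (h : DVal w) : w (-1) = 0 := by
  have := h.mul (-1) (-1) (neg_ne_zero.2 one_ne_zero) (neg_ne_zero.2 one_ne_zero)
  rw [neg_mul_neg, one_mul, h.one] at this
  omega

theorem DVal.gmul (h : DVal w) (ha : DGe w n a) (hb : DGe w m b) : DGe w (n + m) (a * b) := by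
  by_cases a0 : a = 0
  · exact Or.inl (by rw [a0, zero_mul])
  by_cases b0 : b = 0
  · exact Or.inl (by rw [b0, mul_zero])
  exact Or.inr (by rw [h.mul a b a0 b0]; exact add_le_add (ha.resolve_left a0) (hb.resolve_left b0))

theorem DVal.gone (h : DVal w) : DGe w 0 1 := Or.inr h.one.ge

theorem DVal.gneg (h : DVal w) (ha : DGe w n a) : DGe w n (-a) := by
  have := h.gmul (n := 0) (a := -1) (Or.inr h.neg_one.ge) ha
  rwa [zero_add, neg_one_mul] at this

theorem DVal.gsub (h : DVal w) (ha : DGe w n a) (hb : DGe w n b) : DGe w n (a - b) := by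
  rw [sub_eq_add_neg]
  exact h.add _ _ _ ha (h.gneg hb)

theorem DVal.gsum (h : DVal w) {ι : Type} (t : Finset ι) (f : ι → K)
    (hf : ∀ i ∈ t, DGe w n (f i)) : DGe w n (∑ i ∈ t, f i) :=
  Finset.sum_induction f (DGe w n) (h.add n) DGe.zero hf

theorem DVal.gprod (h : DVal w) {ι : Type} (t : Finset ι) (f : ι → K) (c : ι → ℤ)
    (hf : ∀ i ∈ t, DGe w (c i) (f i)) : DGe w (∑ i ∈ t, c i) (∏ i ∈ t, f i) := by
  classical
  induction t using Finset.induction_on with
  | empty => simpa using h.gone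
  | insert i t hi ih =>
    rw [Finset.sum_insert hi, Finset.prod_insert hi]
    exact h.gmul (hf i (Finset.mem_insert_self _ _))
      (ih fun j hj => hf j (Finset.mem_insert_of_mem hj))

theorem DVal.gdet (h : DVal w) {ι : Type} [Fintype ι] [DecidableEq ι] (M : Matrix ι ι K)
    (c : ι → ℤ) (hM : ∀ i j, DGe w (c i) (M i j)) : DGe w (∑ i, c i) M.det := by
  rw [← Matrix.det_transpose, Matrix.det_apply']
  refine h.gsum _ _ fun σ _ => ?_
  have h1 := h.gprod Finset.univ (fun i => M.transpose (σ i) i) c fun i _ => hM i (σ i)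
  rcases Int.units_eq_one_or (Equiv.Perm.sign σ) with e | e
  · simpa [e] using h1
  · simpa [e] using h.gneg h1

/-- `a` and `b` have poles of order at most `n k` and agree to order `g - n k` -/
def DCl (w : K → ℤ) (k g : ℤ) (n : ℕ) (a b : K) : Prop :=
  DGe w (-(n * k)) a ∧ DGe w (-(n * k)) b ∧ DGe w (g - n * k) (a - b)

theorem DVal.cmul (h : DVal w) {k g : ℤ} {p q : ℕ} {a' b' : K} (h1 : DCl w k g p a b)
    (h2 : DCl w k g q a' b') : DCl w k g (p + q) (a * a') (b * b') := by
  refine ⟨(h.gmul h1.1 h2.1).mono (by push_cast; linarith),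
    (h.gmul h1.2.1 h2.2.1).mono (by push_cast; linarith), ?_⟩
  rw [show a * a' - b * b' = a * (a' - b') + (a - b) * b' by ring]
  exact h.add _ _ _ ((h.gmul h1.1 h2.2.2).mono (by push_cast; linarith))
    ((h.gmul h1.2.2 h2.2.1).mono (by push_cast; linarith))

theorem DVal.cpow (h : DVal w) {k g : ℤ} (h1 : DCl w k g 1 a b) (p : ℕ) :
    DCl w k g p (a ^ p) (b ^ p) := by
  induction p with
  | zero => exact ⟨by simpa using h.gone, by simpa using h.gone, by simpa using DGe.zero⟩
  | succ p ih => rw [pow_succ, pow_succ]; exact h.cmul ih h1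

theorem DVal.cone (h : DVal w) {k g : ℤ} (hk : 0 ≤ k) (hg : 0 ≤ g) (ha : DGe w (-k) a)
    (hab : DGe w g (a - b)) : DCl w k g 1 a b := by
  refine ⟨by simpa using ha, ?_, hab.mono (by simpa using hk)⟩
  have := h.gsub ha (hab.mono (show -k ≤ g by omega))
  simpa using this

/-- a monomial in two quantities -/
theorem DVal.mono_ge (h : DVal w) {k : ℤ} (hk : 0 ≤ k) {p q d : ℕ} (hd : p + q ≤ d) {a' : K}
    (ha : DGe w (-k) a) (ha' : DGe w (-k) a') : DGe w (-(d * k)) (a ^ p * a' ^ q) := by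
  have h1 := h.cmul (h.cpow (h.cone hk le_rfl ha (b := a) (by simpa using DGe.zero)) p)
    (h.cpow (h.cone hk le_rfl ha' (b := a') (by simpa using DGe.zero)) q)
  exact h1.1.mono (neg_le_neg (mul_le_mul_of_nonneg_right (by exact_mod_cast hd) hk))

theorem DVal.mono_sub (h : DVal w) {k g : ℤ} (hk : 0 ≤ k) (hg : 0 ≤ g) {p q d : ℕ}
    (hd : p + q ≤ d) {a' b' : K} (ha : DGe w (-k) a) (ha' : DGe w (-k) a')
    (hab : DGe w g (a - b)) (hab' : DGe w g (a' - b')) :
    DGe w (g - d * k) (a ^ p * a' ^ q - b ^ p * b' ^ q) := by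
  have h1 := h.cmul (h.cpow (h.cone hk hg ha hab) p) (h.cpow (h.cone hk hg ha' hab') q)
  exact h1.2.2.mono (sub_le_sub_left (mul_le_mul_of_nonneg_right (by exact_mod_cast hd) hk) _)

end one

/-- independent rows have a non zero maximal minor -/
theorem det_minor {ι κ : Type} [Fintype ι] [DecidableEq ι] [Fintype κ] (M : Matrix ι κ K)
    (h : LinearIndependent K M.row) : ∃ φ : ι → κ, (M.submatrix id φ).det ≠ 0 := by
  have h1 : span K (Set.range M.col) = ⊤ := by
    apply Submodule.eq_top_of_finrank_eq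
    rw [← Matrix.rank_eq_finrank_span_cols, h.rank_matrix, Module.finrank_fintype_fun_eq_card]
  obtain ⟨J, a, ha, h2, h3⟩ := exists_linearIndependent' K M.col
  have : Finite J := Finite.of_injective a ha
  have := Fintype.ofFinite J
  have h4 : Fintype.card J = Fintype.card ι := by
    rw [← finrank_span_eq_card h3, h2, h1, finrank_top, Module.finrank_fintype_fun_eq_card]
  let e := (Fintype.equivOfCardEq h4).symm
  refine ⟨a ∘ e, ?_⟩
  have h5 : LinearIndependent K (M.submatrix id (a ∘ e)).col := h3.comp e e.injective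
  exact ((Matrix.isUnit_iff_isUnit_det _).1 (Matrix.linearIndependent_cols_iff_isUnit.1 h5)).ne_zero

/-- rows `e i` independent modulo the span of the rows `f r` -/
theorem det_core {ι R κ : Type} [Fintype ι] [Fintype R] [Fintype κ] (e : ι → κ → K)
    (f : R → κ → K) (ind : ∀ c : ι → K, ∑ i, c i • e i ∈ span K (Set.range f) → c = 0) :
    ∃ z : K, z ≠ 0 ∧ ∀ w : K → ℤ, DVal w → ∀ (a : ι → ℤ) (b : R → ℤ), (∀ r, b r ≤ 0) →
      (∀ i, ∃ u ∈ span K (Set.range f), ∀ j, DGe w (a i) (e i j - u j)) →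
      (∀ r j, DGe w (b r) (f r j)) → DGe w (∑ i, a i + ∑ r, b r) z := by
  classical
  obtain ⟨J, t, ht, h2, h3⟩ := exists_linearIndependent' K f
  have : Finite J := Finite.of_injective t ht
  have := Fintype.ofFinite J
  have li : LinearIndependent K (Sum.elim e (f ∘ t)) := by
    refine LinearIndependent.sum_type (Fintype.linearIndependent_iff.2 fun c hc i =>
      congrFun (ind c (hc ▸ zero_mem _)) i) h3 ?_
    rw [h2, Submodule.disjoint_def]
    intro x hx hx'
    obtain ⟨c, rfl⟩ := (Submodule.mem_span_range_iff_exists_fun K).1 hx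
    simp [ind c hx']
  obtain ⟨φ, hφ⟩ := det_minor (Matrix.of (Sum.elim e (f ∘ t))) li
  refine ⟨_, hφ, fun w hw a b b0 ha hb => ?_⟩
  choose u hu hu' using ha
  choose c hc using fun i => (Submodule.mem_span_range_iff_exists_fun K).1 (h2.symm ▸ hu i)
  have e1 : (Matrix.fromBlocks 1 (-Matrix.of c) 0 1 *
      (Matrix.of (Sum.elim e (f ∘ t))).submatrix id φ).det =
      ((Matrix.of (Sum.elim e (f ∘ t))).submatrix id φ).det := by
    rw [Matrix.det_mul, Matrix.det_fromBlocks_zero₂₁, Matrix.det_one, Matrix.det_one, one_mul,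
      one_mul]
  have e2 := hw.gdet (Matrix.fromBlocks 1 (-Matrix.of c) 0 1 *
      (Matrix.of (Sum.elim e (f ∘ t))).submatrix id φ) (Sum.elim a (b ∘ t)) (by
    rintro (i | r) j
    · have := hu' i (φ j)
      rw [← hc i] at this
      simpa [Matrix.mul_apply, Fintype.sum_sum_type, Matrix.one_apply, sub_eq_add_neg] using this
    · simpa [Matrix.mul_apply, Fintype.sum_sum_type, Matrix.one_apply] using hb (t r) (φ j))
  rw [e1, Fintype.sum_sum_type] at e2
  refine e2.mono (add_le_add_right ?_ _)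
  have e3 : ∑ r : J, Sum.elim a (b ∘ t) (Sum.inr r) = ∑ r ∈ Finset.univ.map ⟨t, ht⟩, b r := by
    rw [Finset.sum_map]; rfl
  rw [e3]
  exact Finset.sum_le_sum_of_subset_of_nonpos' (Finset.subset_univ _) fun r _ _ => b0 r

end Pool.Agent.Lib.MP_e5111b_co.FG
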