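import Pool.Agent.Lib.MP_e5111b_co.FG.Val
import Pool.Agent.Lib.MP_e5111b_co.FG.Comb

namespace Pool.Agent.Lib.MP_e5111b_co.FG

open Finset

theorem lev_sum (a b w : ℤ) :
    ∑ l ∈ Ioc a b, (if l ≤ w then (1 : ℤ) else 0) = max 0 (min b w - a) := by
  have h : (Ioc a b).filter (fun l => l ≤ w) = Ioc a (min b w) := by
    ext l
    simp only [mem_filter, mem_Ioc, le_min_iff, and_assoc]
  rw [← sum_filter, h, sum_const, Int.card_Ioc, nsmul_eq_mul, mul_one]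
  omega

theorem En_congr {α : Type} {m : ℕ} {r r' : α → α → Prop} (f : α → α)
    (h : ∀ x y, r (f x) (f y) ↔ r' x y) (X Y : Fin m → α) :
    En r (fun i => f (X i)) (fun i => f (Y i)) = En r' X Y := by
  have e : ∀ X Y : Fin m → α, ip r (fun i => f (X i)) (fun i => f (Y i)) = ip r' X Y :=
    fun X Y => sum_congr rfl fun i _ => sum_congr rfl fun j _ => ite_congr_iff (h _ _)
  unfold En
  rw [e, e, e]

namespace PS

variable {K : Type} [Field K] (P : PS K) {m : ℕ}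

open Classical in
/-- number of levels of `L` reached by `z` -/
noncomputable def lv (L : Finset (P.σ × ℤ)) (z : K) : ℤ :=
  ∑ p ∈ L, if P.ge p.1 p.2 z then 1 else 0

theorem sum_ip (X Y : Fin m → K) (L : Finset (P.σ × ℤ)) :
    ∑ p ∈ L, ip (P.rel p) X Y = ∑ i, ∑ j, P.lv L (X i - Y j) := by
  unfold ip lv
  rw [sum_comm]
  refine sum_congr rfl fun i _ => ?_
  rw [sum_comm]
  exact sum_congr rfl fun j _ => sum_congr rfl fun p _ => ite_congr_iff Iff.rfl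

theorem lv_mono {L L' : Finset (P.σ × ℤ)} (h : L ⊆ L') (z : K) : P.lv L z ≤ P.lv L' z :=
  sum_le_sum_of_subset_of_nonneg h fun _ _ _ => by split_ifs <;> norm_num

theorem lv_zero (L : Finset (P.σ × ℤ)) : P.lv L 0 = #L := by
  unfold lv
  rw [sum_congr rfl fun p _ => if_pos (ge_zero (P := P) (s := p.1) (n := p.2))]
  simp

theorem lv_box {z : K} (hz : z ≠ 0) (S : Finset P.σ) (a b : ℤ) :
    P.lv (S ×ˢ Ioc a b) z = ∑ s ∈ S, max 0 (min b (P.w s z) - a) := by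
  unfold lv
  rw [sum_product]
  refine sum_congr rfl fun s _ => ?_
  rw [← lev_sum]
  exact sum_congr rfl fun l _ => ite_congr_iff (ge_iff hz)

theorem w_le_h (s : P.σ) (z : K) : P.w s z ≤ P.h z := by
  have := P.bd_pos z {s}
  rw [sum_singleton] at this
  omega

theorem neg_w_le_h (s : P.σ) (z : K) : -P.w s z ≤ P.h z := by
  have := P.bd_neg z {s}
  rw [sum_singleton] at this
  omega

theorem exists_lev (L : Finset (P.σ × ℤ)) : ∃ M : ℤ, ∀ p ∈ L, -M < p.2 ∧ p.2 ≤ M := by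
  refine ⟨∑ p ∈ L, |p.2| + 1, fun p hp => ?_⟩
  have h1 : |p.2| ≤ ∑ p ∈ L, |p.2| :=
    single_le_sum (f := fun p : P.σ × ℤ => |p.2|) (fun _ _ => abs_nonneg _) hp
  have h2 := le_abs_self p.2
  have h3 := neg_abs_le p.2
  omega

theorem lv_le_h {z : K} (hz : z ≠ 0) (L : Finset (P.σ × ℤ)) (hL : ∀ p ∈ L, 1 ≤ p.2) :
    P.lv L z ≤ P.h z := by
  classical
  obtain ⟨M, hM⟩ := P.exists_lev L
  have h1 : L ⊆ L.image Prod.fst ×ˢ Ioc 0 M := fun p hp =>
    mem_product.2 ⟨mem_image_of_mem _ hp, mem_Ioc.2 ⟨hL p hp, (hM p hp).2⟩⟩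
  refine (P.lv_mono h1 z).trans ?_
  rw [P.lv_box hz]
  exact (sum_le_sum fun s _ => by omega).trans (P.bd_pos z _)

theorem ip_sum_le (X Y : Fin m → K) (hne : ∀ i j, X i ≠ Y j) (L : Finset (P.σ × ℤ))
    (hL : ∀ p ∈ L, 1 ≤ p.2) : ∑ p ∈ L, ip (P.rel p) X Y ≤ P.TT X Y := by
  rw [P.sum_ip]
  exact sum_le_sum fun i _ => sum_le_sum fun j _ => P.lv_le_h (sub_ne_zero.2 (hne i j)) L hL

/-- a set of places and a level bound for a finite family -/
theorem exists_fam {ι : Type} [Fintype ι] (z : ι → K) :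
    ∃ (S : Finset P.σ) (M : ℤ), 0 ≤ M ∧ ∀ i, P.supp (z i) ⊆ S ∧ P.h (z i) ≤ M := by
  classical
  exact ⟨univ.biUnion fun i => P.supp (z i), ∑ i, P.h (z i),
    sum_nonneg fun i _ => P.h_nonneg _, fun i =>
      ⟨subset_biUnion_of_mem (fun i => P.supp (z i)) (mem_univ i),
        single_le_sum (f := fun i => P.h (z i)) (fun i _ => P.h_nonneg _) (mem_univ i)⟩⟩

theorem TT_exists (X Y : Fin m → K) (hne : ∀ i j, X i ≠ Y j) :
    ∃ L : Finset (P.σ × ℤ), (∀ p ∈ L, 1 ≤ p.2) ∧ P.TT X Y = ∑ p ∈ L, ip (P.rel p) X Y := by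
  obtain ⟨S, M, -, h⟩ := P.exists_fam fun q : Fin m × Fin m => X q.1 - Y q.2
  refine ⟨S ×ˢ Ioc 0 M, fun p hp => (mem_Ioc.1 (mem_product.1 hp).2).1, ?_⟩
  rw [P.sum_ip]
  refine sum_congr rfl fun i _ => sum_congr rfl fun j _ => ?_
  have h1 := h (i, j)
  rw [P.lv_box (sub_ne_zero.2 (hne i j)), P.h_eq' _ S h1.1]
  refine sum_congr rfl fun s _ => ?_
  have h2 : P.w s (X i - Y j) ≤ M := (P.w_le_h s (X i - Y j)).trans h1.2
  show max 0 (P.w s (X i - Y j)) = _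
  rw [min_eq_right h2, sub_zero]

theorem lv_full {z : K} (hz : z ≠ 0) {S : Finset P.σ} {M : ℤ} (hS : P.supp z ⊆ S)
    (hM : P.h z ≤ M) : P.lv (S ×ˢ Ioc (-M) M) z = M * #S := by
  have h1 : ∑ s ∈ S, max 0 (min M (P.w s z) - -M) = ∑ s ∈ S, (P.w s z + M) :=
    sum_congr rfl fun s _ => by
      have h2 := P.w_le_h s z
      have h3 := P.neg_w_le_h s z
      omega
  rw [P.lv_box hz, h1, sum_add_distrib, P.sum_w z S hS, sum_const, nsmul_eq_mul]
  ring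

theorem card_box (S : Finset P.σ) {a b : ℤ} (h : a ≤ b) :
    (#(S ×ˢ Ioc a b) : ℤ) = (b - a) * #S := by
  rw [card_product, Int.card_Ioc]
  push_cast
  rw [Int.toNat_of_nonneg (by omega)]
  ring

theorem full_self (X : Fin m → K) (hX : Function.Injective X) {S : Finset P.σ} {M : ℤ}
    (h0 : 0 ≤ M) (h : ∀ i j, P.supp (X i - X j) ⊆ S ∧ P.h (X i - X j) ≤ M) :
    ∑ p ∈ S ×ˢ Ioc (-M) M, ip (P.rel p) X X = (m * m + m) * (M * #S) := by
  rw [P.sum_ip]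
  have h1 : ∀ i j, P.lv (S ×ˢ Ioc (-M) M) (X i - X j)
      = M * #S + if i = j then M * #S else 0 := by
    intro i j
    split_ifs with e
    · rw [e, sub_self, P.lv_zero, P.card_box S (by omega)]
      ring
    · rw [P.lv_full (sub_ne_zero.2 fun e' => e (hX e')) (h i j).1 (h i j).2, add_zero]
  simp only [h1, sum_add_distrib, sum_ite_eq, mem_univ, if_true, sum_const, card_univ,
    Fintype.card_fin, nsmul_eq_mul]
  ring

theorem full_ne (X Y : Fin m → K) (hne : ∀ i j, X i ≠ Y j) {S : Finset P.σ} {M : ℤ}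
    (h : ∀ i j, P.supp (X i - Y j) ⊆ S ∧ P.h (X i - Y j) ≤ M) :
    ∑ p ∈ S ×ˢ Ioc (-M) M, ip (P.rel p) X Y = m * m * (M * #S) := by
  rw [P.sum_ip]
  have h1 : ∀ i j, P.lv (S ×ˢ Ioc (-M) M) (X i - Y j) = M * #S := fun i j =>
    P.lv_full (sub_ne_zero.2 (hne i j)) (h i j).1 (h i j).2
  simp only [h1, sum_const, card_univ, Fintype.card_fin, nsmul_eq_mul]
  ring

theorem star (X Y : Fin m → K) (hX : Function.Injective X) (hY : Function.Injective Y)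
    (hne : ∀ i j, X i ≠ Y j) (θ : ℤ) (hθ : 8 ≤ θ) (B : ℤ) (hB : P.Sm1 θ X Y B) (N : ℝ)
    (hN : (2 * θ * B + 4 * P.TT X Y : ℝ) ≤ θ * N) : P.St X Y N 1 := by
  classical
  intro L
  obtain ⟨S1, M1, h01, h1⟩ := P.exists_fam fun q : Fin m × Fin m => X q.1 - X q.2
  obtain ⟨S2, M2, -, h2⟩ := P.exists_fam fun q : Fin m × Fin m => Y q.1 - Y q.2
  obtain ⟨S3, M3, -, h3⟩ := P.exists_fam fun q : Fin m × Fin m => X q.1 - Y q.2
  obtain ⟨M4, h4⟩ := P.exists_lev L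
  obtain ⟨S, hS1, hS2, hS3, hS4⟩ : ∃ S : Finset P.σ, S1 ⊆ S ∧ S2 ⊆ S ∧ S3 ⊆ S ∧
      ∀ p ∈ L, p.1 ∈ S :=
    ⟨S1 ∪ S2 ∪ S3 ∪ L.image Prod.fst, fun s hs => by simp [hs], fun s hs => by simp [hs],
      fun s hs => by simp [hs], fun p hp => mem_union_right _ (mem_image_of_mem _ hp)⟩
  obtain ⟨M, hM1, hM2, hM3, hM4⟩ : ∃ M : ℤ, M1 ≤ M ∧ M2 ≤ M ∧ M3 ≤ M ∧ M4 ≤ M :=
    ⟨max (max M1 M2) (max M3 M4), by omega, by omega, by omega, by omega⟩
  have h0 : 0 ≤ M := h01.trans hM1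
  have e1 := P.full_self X hX h0 fun i j => ⟨(h1 (i, j)).1.trans hS1, (h1 (i, j)).2.trans hM1⟩
  have e2 := P.full_self Y hY h0 fun i j => ⟨(h2 (i, j)).1.trans hS2, (h2 (i, j)).2.trans hM2⟩
  have e3 := P.full_ne X Y hne fun i j => ⟨(h3 (i, j)).1.trans hS3, (h3 (i, j)).2.trans hM3⟩
  have e4 : ∑ p ∈ S ×ˢ Ioc (-M) M, En (P.rel p) X Y = 2 * m * (M * #S) := by
    unfold En
    rw [sum_sub_distrib, sum_add_distrib, ← mul_sum, e1, e2, e3]
    ring
  obtain ⟨G, hG⟩ : ∃ G, G = (S ×ˢ Ioc 0 M) \ L := ⟨_, rfl⟩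
  have g1 : ∀ p ∈ G, 1 ≤ p.2 := fun p hp =>
    (mem_Ioc.1 (mem_product.1 (mem_sdiff.1 (hG ▸ hp)).1).2).1
  have g2 : L ∪ G ⊆ S ×ˢ Ioc (-M) M := by
    intro p hp
    rcases mem_union.1 hp with hp | hp
    · have := h4 p hp
      exact mem_product.2 ⟨hS4 p hp, mem_Ioc.2 ⟨by omega, by omega⟩⟩
    · have h5 := mem_product.1 (mem_sdiff.1 (hG ▸ hp)).1
      have h6 := mem_Ioc.1 h5.2
      exact mem_product.2 ⟨h5.1, mem_Ioc.2 ⟨by omega, h6.2⟩⟩
  have g3 : ∑ p ∈ L, En (P.rel p) X Y + ∑ p ∈ G, En (P.rel p) X Y ≤ 2 * m * (M * #S) := by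
    rw [← e4, ← sum_union (hG ▸ disjoint_sdiff)]
    exact sum_le_sum_of_subset_of_nonneg g2 fun p _ _ => En_nonneg (P.rel_equiv p) X Y
  have g4 : M * #S ≤ #G + #L := by
    have h5 := P.card_box S h0
    have h6 : #(S ×ˢ Ioc 0 M) ≤ #G + #L := hG ▸ card_le_card_sdiff_add_card
    rw [sub_zero] at h5
    rw [← h5]
    exact_mod_cast h6
  have g5 : θ * (2 * m * #G - ∑ p ∈ G, En (P.rel p) X Y) ≤ 2 * θ * B + 4 * P.TT X Y := by
    have h5 := sum_le_sum fun p (_ : p ∈ G) => En_low (P.rel_equiv p) X Y θ hθ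
    rw [← mul_sum, sum_sub_distrib, sum_const, nsmul_eq_mul, sum_add_distrib, ← mul_sum,
      ← mul_sum] at h5
    have h6 := mul_le_mul_of_nonneg_left (hB G g1) (show 0 ≤ 2 * θ by omega)
    have h7 := P.ip_sum_le X Y hne G g1
    linarith
  have g6 : ∑ p ∈ L, En (P.rel p) X Y - 2 * m * #L ≤ 2 * m * #G - ∑ p ∈ G, En (P.rel p) X Y := by
    have := mul_le_mul_of_nonneg_left g4 (show (0 : ℤ) ≤ 2 * m by positivity)
    linarith
  have g7 := (mul_le_mul_of_nonneg_left g6 (show 0 ≤ θ by omega)).trans g5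
  generalize ∑ p ∈ L, En (P.rel p) X Y = E at g7 ⊢
  have g8 : (θ : ℝ) * (E - 2 * m * #L) ≤ 2 * θ * B + 4 * P.TT X Y := by exact_mod_cast g7
  have g9 : (0 : ℝ) < θ := by exact_mod_cast (show 0 < θ by omega)
  have := le_of_mul_le_mul_left (g8.trans hN) g9
  linarith

theorem St.symm {P : PS K} {X Y : Fin m → K} {N c : ℝ} (h : P.St X Y N c) : P.St Y X N c := by
  intro L
  rw [sum_congr rfl fun p _ => En_symm (P.rel_equiv p) Y X]
  exact h L

theorem St.tri {P : PS K} {X Y Z : Fin m → K} {N c c' : ℝ} (h : P.St X Y N c)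
    (h' : P.St Y Z N c') : P.St X Z N (2 * c + 2 * c') := by
  intro L
  have h1 := sum_le_sum fun p (_ : p ∈ L) => En_tri (P.rel_equiv p) X Y Z
  rw [sum_add_distrib, ← mul_sum, ← mul_sum] at h1
  have h2 := h L
  have h3 := h' L
  generalize ∑ p ∈ L, En (P.rel p) X Z = a at *
  generalize ∑ p ∈ L, En (P.rel p) X Y = b at *
  generalize ∑ p ∈ L, En (P.rel p) Y Z = d at *
  have h4 : (a : ℝ) ≤ 2 * b + 2 * d := by exact_mod_cast h1
  linarith

theorem St.aff {P : PS K} {X Y : Fin m → K} {N c : ℝ} (h : P.St X Y N c) (a b : K) (ha : a ≠ 0) :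
    P.St (fun i => a * X i + b) (fun i => a * Y i + b) N c := by
  classical
  intro L
  have hi : Function.Injective fun p : P.σ × ℤ => (p.1, p.2 - P.w p.1 a) := by
    rintro ⟨s, l⟩ ⟨s', l'⟩ e
    simp only [Prod.mk.injEq] at e ⊢
    obtain ⟨rfl, e⟩ := e
    exact ⟨rfl, by omega⟩
  have h1 := h (L.image fun p : P.σ × ℤ => (p.1, p.2 - P.w p.1 a))
  rw [card_image_of_injective _ hi, sum_image hi.injOn] at h1
  refine le_trans (le_of_eq ?_) h1
  congr 1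
  refine sum_congr rfl fun p _ => En_congr (fun x => a * x + b) (fun x y => ?_) X Y
  have e := ge_mul_left (P := P) (s := p.1) (n := p.2 - P.w p.1 a) (x := x - y) ha
  rw [sub_add_cancel, show a * (x - y) = a * x + b - (a * y + b) by ring] at e
  exact e

end PS

end Pool.Agent.Lib.MP_e5111b_co.FG
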