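import Pool.Agent.Lib.MP_e5111b_co.FG.Defs

/-! Laurent series kit: Euler operator, square roots, the substitution `τ ↦ τ²`. -/

namespace Pool.Agent.Lib.MP_e5111b_co.FG

open Finset

section laur

open HahnSeries

theorem th_coeff (x : LS) (n : ℤ) : (th x).coeff n = (n : ℂ) * x.coeff n := rfl

theorem th_supp (x : LS) : (th x).support ⊆ x.support := by
  intro n hn
  simp only [HahnSeries.mem_support, th_coeff, ne_eq, mul_eq_zero, not_or] at hn ⊢
  exact hn.2

theorem th_add (x y : LS) : th (x + y) = th x + th y := by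
  ext n; simp [th_coeff, mul_add]

theorem th_sub (x y : LS) : th (x - y) = th x - th y := by
  ext n; simp [th_coeff, mul_sub]

theorem th_mul (x y : LS) : th (x * y) = x * th y + y * th x := by
  ext n
  rw [mul_comm y, coeff_add, coeff_mul_left' x.isPWO_support (th_supp x),
    coeff_mul_right' y.isPWO_support (th_supp y), th_coeff, coeff_mul, Finset.mul_sum,
    ← Finset.sum_add_distrib]
  refine Finset.sum_congr rfl fun p hp => ?_
  have h := (Finset.mem_antidiagonal.mp hp).2.2
  simp only [th_coeff]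
  rw [← h]; push_cast; ring

theorem th_single' (n : ℤ) (a : ℂ) : th (single n a) = single n ((n : ℂ) * a) := by
  ext k
  by_cases h : k = n
  · subst h; simp [th_coeff]
  · simp [th_coeff, coeff_single_of_ne h]

theorem th_C (a : ℂ) : th (HahnSeries.C a) = 0 := by
  rw [C_apply, th_single']; simp

theorem th_single (n : ℤ) : th (HahnSeries.single n 1) = (n : LS) * HahnSeries.single n 1 := by
  have : (n : LS) = C (n : ℂ) := by rw [map_intCast]
  rw [th_single', this, C_apply, single_mul_single, zero_add]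

theorem order_le_th (x : LS) (h : th x ≠ 0) : x.order ≤ (th x).order := by
  rw [le_order_iff_forall h]
  intro j hj
  rw [th_coeff, coeff_eq_zero_of_lt_order hj, mul_zero]

theorem one_le_order_th (x : LS) (h : th x ≠ 0) (h0 : 0 ≤ x.order) : 1 ≤ (th x).order := by
  rw [le_order_iff_forall h]
  intro j hj
  rcases lt_or_eq_of_le (show j ≤ 0 by omega) with h1 | h1
  · rw [th_coeff, coeff_eq_zero_of_lt_order (lt_of_lt_of_le h1 h0), mul_zero]
  · simp [th_coeff, h1]

theorem order_eq_zero_of_th (x : LS) (h : th x = 0) : x.order = 0 := by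
  by_cases hx : x = 0
  · simp [hx]
  have h1 : (th x).coeff x.order = 0 := by rw [h]; simp
  rw [th_coeff] at h1
  rcases mul_eq_zero.mp h1 with h2 | h2
  · exact_mod_cast h2
  · exact absurd (coeff_order_eq_zero.mp h2) hx

theorem ord_mul {x y : LS} (hx : x ≠ 0) (hy : y ≠ 0) : (x * y).order = x.order + y.order :=
  order_mul hx hy

theorem ord_inv (x : LS) : x⁻¹.order = - x.order := by
  by_cases hx : x = 0
  · simp [hx]
  have := ord_mul hx (inv_ne_zero hx)
  rw [mul_inv_cancel₀ hx, order_one] at this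
  omega

/-- A series close to `1` is a square. -/
theorem sq_near_one {x : LS} (h : 0 < (x - 1).orderTop) : ∃ r : LS, r * r = x := by
  refine ⟨PowerSeries.heval (x - 1) (PowerSeries.binomialSeries ℂ (1 / 2 : ℂ)), ?_⟩
  rw [← map_mul, ← PowerSeries.binomialSeries_add]
  have : (1 / 2 : ℂ) + 1 / 2 = ((1 : ℕ) : ℂ) := by norm_num
  rw [this, PowerSeries.binomialSeries_nat, pow_one, map_add, map_one, PowerSeries.heval_X _ h]
  ring

theorem sq_of_even {x : LS} (hx : x ≠ 0) (he : Even x.order) : ∃ r : LS, r * r = x := by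
  obtain ⟨k, hk⟩ := he
  obtain ⟨c, hc⟩ := IsAlgClosed.exists_eq_mul_self (x.coeff x.order)
  have hc0 : c ≠ 0 := by
    rintro rfl
    exact hx (coeff_order_eq_zero.mp (by simpa using hc))
  set s : LS := single (-k) c⁻¹ with hs
  have hs0 : s ≠ 0 := single_ne_zero (inv_ne_zero hc0)
  have hss : s * s = single (-x.order) (c⁻¹ * c⁻¹) := by
    rw [hs, single_mul_single, hk, neg_add]
  have hne : x * (s * s) ≠ 0 := mul_ne_zero hx (mul_ne_zero hs0 hs0)
  have ho : (s * s).order = -x.order := by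
    rw [hss, order_single (mul_ne_zero (inv_ne_zero hc0) (inv_ne_zero hc0))]
  have h1 : 0 < (x * (s * s) - 1).orderTop := by
    rw [orderTop_self_sub_one_pos_iff]
    have h0 : (x * (s * s)).order = 0 := by
      rw [ord_mul hx (mul_ne_zero hs0 hs0), ho]; ring
    refine ⟨by rw [← order_eq_orderTop_of_ne_zero hne, h0]; rfl, ?_⟩
    rw [leadingCoeff_mul, hss, leadingCoeff_of_single, leadingCoeff_eq, hc]
    field_simp
  obtain ⟨r, hr⟩ := sq_near_one h1
  refine ⟨r * s⁻¹, ?_⟩
  have : r * s⁻¹ * (r * s⁻¹) = r * r * (s * s)⁻¹ := by field_simp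
  rw [this, hr]; field_simp

/-- The substitution `τ ↦ τ²`. -/
noncomputable def dbl : LS →+* LS :=
  embDomainRingHom ((2 : ℤ) • AddMonoidHom.id ℤ) (by
    intro a b h
    simpa using h) (by intro a b; simp)

theorem dbl_coeff_two (x : LS) (n : ℤ) : (dbl x).coeff (2 * n) = x.coeff n :=
  embDomain_coeff (a := n)

theorem dbl_coeff_odd (x : LS) (n : ℤ) (h : ¬ Even n) : (dbl x).coeff n = 0 := by
  refine embDomain_of_notMem_range ?_
  rintro ⟨k, hk⟩
  have : 2 * k = n := hk
  exact h ⟨k, by omega⟩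

theorem dbl_order (x : LS) : (dbl x).order = 2 * x.order := by
  by_cases hx : x = 0
  · simp [hx]
  have hd : dbl x ≠ 0 := (map_ne_zero dbl).mpr hx
  apply le_antisymm
  · apply order_le_of_coeff_ne_zero
    rw [dbl_coeff_two]; exact fun h => hx (coeff_order_eq_zero.mp h)
  · rw [le_order_iff_forall hd]
    intro j hj
    by_cases he : Even j
    · obtain ⟨k, rfl⟩ := he
      rw [← two_mul, dbl_coeff_two]
      exact coeff_eq_zero_of_lt_order (by omega)
    · exact dbl_coeff_odd x j he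

theorem th_dbl (x : LS) : th (dbl x) = 2 * dbl (th x) := by
  ext j
  rw [two_mul, coeff_add, th_coeff]
  by_cases he : Even j
  · obtain ⟨k, rfl⟩ := he
    rw [← two_mul, dbl_coeff_two, dbl_coeff_two, th_coeff]; push_cast; ring
  · simp [dbl_coeff_odd _ j he]

theorem exists_psi : ∃ ψ : LS →+* LS, (∀ x, (ψ x).order = 2 * x.order) ∧
    ∀ x, th (ψ x) = 2 * ψ (th x) := ⟨dbl, dbl_order, th_dbl⟩

theorem exists_sqrt (x : LS) (h : Even x.order) : ∃ r, r * r = x := by
  by_cases hx : x = 0
  · exact ⟨0, by rw [hx, mul_zero]⟩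
  · exact sq_of_even hx h

theorem ls_two_ne : (2 : LS) ≠ 0 := by
  have : CharZero LS := algebraRat.charZero LS
  exact two_ne_zero

theorem ls_two_order : (2 : LS).order = 0 := by
  have : (2 : LS) = C (2 : ℂ) := by rw [map_ofNat]
  rw [this, order_C]

theorem ord_add_nonneg {x y : LS} (hx : 0 ≤ x.order) (hy : 0 ≤ y.order) :
    0 ≤ (x + y).order := by
  by_cases h : x + y = 0
  · simp [h]
  · exact le_trans (le_min hx hy) (min_order_le_order_add h)

theorem ord_mul_nonneg {x y : LS} (hx : 0 ≤ x.order) (hy : 0 ≤ y.order) :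
    0 ≤ (x * y).order := by
  by_cases h1 : x = 0
  · simp [h1]
  by_cases h2 : y = 0
  · simp [h2]
  rw [ord_mul h1 h2]; omega

theorem ord_add_of_lt {x y : LS} (hx : x ≠ 0) (h : x.order < y.order) :
    (x + y).order = x.order := by
  have hc : (x + y).coeff x.order ≠ 0 := by
    rw [coeff_add, coeff_eq_zero_of_lt_order h, add_zero]
    exact fun h => hx (coeff_order_eq_zero.mp h)
  have hne : x + y ≠ 0 := by rintro h0; rw [h0] at hc; simp at hc
  apply le_antisymm (order_le_of_coeff_ne_zero hc)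
  have := min_order_le_order_add hne
  rwa [min_eq_left h.le] at this

/-- Sum and difference have the same order when the orders differ. -/
theorem ord_add_eq_sub {x y : LS} (h : x ≠ 0 → y ≠ 0 → x.order ≠ y.order) :
    (x + y).order = (x - y).order := by
  by_cases hx : x = 0
  · simp [hx]
  by_cases hy : y = 0
  · simp [hy]
  rcases lt_or_gt_of_ne (h hx hy) with h1 | h1
  · rw [ord_add_of_lt hx h1, sub_eq_add_neg, ord_add_of_lt hx (by rwa [order_neg])]
  · rw [add_comm, ord_add_of_lt hy h1, sub_eq_add_neg, add_comm,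
      ord_add_of_lt (neg_ne_zero.mpr hy) (by rwa [order_neg]), order_neg]

end laur

namespace EP

variable {F : Type} [Field F] (Q : EP F)

theorem D_add (x y : F) : Q.D (x + y) = Q.D x + Q.D y := by
  apply (Q.emb Q.s0).injective
  rw [map_add, Q.hD, Q.hD, Q.hD, map_add, th_add, mul_add]

theorem D_mul (x y : F) : Q.D (x * y) = x * Q.D y + y * Q.D x := by
  apply (Q.emb Q.s0).injective
  rw [map_add, map_mul, map_mul, Q.hD, Q.hD, Q.hD, map_mul, th_mul]; ring

theorem D_sub (x y : F) : Q.D (x - y) = Q.D x - Q.D y := by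
  apply (Q.emb Q.s0).injective
  rw [map_sub, Q.hD, Q.hD, Q.hD, map_sub, th_sub, mul_sub]

theorem D_zero : Q.D 0 = 0 := by
  have := Q.D_sub 0 0
  rwa [sub_self, sub_self] at this

theorem charZero (Q : EP F) : CharZero F := by
  have : CharZero LS := algebraRat.charZero LS
  exact (Q.emb Q.s0).charZero

theorem D_κ (a : ℝ) : Q.D (Q.κ a) = 0 := by
  apply (Q.emb Q.s0).injective
  rw [Q.hD, Q.hκ, th_C, mul_zero, map_zero]

/-- an element without poles satisfies a real quadratic equation -/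
theorem quad_eq {x : F} (h : ∀ s, 0 ≤ (Q.emb s x).order) :
    ∃ a n : ℝ, x ^ 2 - Q.κ a * x + Q.κ n = 0 := by
  obtain ⟨c, hc⟩ : ∃ c, c = (Q.emb Q.s0 x).coeff 0 := ⟨_, rfl⟩
  refine ⟨2 * c.re, Complex.normSq c, ?_⟩
  by_contra h0
  have e : ∀ s, Q.emb s (x ^ 2 - Q.κ (2 * c.re) * x + Q.κ (Complex.normSq c)) =
      (Q.emb s x + HahnSeries.C (-c)) * (Q.emb s x + HahnSeries.C (-(starRingEnd ℂ) c)) := by
    intro s
    rw [map_add, map_sub, map_pow, map_mul, Q.hκ, Q.hκ, ← Complex.mul_conj, ← Complex.add_conj,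
      map_add, map_mul, map_neg, map_neg]
    ring
  have n1 : ∀ s a, 0 ≤ (Q.emb s x + HahnSeries.C a).order := fun s a =>
    ord_add_nonneg (h s) HahnSeries.order_C.ge
  have n2 := fun s => (e s).symm ▸ ord_mul_nonneg (n1 s (-c)) (n1 s (-(starRingEnd ℂ) c))
  have h1 := (map_ne_zero (Q.emb Q.s0)).mpr h0
  have h2 : (Q.emb Q.s0 (x ^ 2 - Q.κ (2 * c.re) * x + Q.κ (Complex.normSq c))).order = 0 := by
    by_contra h2
    exact (finsum_pos n2 ⟨Q.s0, lt_of_le_of_ne (n2 _) (Ne.symm h2)⟩ (Q.fin _)).ne' (Q.prod _)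
  rw [e] at h1 h2
  rw [ord_mul (left_ne_zero_of_mul h1) (right_ne_zero_of_mul h1)] at h2
  have h3 := n1 Q.s0 (-c)
  have h4 := n1 Q.s0 (-(starRingEnd ℂ) c)
  have h5 : (Q.emb Q.s0 x + HahnSeries.C (-c)).order = 0 := by omega
  apply left_ne_zero_of_mul h1
  rw [← HahnSeries.coeff_order_eq_zero, h5, HahnSeries.coeff_add, ← hc]
  simp [HahnSeries.C_apply]

theorem cst (x : F) (h : ∀ s, 0 ≤ (Q.emb s x).order) : Q.D x = 0 := by
  have := Q.charZero
  obtain ⟨a, n, e⟩ := Q.quad_eq h
  have h1 := congrArg Q.D e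
  rw [Q.D_add, Q.D_sub, sq, Q.D_mul, Q.D_mul, Q.D_κ, Q.D_κ, Q.D_zero] at h1
  by_cases h2 : 2 * x - Q.κ a = 0
  · have : x = Q.κ (a / 2) := by
      rw [map_div₀, map_ofNat]; linear_combination h2 / 2
    rw [this, Q.D_κ]
  · exact (mul_eq_zero.mp (by linear_combination h1 : (2 * x - Q.κ a) * Q.D x = 0)).resolve_left h2

theorem order_zero {x : F} (hx : Q.D x = 0) (s : Q.σ) : (Q.emb s x).order = 0 := by
  have := Q.hD s x
  rw [hx, map_zero] at this
  exact order_eq_zero_of_th _ ((mul_eq_zero.mp this.symm).resolve_left (Q.mul_ne s))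

theorem order_D (s : Q.σ) {x : F} (h : Q.D x ≠ 0) : th (Q.emb s x) ≠ 0 ∧
    (Q.emb s (Q.D x)).order = (Q.mul s).order + (th (Q.emb s x)).order := by
  have h1 : th (Q.emb s x) ≠ 0 := by
    intro h1
    have := Q.hD s x
    rw [h1, mul_zero] at this
    exact (map_ne_zero _).mpr h this
  exact ⟨h1, by rw [Q.hD, ord_mul (Q.mul_ne s) h1]⟩

/-- the valuations of a system of embeddings -/
noncomputable def toPS (R : ℕ) (hR : 2 ≤ R) (U : Finset Q.σ)
    (h : ∀ s, -(R : ℤ) ≤ (Q.mul s).order) : PS F where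
  σ := Q.σ
  w s x := (Q.emb s x).order
  bad s := (Q.mul s).order < -1
  R := R
  R2 := hR
  U := U
  D := Q.D
  D_add := Q.D_add
  D_mul := Q.D_mul
  w_zero s := by simp
  w_mul s x y hx hy := by
    rw [map_mul, ord_mul ((map_ne_zero _).mpr hx) ((map_ne_zero _).mpr hy)]
  w_add s x y _ _ hxy := by
    rw [map_add]
    exact HahnSeries.min_order_le_order_add (by rw [← map_add]; exact (map_ne_zero _).mpr hxy)
  fin := Q.fin
  prod := Q.prod
  D1 s x hx := by
    obtain ⟨h1, h2⟩ := Q.order_D s hx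
    have := order_le_th _ h1
    have := h s
    omega
  D1g s x hs hx := by
    obtain ⟨h1, h2⟩ := Q.order_D s hx
    have := order_le_th _ h1
    omega
  D2 s x hs hx h0 := by
    obtain ⟨h1, h2⟩ := Q.order_D s hx
    have := one_le_order_th _ h1 h0
    omega
  cst := Q.cst
  cst' s _ hx := Q.order_zero hx s

end EP

end Pool.Agent.Lib.MP_e5111b_co.FG
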