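import Pool.Agent.Lib.MP_e5111b_co.FG.Small
import Pool.Agent.Lib.MP_e5111b_co.FG.Tens
import Pool.Agent.Lib.MP_e5111b_co.FG.Sel

/-! The three modes of the selection step. -/

namespace Pool.Agent.Lib.MP_e5111b_co.FG

open Finset

theorem nf_j (c : ℕ) : ∃ j : ℕ, 1 ≤ j ∧ c * (36 + 104 * (2 * (4 * j))) ≤ 2 * j ^ 2 :=
  ⟨868 * c + 1, by omega, by nlinarith [Nat.zero_le c, Nat.zero_le (c ^ 2)]⟩

theorem nf_m (W k1 k2 N M : ℕ) (h1 : 1 ≤ k1) (h2 : 1 ≤ k2) (hN : 1 ≤ N) : ∃ m θ1 θ2 : ℕ,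
    m = k1 * θ1 ∧ m = k2 * θ2 ∧ 8 ≤ θ2 ∧ 532480 * W * k1 ^ 3 * k2 ≤ m ∧ N ∣ m ∧ M ≤ m := by
  obtain ⟨t, ht⟩ : ∃ t, t = N * (532480 * W * k1 ^ 2 + 8 + M) := ⟨_, rfl⟩
  have t1 : 532480 * W * k1 ^ 2 + 8 + M ≤ t := by rw [ht]; exact Nat.le_mul_of_pos_left _ hN
  have t2 : 8 + M ≤ k1 * t := le_trans (by omega) (Nat.le_mul_of_pos_left t h1)
  refine ⟨k1 * (k2 * t), k2 * t, k1 * t, rfl, by ring, by omega, ?_, ?_, ?_⟩
  · calc 532480 * W * k1 ^ 3 * k2 = k1 * (k2 * (532480 * W * k1 ^ 2)) := by ring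
      _ ≤ k1 * (k2 * t) := by gcongr; omega
  · exact ⟨k1 * k2 * (532480 * W * k1 ^ 2 + 8 + M), by rw [ht]; ring⟩
  · calc M ≤ k1 * t := by omega
      _ ≤ k2 * (k1 * t) := Nat.le_mul_of_pos_left _ h2
      _ = k1 * (k2 * t) := by ring

variable {K : Type} [Field K] {m : ℕ}

theorem PS.Sq.mono {X Y X' Y' : Set K} {a b : K} (h : PS.Sq X Y a b) (hX : X' ⊆ X)
    (hY : Y' ⊆ Y) : PS.Sq X' Y' a b :=
  ⟨h.a0, fun x hx y hy => h.sq x (hX hx) y (hY hy), fun x hx y hy => h.ne1 x (hX hx) y (hY hy),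
    fun x hx y hy => h.ne2 x (hX hx) y (hY hy), fun x hx => h.ne3 x (hX hx)⟩

omit [Field K] in
theorem nf_pick (G : Finset K) (h : m ≤ #G) :
    ∃ X : Fin m → K, Function.Injective X ∧ ∀ i, X i ∈ G := by
  obtain ⟨G', h1, h2⟩ := exists_subset_card_eq h
  exact ⟨fun i => (G'.equivFinOfCardEq h2).symm i,
    Subtype.val_injective.comp (Equiv.injective _), fun i => h1 (Subtype.property _)⟩

theorem nf_rank {V : Type} [AddCommGroup V] [Module K V] (e : K → V) (X : Fin m → K)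
    (R : Finset (Fin m)) : Module.finrank K (Submodule.span K (e '' (X '' R))) ≤ #R := by
  classical
  have : e '' (X '' R) = ((R.image fun i => e (X i) : Finset V) : Set V) := by
    rw [coe_image, Set.image_image]
  rw [this]
  exact (finrank_span_finset_le_card _).trans card_image_le

/-- generic mode: independence of the box rows -/
theorem PS.nf_gen [CharZero K] (P : PS K) {d j : ℕ} {G : Finset K} (hG : P.Gen d G)
    (π : ((Fin d → Fin 3) → K) →ₗ[K] (Fin (2 * j + 1) × Fin (2 * j + 1) → K))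
    (hπ : ∀ p, π (ev d p) = box (2 * j + 1) p) (X Y : Fin m → K) (R Z : Finset (Fin m))
    (hR : #R ≤ 2 * j ^ 2) (hZ : #Z = 2 * j ^ 2)
    (h : (∃ x ∈ G, P.E d x ∉ (Submodule.span K (P.Bx (2 * j + 1) '' (Y '' R))).comap π ⊔
        Submodule.span K (P.E d '' (X '' Z))) →
      IndMod ((Submodule.span K (P.Bx (2 * j + 1) '' (Y '' R))).comap π) Z
        fun i => P.E d (X i)) :
    IndMod (Submodule.span K (P.Bx (2 * j + 1) '' (Y '' R))) Z
      fun i => P.Bx (2 * j + 1) (X i) := by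
  have hE : ∀ x, π (P.E d x) = P.Bx (2 * j + 1) x := fun x => hπ _
  have h1 := h (by
    by_contra hc
    push Not at hc
    set U := Submodule.span K (P.Bx (2 * j + 1) '' (Y '' R))
    set U' := Submodule.span K (P.Bx (2 * j + 1) '' (X '' Z))
    have h2 : U.comap π ⊔ Submodule.span K (P.E d '' (X '' Z)) ≤ (U ⊔ U').comap π := by
      refine sup_le (Submodule.comap_mono le_sup_left) (Submodule.span_le.mpr ?_)
      rintro _ ⟨x, hx, rfl⟩
      refine Submodule.mem_sup_right ?_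
      rw [hE]; exact Submodule.subset_span ⟨x, hx, rfl⟩
    have h3 : Submodule.span K (P.E d '' G) ≤ (U ⊔ U').comap π := by
      refine Submodule.span_le.mpr ?_
      rintro _ ⟨x, hx, rfl⟩
      exact h2 (hc x hx)
    have h4 : U ⊔ U' = ⊤ := by
      rw [eq_top_iff, ← box_span (2 * j + 1), Submodule.span_le]
      rintro _ ⟨p, rfl⟩
      rw [← hπ]; exact h3 (hG p)
    have h5 := Submodule.finrank_add_le_finrank_add_finrank U U'
    have h6 := nf_rank (P.Bx (2 * j + 1)) Y R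
    have h7 := nf_rank (P.Bx (2 * j + 1)) X Z
    rw [h4, finrank_top, Module.finrank_fintype_fun_eq_card, Fintype.card_prod,
      Fintype.card_fin] at h5
    change Module.finrank K U ≤ _ at h6
    change Module.finrank K U' ≤ _ at h7
    nlinarith)
  intro c hc
  refine h1 c ?_
  rw [Submodule.mem_comap, map_sum]
  simpa only [map_smul, hE] using hc

theorem PS.nf_sel_gen [CharZero K] (P : PS K) {d J j1 j2 θ1 θ2 : ℕ} {G : Finset K}
    (hG : P.Gen d G) (hS : Spread (P.E d) J G) (h1 : 4 * j1 ≤ d) (h2 : 4 * j2 ≤ d)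
    (hj1 : 1 ≤ j1) (hj2 : 1 ≤ j2) (hm1 : m = 2 * j1 ^ 2 * θ1) (hm2 : m = 2 * j2 ^ 2 * θ2)
    (hJ : 2 * (8 * 2 ^ m) * 2 ^ m ≤ J) (hm : 2 * m ≤ #G) (Y : Fin 4 → Fin m → K) :
    ∃ X : Fin m → K, Function.Injective X ∧ (∀ i, X i ∈ G) ∧ ∀ t,
      P.Sm2 θ1 X (Y t) ((2 * (4 * j1) : ℕ) * θ1 * (∑ i, P.ck (X i) + ∑ j, P.ck (Y t j))) ∧
      P.Sm2 θ2 X (Y t) ((2 * (4 * j2) : ℕ) * θ2 * (∑ i, P.ck (X i) + ∑ j, P.ck (Y t j))) := by
  classical
  obtain ⟨π1, p1⟩ := box_proj (K := K) j1 d h1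
  obtain ⟨π2, p2⟩ := box_proj (K := K) j2 d h2
  let F1 : Fin 4 × Finset (Fin m) → Submodule K ((Fin d → Fin 3) → K) := fun q =>
    (Submodule.span K (P.Bx (2 * j1 + 1) '' (Y q.1 '' q.2))).comap π1
  let F2 : Fin 4 × Finset (Fin m) → Submodule K ((Fin d → Fin 3) → K) := fun q =>
    (Submodule.span K (P.Bx (2 * j2 + 1) '' (Y q.1 '' q.2))).comap π2
  have hc : #(univ.image F1 ∪ univ.image F2) ≤ 8 * 2 ^ m := by
    have c1 : #(univ.image F1) ≤ 4 * 2 ^ m := card_image_le.trans (by simp)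
    have c2 : #(univ.image F2) ≤ 4 * 2 ^ m := card_image_le.trans (by simp)
    have := card_union_le (univ.image F1) (univ.image F2)
    omega
  obtain ⟨X, hX, hXG, hU⟩ := select (P.E d) J G hS (univ.image F1 ∪ univ.image F2) m
    (le_trans (by gcongr) hJ) hm
  refine ⟨X, hX, hXG, fun t => ⟨?_, ?_⟩⟩
  · refine P.sm_gen _ _ (P.mon_Bx j1) X (Y t) _ θ1 hm1 (by nlinarith) fun R hR Z hZ => ?_
    exact P.nf_gen hG π1 p1 X (Y t) R Z hR hZ
      ((hU _ (mem_union_left _ (mem_image_of_mem F1 (mem_univ (t, R))))).2 Z)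
  · refine P.sm_gen _ _ (P.mon_Bx j2) X (Y t) _ θ2 hm2 (by nlinarith) fun R hR Z hZ => ?_
    exact P.nf_gen hG π2 p2 X (Y t) R Z hR hZ
      ((hU _ (mem_union_right _ (mem_image_of_mem F2 (mem_univ (t, R))))).2 Z)

/-- any `3 ^ d + 1` of the points `X` span, also after affine maps -/
def PS.Spans (P : PS K) (d : ℕ) (X : Fin m → K) : Prop :=
  ∀ R : Finset (Fin m), #R = 3 ^ d + 1 → ∀ j, P.E d (X j) ∈ Submodule.span K (P.E d '' (X '' R))

theorem PS.Spans.aff {P : PS K} {d : ℕ} {X : Fin m → K} (h : P.Spans d X) (a b : K) :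
    P.Spans d fun j => a * X j + b := by
  intro R hR j
  have h1 : Le (P.E d) {X j} (X '' R) := by
    rintro _ rfl; exact h R hR j
  have h2 := P.le_aff d a b h1 (a * X j + b) ⟨X j, rfl, rfl⟩
  rwa [Set.image_image (fun x => a * x + b) X] at h2

theorem PS.nf_sel (P : PS K) {d J : ℕ} {G : Finset K} (hS : Spread (P.E d) J G)
    (hJ : 2 * 5 * 2 ^ m ≤ J) (hm : 2 * m ≤ #G) (U : Fin 4 → Submodule K ((Fin d → Fin 3) → K)) :
    ∃ X : Fin m → K, Function.Injective X ∧ (∀ i, X i ∈ G) ∧ P.Spans d X ∧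
      ∀ t, (∃ x ∈ G, P.E d x ∉ U t) → ∀ i, P.E d (X i) ∉ U t := by
  classical
  have hc : #(insert ⊥ (univ.image U)) ≤ 5 :=
    (card_insert_le _ _).trans (Nat.succ_le_succ (card_image_le.trans (by simp)))
  obtain ⟨X, hX, hXG, hU⟩ := select (P.E d) J G hS (insert ⊥ (univ.image U)) m
    (le_trans (by gcongr) hJ) hm
  refine ⟨X, hX, hXG, fun R hR j => ?_, fun t =>
    (hU _ (mem_insert_of_mem (mem_image_of_mem U (mem_univ t)))).1⟩
  by_contra hc
  have h1 := ((hU ⊥ (mem_insert_self _ _)).2 R ⟨X j, hXG j, by rwa [bot_sup_eq]⟩).card_le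
  rw [hR, Module.finrank_fintype_fun_eq_card] at h1
  simp at h1

theorem PS.nf_one (P : PS K) {d : ℕ} (θ : ℕ) (hN : 3 ^ d + 1 ∣ m) {X Y : Fin m → K} {H : Set K}
    (hY : P.Spans d Y) (hH : ∀ j, Y j ∈ H)
    (h : ∀ i, P.E d (X i) ∉ Submodule.span K (P.E d '' H)) :
    P.Sm2 θ X Y ((d * (3 ^ d + 1) : ℕ) * θ * (∑ i, P.ck (X i) + ∑ j, P.ck (Y j))) ∧
      P.Sm2 θ Y X ((d * (3 ^ d + 1) : ℕ) * θ * (∑ i, P.ck (Y i) + ∑ j, P.ck (X j))) := by
  have h1 := P.sm_one d _ (P.mon_E d) X Y _ θ hN (Nat.le_add_left _ _) (fun i hi => h i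
    (Submodule.span_mono (Set.image_mono (Set.range_subset_iff.mpr hH)) hi)) hY
  exact ⟨h1, by rw [add_comm (∑ i, P.ck (Y i))]; exact h1.symm⟩

theorem nf_not_le {V : Type} [AddCommGroup V] [Module K V] {e : K → V} {G : Finset K}
    {H : Set K} (h : ¬ Le e G H) : ∃ x ∈ G, e x ∉ Submodule.span K (e '' H) := by
  by_contra hc
  push Not at hc
  exact h fun x hx => hc x hx

/-- separated mode, one pair -/
theorem PS.nf_pair (P : PS K) {d : ℕ} (θ : ℕ) (hN : 3 ^ d + 1 ∣ m) {A B : Finset K} {a b : K}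
    (hS : P.Sep d A B a b) {X Y : Fin m → K} (hX : ∀ i, X i ∈ A) (hY : ∀ i, Y i ∈ B)
    (sX : P.Spans d X) (sY : P.Spans d Y)
    (L : ((Fin d → Fin 3) → K) →ₗ[K] ((Fin d → Fin 3) → K))
    (hL : ∀ x, P.E d (a * x + b) = L (P.E d x))
    (h1 : (∃ x ∈ A, P.E d x ∉ Submodule.span K (P.E d '' B)) →
      ∀ i, P.E d (X i) ∉ Submodule.span K (P.E d '' B))
    (h2 : (∃ x ∈ A, P.E d x ∉ Submodule.span K (P.E d '' ((fun y => a * y + b) '' B))) →
      ∀ i, P.E d (X i) ∉ Submodule.span K (P.E d '' ((fun y => a * y + b) '' B)))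
    (h3 : (∃ x ∈ B, P.E d x ∉ Submodule.span K (P.E d '' A)) →
      ∀ i, P.E d (Y i) ∉ Submodule.span K (P.E d '' A))
    (h4 : (∃ x ∈ B, P.E d x ∉ (Submodule.span K (P.E d '' A)).comap L) →
      ∀ i, P.E d (Y i) ∉ (Submodule.span K (P.E d '' A)).comap L) :
    P.Sm2 θ X Y ((d * (3 ^ d + 1) : ℕ) * θ * (∑ i, P.ck (X i) + ∑ j, P.ck (Y j))) ∧
      P.Sm2 θ X (fun j => a * Y j + b)
        ((d * (3 ^ d + 1) : ℕ) * θ * (∑ i, P.ck (X i) + ∑ j, P.ck (a * Y j + b))) := by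
  rcases hS with ⟨s1, s2⟩ | ⟨s1, s2⟩
  · exact ⟨(P.nf_one θ hN sY hY (h1 (nf_not_le s1))).1,
      (P.nf_one θ hN (sY.aff a b) (H := (fun y => a * y + b) '' B)
        (fun j => ⟨Y j, hY j, rfl⟩) (h2 (nf_not_le s2))).1⟩
  · refine ⟨(P.nf_one θ hN sX hX (h3 (nf_not_le s1))).2,
      (P.nf_one (X := fun j => a * Y j + b) θ hN sX hX fun i => ?_).2⟩
    rw [hL]
    refine h4 ?_ i
    by_contra hc
    push Not at hc
    refine s2 ?_
    rintro _ ⟨y, hy, rfl⟩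
    show P.E d (a * y + b) ∈ _
    rw [hL]; exact hc y hy

theorem PS.nf_fwd (P : PS K) {d : ℕ} {A B : Set K} {a b : K} (h : P.Eqv d A B a b) {x : K}
    (hx : Le (P.E d) {x} A) : Le (P.E d) {a * x + b} A := by
  have := (P.le_aff d a b (hx.trans h.1)).trans h.2.2.2
  rwa [Set.image_singleton] at this

theorem PS.nf_bwd (P : PS K) {d : ℕ} {A B : Set K} {a b : K} (ha : a ≠ 0) (h : P.Eqv d A B a b)
    {x : K} (hx : Le (P.E d) {a * x + b} A) : Le (P.E d) {x} A := by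
  have h1 := hx.trans h.2.2.1
  rw [← Set.image_singleton (f := fun x => a * x + b), P.le_aff_iff d a b ha] at h1
  exact h1.trans h.2.1

/-- equivalent mode -/
theorem PS.nf_eqv [CharZero K] (P : PS K) {d J : ℕ} (hd : 1 ≤ d) (hJ : d < J) {A B C : Finset K}
    {α β b0 : K} (hα0 : α ≠ 0) (hβ0 : β ≠ 0) (hα : α ≠ 1) (hb : b0 * (α - 1) = 1)
    (hS : Spread (P.E d) J A) (hA : 0 < #A) (hB : 1 < #B) (hn : ¬ P.Gen d A)
    (eB : P.Eqv d A B α 0) (eC : P.Eqv d A C β b0) :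
    P.D α = 0 ∧ (∀ x ∈ A, P.D x = 0) ∧ ∀ y ∈ B, P.D y = 0 := by
  have hs : ∀ x, Le (P.E d) {x} A ↔ P.E d x ∈ Submodule.span K (P.E d '' A) := fun x =>
    ⟨fun h => h x rfl, fun h => by rintro _ rfl; exact h⟩
  obtain ⟨r, hr⟩ := P.shift_const d J hd hJ A hS hA hn fun x hx => by
    rw [← hs] at hx ⊢
    have e1 : x = β * (α * ((x - b0) / (α * β)) + 0) + b0 := by field_simp; ring
    rw [e1] at hx
    have h1 := P.nf_fwd eB (P.nf_fwd eC (P.nf_bwd hα0 eB (P.nf_bwd hβ0 eC hx)))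
    have e2 : α * (β * ((x - b0) / (α * β)) + b0) + 0 = x + 1 := by
      field_simp; linear_combination hb
    rwa [e2] at h1
  have hy : ∀ y ∈ B, P.D y = r ∧ α * r + y * P.D α = r := fun y hy => by
    have h1 : P.D y = r := hr y (eB.2.1 y hy)
    have h2 := hr _ (eB.2.2.2 (α * y + 0) ⟨y, hy, rfl⟩)
    rw [add_zero, P.D_mul, h1] at h2
    exact ⟨h1, h2⟩
  obtain ⟨y, hy1, y', hy2, hne⟩ := one_lt_card.mp hB
  have h1 : P.D α = 0 := by
    have : (y - y') * P.D α = 0 := by linear_combination (hy y hy1).2 - (hy y' hy2).2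
    exact (mul_eq_zero.mp this).resolve_left (sub_ne_zero.mpr hne)
  have h2 : r = 0 := by
    have : (α - 1) * r = 0 := by linear_combination (hy y hy1).2 - y * h1
    exact (mul_eq_zero.mp this).resolve_left (sub_ne_zero.mpr hα)
  exact ⟨h1, fun x hx => (hr x (Submodule.subset_span ⟨x, hx, rfl⟩)).trans h2,
    fun y hy' => (hy y hy').1.trans h2⟩

end Pool.Agent.Lib.MP_e5111b_co.FG
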