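import Pool.Agent.Lib.MP_e5111b_co.FG.Core
import Pool.Agent.Lib.MP_e5111b_co.FG.NfA

namespace Pool.Agent.Lib.MP_e5111b_co.FG

open Finset

theorem nf_out {K : Type} [Field K] (P : PS K) {m M : ℕ} (h8 : 2 * M ≤ m) {A : Finset K}
    {X : Fin m → K} (hX : Function.Injective X) (hA : ∀ i, X i ∈ A)
    (hD : ∃ Z : Finset (Fin m), m ≤ 2 * #Z ∧ ∀ i ∈ Z, P.D (X i) = 0) :
    ∃ A0 ⊆ A, M ≤ #A0 ∧ ∀ x ∈ A0, P.D x = 0 := by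
  classical
  obtain ⟨Z, h1, h2⟩ := hD
  refine ⟨Z.image X, fun x hx => ?_, ?_, fun x hx => ?_⟩
  · obtain ⟨i, -, rfl⟩ := mem_image.mp hx
    exact hA i
  · rw [card_image_of_injective _ hX]; omega
  · obtain ⟨i, hi, rfl⟩ := mem_image.mp hx
    exact h2 i hi

theorem nf (Q : ℕ) : ∃ d J L : ℕ, ∀ (K : Type) [Field K] [CharZero K] (P : PS K), P.R ≤ Q →
    #P.U ≤ Q → ∀ (α β b0 : K)
    (A B C : Finset K), α ≠ 1 → b0 * (α - 1) = 1 → PS.Sq (A : Set K) B α 0 →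
    PS.Sq (A : Set K) C β b0 → (∀ s, P.bad s → s ∉ P.U → P.w s α ≠ 0 ∨ P.w s (α - 1) ≠ 0) →
    Spread (P.E d) J A → Spread (P.E d) J B → Spread (P.E d) J C → L ≤ #A → L ≤ #B → L ≤ #C →
    (P.Gen d A ∨ (P.Sep d A B α 0 ∧ P.Sep d A C β b0) ∨
      (¬ P.Gen d A ∧ P.Eqv d A B α 0 ∧ P.Eqv d A C β b0)) →
    P.D α = 0 ∧ (∃ A0 ⊆ A, 8 + 5 * (Q * Q) ≤ #A0 ∧ ∀ x ∈ A0, P.D x = 0) ∧
      ∃ B0 ⊆ B, 8 + 5 * (Q * Q) ≤ #B0 ∧ ∀ y ∈ B0, P.D y = 0 := by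
  obtain ⟨W, hW⟩ : ∃ W, W = 16 * (Q * Q) := ⟨_, rfl⟩
  obtain ⟨M, hM⟩ : ∃ M, M = 8 + 5 * (Q * Q) := ⟨_, rfl⟩
  rw [← hM]
  obtain ⟨j1, hj1, hk1⟩ := nf_j (16 * W)
  obtain ⟨j2, hj2, hk2⟩ := nf_j (266240 * W * (2 * j1 ^ 2) ^ 3)
  obtain ⟨m, θ1, θ2, m1, m2, m3, m4, -, m8⟩ :=
    nf_m W (2 * j1 ^ 2) (2 * j2 ^ 2) 1 (2 * M) (by nlinarith) (by nlinarith) le_rfl
  obtain ⟨d, hd⟩ : ∃ d, d = 4 * j1 + 4 * j2 := ⟨_, rfl⟩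
  obtain ⟨γ, hγ⟩ : ∃ γ, γ = d * (3 ^ d + 1) := ⟨_, rfl⟩
  obtain ⟨k1, e1, p1⟩ : ∃ k1, 16 * W * (36 + 104 * γ) ≤ k1 ∧ 1 ≤ k1 :=
    ⟨_ + 1, Nat.le_succ _, Nat.le_add_left _ _⟩
  obtain ⟨k2, e2, p2⟩ : ∃ k2, 266240 * W * k1 ^ 3 * (36 + 104 * γ) ≤ k2 ∧ 1 ≤ k2 :=
    ⟨_ + 1, Nat.le_succ _, Nat.le_add_left _ _⟩
  obtain ⟨n, η1, η2, n1, n2, n3, n4, n5, n8⟩ :=
    nf_m W k1 k2 (3 ^ d + 1) (2 * M) p1 p2 (Nat.le_add_left _ _)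
  obtain ⟨J, J1, J2, J3⟩ : ∃ J, 2 * (8 * 2 ^ m) * 2 ^ m ≤ J ∧ 2 * 5 * 2 ^ n ≤ J ∧ d < J :=
    ⟨2 * (8 * 2 ^ m) * 2 ^ m + 2 * 5 * 2 ^ n + d + 1, by
      generalize 2 * (8 * 2 ^ m) * 2 ^ m = u
      generalize 2 * 5 * 2 ^ n = v
      omega⟩
  refine ⟨d, J, 2 * m + 2 * n,
    fun K _ _ P hR hU α β b0 A B C hα hb sB sC hbad SA SB SC LA LB LC H => ?_⟩
  rcases H with H | ⟨HB, HC⟩ | ⟨H, HB, HC⟩
  · obtain ⟨Y, hY, hYB⟩ := nf_pick (m := m) B (by omega)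
    obtain ⟨Z, hZ, hZC⟩ := nf_pick (m := m) C (by omega)
    obtain ⟨X, hX, hXA, hs⟩ := P.nf_sel_gen H SA (by omega) (by omega) hj1 hj2 m1 m2 J1
      (by omega) ![Y, fun j => α * Y j + 0, Z, fun j => β * Z j + b0]
    obtain ⟨c1, c2, c3⟩ := P.core hR hU X Y Z hX hY hZ α β b0 hα hb
      (sB.mono (Set.range_subset_iff.mpr hXA) (Set.range_subset_iff.mpr hYB))
      (sC.mono (Set.range_subset_iff.mpr hXA) (Set.range_subset_iff.mpr hZC)) hbad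
      W _ _ θ1 θ2 _ _ hW m1 m2 m3 hk1 hk2 m4 (by
        rintro _ (rfl | rfl | rfl | rfl)
        exacts [hs 0, hs 1, hs 2, hs 3])
    exact ⟨c1, nf_out P m8 hX hXA c2, nf_out P m8 hY hYB c3⟩
  · obtain ⟨L1, hL1⟩ := P.E_aff d α 0
    obtain ⟨L2, hL2⟩ := P.E_aff d β b0
    obtain ⟨X, hX, hXA, sX, uX⟩ := P.nf_sel (m := n) SA J2 (by omega)
      ![Submodule.span K (P.E d '' B), Submodule.span K (P.E d '' ((fun y => α * y + 0) '' B)),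
        Submodule.span K (P.E d '' C), Submodule.span K (P.E d '' ((fun y => β * y + b0) '' C))]
    obtain ⟨Y, hY, hYB, sY, uY⟩ := P.nf_sel (m := n) SB J2 (by omega)
      ![Submodule.span K (P.E d '' A), (Submodule.span K (P.E d '' A)).comap L1, ⊥, ⊥]
    obtain ⟨Z, hZ, hZC, sZ, uZ⟩ := P.nf_sel (m := n) SC J2 (by omega)
      ![Submodule.span K (P.E d '' A), (Submodule.span K (P.E d '' A)).comap L2, ⊥, ⊥]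
    have qB := fun θ => P.nf_pair θ n5 HB hXA hYB sX sY L1 hL1 (uX 0) (uX 1) (uY 0) (uY 1)
    have qC := fun θ => P.nf_pair θ n5 HC hXA hZC sX sZ L2 hL2 (uX 2) (uX 3) (uZ 0) (uZ 1)
    rw [← hγ] at qB qC
    obtain ⟨c1, c2, c3⟩ := P.core hR hU X Y Z hX hY hZ α β b0 hα hb
      (sB.mono (Set.range_subset_iff.mpr hXA) (Set.range_subset_iff.mpr hYB))
      (sC.mono (Set.range_subset_iff.mpr hXA) (Set.range_subset_iff.mpr hZC)) hbad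
      W k1 k2 η1 η2 γ γ hW n1 n2 n3 e1 e2 n4 (by
        rintro _ (rfl | rfl | rfl | rfl)
        exacts [⟨(qB _).1, (qB _).1⟩, ⟨(qB _).2, (qB _).2⟩, ⟨(qC _).1, (qC _).1⟩,
          ⟨(qC _).2, (qC _).2⟩])
    exact ⟨c1, nf_out P n8 hX hXA c2, nf_out P n8 hY hYB c3⟩
  · obtain ⟨c1, c2, c3⟩ := P.nf_eqv (by omega) J3 sB.a0 sC.a0 hα hb SA (by omega) (by omega)
      H HB HC
    exact ⟨c1, ⟨A, subset_rfl, by omega, c2⟩, ⟨B, subset_rfl, by omega, c3⟩⟩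

end Pool.Agent.Lib.MP_e5111b_co.FG
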