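import Pool.Agent.Lib.MP_e5111b_co.FG.Laur

/-! Hensel factorisation and the theorem of Newton and Puiseux, with a uniform exponent. -/

namespace Pool.Agent.Lib.MP_e5111b_co.FG

open Polynomial

/-- A root of the reduction of multiplicity `k` gives a monic factor of degree `k`. -/
theorem pu_hensel {f : (PowerSeries ℂ)[X]} (hf : f.Monic) (a : ℂ) : ∃ g : (PowerSeries ℂ)[X],
    g.Monic ∧ g.natDegree = rootMultiplicity a (f.map PowerSeries.constantCoeff) ∧ g ∣ f := by
  have hc : IsAdicComplete (IsLocalRing.maximalIdeal (PowerSeries ℂ)) (PowerSeries ℂ) := by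
    rw [PowerSeries.maximalIdeal_eq_span_X]; infer_instance
  set F := taylor (PowerSeries.C a) f with hF
  have hFm : F.Monic := by rw [Monic, hF, leadingCoeff_taylor, hf.leadingCoeff]
  have h0 : (F : PowerSeries (PowerSeries ℂ)).map (IsLocalRing.residue _) ≠ 0 := by
    rw [← polynomial_map_coe]
    exact_mod_cast (hFm.map _).ne_zero
  obtain ⟨g, h, H⟩ := PowerSeries.exists_isWeierstrassFactorization h0
  have hg := H.isDistinguishedAt.monic
  have hd : g ∣ F := by
    rw [← modByMonic_eq_zero_iff_dvd hg]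
    have h1 : g.natDegree = _ := congr(ENat.toNat
      $(H.isDistinguishedAt.coe_natDegree_eq_order_map g 1
        (by rw [map_one]; exact (Ideal.ne_top_iff_one _).mp (Ideal.IsMaximal.ne_top inferInstance))
        (by simp)))
    have h2 : (g.natDegree : WithBot ℕ) = g.degree := (degree_eq_natDegree hg.ne_zero).symm
    refine (H.isDistinguishedAt.isWeierstrassDivisorAt'.eq_of_mul_add_eq_mul_add
      (q := (F /ₘ g : (PowerSeries ℂ)[X])) (q' := h) (r := F %ₘ g) (r' := 0) ?_ ?_ ?_).2
    · rw [← h1, h2]; exact degree_modByMonic_lt F hg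
    · simp
    · rw [← coe_mul, ← coe_add, add_comm, modByMonic_add_div, coe_zero, add_zero, H.eq_mul]
  have hmem : ∀ x : PowerSeries ℂ, IsLocalRing.residue _ x = 0 ↔
      PowerSeries.constantCoeff x = 0 := fun x => by
    rw [IsLocalRing.residue_eq_zero_iff, ← PowerSeries.ker_coeff_eq_max_ideal, RingHom.mem_ker]
  have hFc : F.map PowerSeries.constantCoeff = taylor a (f.map PowerSeries.constantCoeff) := by
    rw [hF, map_taylor, PowerSeries.constantCoeff_C]
  have hn : g.natDegree = (F.map PowerSeries.constantCoeff).natTrailingDegree := by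
    rw [H.natDegree_eq_toNat_order_map, PowerSeries.order_eq_nat.mpr ⟨?_, fun i hi => ?_⟩,
      ENat.toNat_natCast]
    · rw [PowerSeries.coeff_map, coeff_coe, Ne, hmem, ← coeff_map]
      exact mt coeff_natTrailingDegree_eq_zero.mp (hFm.map _).ne_zero
    · rw [PowerSeries.coeff_map, coeff_coe, hmem, ← coeff_map]
      exact coeff_eq_zero_of_lt_natTrailingDegree hi
  refine ⟨taylor (-PowerSeries.C a) g, ?_, ?_, ?_⟩
  · rw [Monic, leadingCoeff_taylor, hg.leadingCoeff]
  · rw [natDegree_taylor, hn, hFc, rootMultiplicity_eq_natTrailingDegree, taylor_apply]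
  · obtain ⟨q, hq⟩ := hd
    refine ⟨taylor (-PowerSeries.C a) q, ?_⟩
    rw [← taylor_mul, ← hq, hF, taylor_taylor, neg_add_cancel, taylor_zero]

theorem pu_split {f : (PowerSeries ℂ)[X]} (hf : f.Monic)
    (hs : (f.map PowerSeries.constantCoeff).Separable) : f.Splits := by
  induction hn : f.natDegree generalizing f with
  | zero => rw [eq_one_of_monic_natDegree_zero hf hn]; exact Splits.one
  | succ n ih =>
    have hm := hf.map (PowerSeries.constantCoeff (R := ℂ))
    obtain ⟨a, ha⟩ := IsAlgClosed.exists_root (f.map PowerSeries.constantCoeff) (by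
      rw [degree_eq_natDegree hm.ne_zero, hf.natDegree_map, hn]; exact_mod_cast n.succ_ne_zero)
    obtain ⟨g, g1, g2, h, g3⟩ := pu_hensel hf a
    have h1 := rootMultiplicity_le_one_of_separable hs a
    have h2 := (rootMultiplicity_pos hm.ne_zero).mpr ha
    have hh : h.Monic := g1.of_mul_monic_left (g3 ▸ hf)
    have h3 := g1.natDegree_mul hh
    rw [← g3] at h3
    rw [g3]
    refine (Splits.of_natDegree_le_one_of_monic (by omega) g1).mul (ih hh ?_ (by omega))
    rw [g3, Polynomial.map_mul] at hs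
    exact hs.of_mul_right

/-- power series as Laurent series -/
noncomputable abbrev oP : PowerSeries ℂ →+* LS := HahnSeries.ofPowerSeries ℤ ℂ

theorem pu_lift {x : LS} (hx : 0 ≤ x.order) : ∃ y, oP y = x := by
  obtain ⟨k, hk⟩ := Int.eq_ofNat_of_zero_le hx
  refine ⟨PowerSeries.X ^ k * LaurentSeries.powerSeriesPart x, ?_⟩
  rw [map_mul, HahnSeries.ofPowerSeries_X_pow, ← hk]
  exact LaurentSeries.single_order_mul_powerSeriesPart x

theorem pu_cc (y : PowerSeries ℂ) : PowerSeries.constantCoeff y = (oP y).coeff 0 := by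
  have := HahnSeries.ofPowerSeries_apply_coeff (Γ := ℤ) y 0
  rw [Nat.cast_zero] at this
  rw [this, PowerSeries.coeff_zero_eq_constantCoeff]

theorem pu_liftP {f : LS[X]} (hf : f.Monic) (h : ∀ i, 0 ≤ (f.coeff i).order) :
    ∃ F : (PowerSeries ℂ)[X], F.map oP = f ∧ F.natDegree = f.natDegree ∧ F.Monic :=
  lifts_and_natDegree_eq_and_monic ((lifts_iff_coeff_lifts f).mpr fun i => pu_lift (h i)) hf

/-- a proper factorisation -/
def Red (f : LS[X]) : Prop :=
  ∃ g h : LS[X], f = g * h ∧ g.natDegree < f.natDegree ∧ h.natDegree < f.natDegree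

theorem pu_red0 {f : LS[X]} (hf : f.Monic) (h : ∀ i, 0 ≤ (f.coeff i).order)
    (h1 : f.nextCoeff = 0) {i : ℕ} (hi : i < f.natDegree) (h2 : f.coeff i ≠ 0)
    (h3 : (f.coeff i).order = 0) : Red f := by
  obtain ⟨F, rfl, hn, hF⟩ := pu_liftP hf h
  have hm := hF.map (PowerSeries.constantCoeff (R := ℂ))
  have hd : (F.map PowerSeries.constantCoeff).natDegree = F.natDegree := hF.natDegree_map _
  obtain ⟨a, ha⟩ := IsAlgClosed.exists_root (F.map PowerSeries.constantCoeff) (by
    rw [degree_eq_natDegree hm.ne_zero, hd]; exact_mod_cast (by omega : F.natDegree ≠ 0))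
  obtain ⟨g, g1, g2, q, g3⟩ := pu_hensel hF a
  have hq : q.Monic := g1.of_mul_monic_left (g3 ▸ hF)
  have h4 := g1.natDegree_mul hq
  rw [← g3] at h4
  have h5 := (rootMultiplicity_pos hm.ne_zero).mpr ha
  have h6 : g.natDegree ≠ F.natDegree := by
    intro h6
    have h7 : F.map PowerSeries.constantCoeff = (X - C a) ^ F.natDegree :=
      eq_of_monic_of_dvd_of_natDegree_le ((monic_X_sub_C a).pow _) hm
        (by rw [← h6, g2]; exact pow_rootMultiplicity_dvd _ a) (by simp [hd])
    have h8 : (F.map PowerSeries.constantCoeff).nextCoeff = 0 := by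
      rw [nextCoeff_map_of_leadingCoeff_ne_zero _ (by simp [hF.leadingCoeff])]
      rw [nextCoeff_map HahnSeries.ofPowerSeries_injective, map_eq_zero_iff _
        HahnSeries.ofPowerSeries_injective] at h1
      rw [h1, map_zero]
    rw [h7, (monic_X_sub_C a).nextCoeff_pow, nextCoeff_X_sub_C, nsmul_eq_mul, mul_eq_zero] at h8
    have h9 : a = 0 := neg_eq_zero.mp (h8.resolve_left (by exact_mod_cast (by omega)))
    have h10 := congrArg (fun p => coeff p i) h7
    simp only [h9, map_zero, sub_zero, coeff_X_pow, coeff_map, pu_cc] at h10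
    rw [if_neg (by omega), ← coeff_map, ← h3] at h10
    exact h2 (HahnSeries.coeff_order_eq_zero.mp h10)
  refine ⟨g.map oP, q.map oP, by rw [g3, Polynomial.map_mul], ?_, ?_⟩
  · rw [g1.natDegree_map, ← hn]; omega
  · rw [hq.natDegree_map, ← hn]; omega

theorem Red.scale {f : LS[X]} {s : LS} (hs : s ≠ 0) (h : Red (f.scaleRoots s)) : Red f := by
  obtain ⟨g, q, h1, h2, h3⟩ := h
  rw [natDegree_scaleRoots] at h2 h3
  refine ⟨g.scaleRoots s⁻¹, q.scaleRoots s⁻¹, ?_, by simpa, by simpa⟩
  rw [← mul_scaleRoots_of_noZeroDivisors, ← h1, ← scaleRoots_mul, mul_inv_cancel₀ hs,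
    scaleRoots_one]

theorem Red.tay {f : LS[X]} {s : LS} (h : Red (taylor s f)) : Red f := by
  obtain ⟨g, q, h1, h2, h3⟩ := h
  rw [natDegree_taylor] at h2 h3
  refine ⟨taylor (-s) g, taylor (-s) q, ?_, by simpa, by simpa⟩
  rw [← taylor_mul, ← h1, taylor_taylor, neg_add_cancel, taylor_zero]

theorem pu_red1 {f : LS[X]} (hf : f.Monic) (hn : 2 ≤ f.natDegree) (h1 : f.nextCoeff = 0)
    (h : ∀ i < f.natDegree, ((f.natDegree - i : ℕ) : ℤ) ∣ (f.coeff i).order) : Red f := by
  classical
  by_cases h0 : ∀ i < f.natDegree, f.coeff i = 0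
  · obtain ⟨q, hq⟩ := X_dvd_iff.mpr (h0 0 (by omega))
    have hm : q.Monic := monic_X.of_mul_monic_left (hq ▸ hf)
    have := monic_X.natDegree_mul hm
    rw [← hq, natDegree_X] at this
    exact ⟨X, q, hq, by rw [natDegree_X]; omega, by omega⟩
  push Not at h0
  choose! e he using h
  obtain ⟨i, hi, hmin⟩ := Finset.exists_min_image
    ((Finset.range f.natDegree).filter fun i => f.coeff i ≠ 0) e (by
      obtain ⟨i, h2, h3⟩ := h0
      exact ⟨i, by simp [h2, h3]⟩)
  rw [Finset.mem_filter, Finset.mem_range] at hi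
  have s0 : (HahnSeries.single (-e i) 1 : LS) ≠ 0 := HahnSeries.single_ne_zero one_ne_zero
  have ho : ∀ j < f.natDegree, f.coeff j ≠ 0 →
      ((f.scaleRoots (HahnSeries.single (-e i) 1)).coeff j).order =
        (f.natDegree - j : ℕ) * (e j - e i) := fun j hj h2 => by
    rw [coeff_scaleRoots, ord_mul h2 (pow_ne_zero _ s0), HahnSeries.order_pow,
      HahnSeries.order_single one_ne_zero, he j hj, nsmul_eq_mul]; ring
  refine Red.scale s0 (pu_red0 ((monic_scaleRoots_iff _).mpr hf) (fun j => ?_) ?_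
    (i := i) (by simpa using hi.1) ?_ (by rw [ho i hi.1 hi.2]; ring))
  · by_cases h2 : f.coeff j = 0
    · simp [coeff_scaleRoots, h2]
    rcases lt_or_eq_of_le (le_natDegree_of_ne_zero h2) with h3 | h3
    · rw [ho j h3 h2]
      exact mul_nonneg (Int.natCast_nonneg _) (sub_nonneg.mpr (hmin j (by simp [h2, h3])))
    · simp [h3, hf.coeff_natDegree]
  · rw [nextCoeff_of_natDegree_pos (by omega)] at h1
    rw [nextCoeff_of_natDegree_pos (by rw [natDegree_scaleRoots]; omega), natDegree_scaleRoots,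
      coeff_scaleRoots, h1, zero_mul]
  · rw [coeff_scaleRoots]; exact mul_ne_zero hi.2 (pow_ne_zero _ s0)

/-- `ψ` behaves like the substitution `τ ↦ τ ^ N`. -/
structure Sub (N : ℕ) (ψ : LS →+* LS) : Prop where
  pos : 0 < N
  ord : ∀ x, (ψ x).order = N * x.order
  th : ∀ x, th (ψ x) = N * ψ (th x)
  C : ∀ a, ψ (HahnSeries.C a) = HahnSeries.C a

theorem Sub.comp {N M : ℕ} {ψ χ : LS →+* LS} (h : Sub N ψ) (k : Sub M χ) :
    Sub (N * M) (ψ.comp χ) where
  pos := mul_pos h.pos k.pos
  ord x := by rw [RingHom.comp_apply, h.ord, k.ord]; push_cast; ring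
  th x := by
    rw [RingHom.comp_apply, h.th, k.th, map_mul, map_natCast, RingHom.comp_apply]; push_cast; ring
  C a := by rw [RingHom.comp_apply, k.C, h.C]

theorem exists_sub {N : ℕ} (hN : 0 < N) : ∃ ψ, Sub N ψ := by
  have hN' : (0 : ℤ) < N := by exact_mod_cast hN
  let ψ : LS →+* LS := HahnSeries.embDomainRingHom ((N : ℤ) • AddMonoidHom.id ℤ)
    (fun a b h => mul_left_cancel₀ hN'.ne' h) fun a b => mul_le_mul_iff_right₀ hN'
  have c1 : ∀ (x : LS) (n : ℤ), (ψ x).coeff (N * n) = x.coeff n := fun x n =>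
    HahnSeries.embDomain_coeff (a := n)
  have c2 : ∀ (x : LS) (n : ℤ), ¬ (N : ℤ) ∣ n → (ψ x).coeff n = 0 := fun x n h => by
    refine HahnSeries.embDomain_of_notMem_range ?_
    rintro ⟨k, hk⟩
    exact h ⟨k, hk.symm⟩
  refine ⟨ψ, hN, fun x => ?_, fun x => ?_, fun a => HahnSeries.embDomainRingHom_C⟩
  · by_cases hx : x = 0
    · simp [hx]
    apply le_antisymm
    · apply HahnSeries.order_le_of_coeff_ne_zero
      rw [c1]; exact fun h => hx (HahnSeries.coeff_order_eq_zero.mp h)
    · rw [HahnSeries.le_order_iff_forall ((map_ne_zero ψ).mpr hx)]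
      intro j hj
      by_cases he : (N : ℤ) ∣ j
      · obtain ⟨k, rfl⟩ := he
        rw [c1]
        exact HahnSeries.coeff_eq_zero_of_lt_order (lt_of_mul_lt_mul_left hj hN'.le)
      · exact c2 x j he
  · ext j
    have : (N : LS) = HahnSeries.C (N : ℂ) := by rw [map_natCast]
    rw [this, HahnSeries.C_mul_eq_smul, HahnSeries.coeff_smul, th_coeff, smul_eq_mul]
    by_cases he : (N : ℤ) ∣ j
    · obtain ⟨k, rfl⟩ := he
      rw [c1, c1, th_coeff]; push_cast; ring
    · rw [c2 _ j he, c2 _ j he, mul_zero, mul_zero]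

theorem pu_red {f : LS[X]} (hf : f.Monic) (hn : 2 ≤ f.natDegree) {ψ : LS →+* LS}
    (h : Sub f.natDegree.factorial ψ) : Red (f.map ψ) := by
  have : CharZero LS := algebraRat.charZero LS
  have h0 : (f.natDegree : LS) ≠ 0 := by exact_mod_cast (by omega : f.natDegree ≠ 0)
  obtain ⟨b, hb⟩ : ∃ b : LS, b = -f.nextCoeff / f.natDegree := ⟨_, rfl⟩
  have hm : (taylor b f).Monic := by rw [Monic, leadingCoeff_taylor, hf.leadingCoeff]
  have h1 : (taylor b f).nextCoeff = 0 := by
    obtain ⟨k, hk⟩ : ∃ k, f.natDegree = k + 1 := ⟨f.natDegree - 1, by omega⟩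
    rw [nextCoeff_of_natDegree_pos (by rw [natDegree_taylor]; omega), natDegree_taylor,
      taylor_coeff, eval_eq_sum_range' (n := 2) (by
        have := natDegree_hasseDeriv_le f (f.natDegree - 1)
        omega)]
    simp only [Finset.sum_range_succ, Finset.range_zero, Finset.sum_empty, hasseDeriv_coeff]
    have e1 : 1 + (f.natDegree - 1) = f.natDegree := by omega
    rw [e1, hf.coeff_natDegree, zero_add, zero_add, Nat.choose_self, hb,
      nextCoeff_of_natDegree_pos (by omega)]
    have e2 : f.natDegree.choose (f.natDegree - 1) = f.natDegree := by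
      rw [Nat.choose_symm (by omega), Nat.choose_one_right]
    rw [e2]; field_simp; simp
  apply Red.tay (s := ψ b)
  rw [← map_taylor]
  have hd : ((taylor b f).map ψ).natDegree = f.natDegree := by
    rw [hm.natDegree_map, natDegree_taylor]
  refine pu_red1 (hm.map ψ) (by omega) (by rw [nextCoeff_map ψ.injective, h1, map_zero])
    fun i hi => ?_
  rw [coeff_map, h.ord, hd]
  exact Dvd.dvd.mul_right (Int.natCast_dvd_natCast.mpr
    (Nat.dvd_factorial (by omega) (Nat.sub_le _ _))) _

/-- Newton and Puiseux: one substitution splits all polynomials of degree at most `n`. -/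
theorem puiseux (n : ℕ) : ∃ N ψ, Sub N ψ ∧ ∀ f : LS[X], f.natDegree ≤ n → (f.map ψ).Splits := by
  induction n with
  | zero =>
    obtain ⟨ψ, h⟩ := exists_sub one_pos
    exact ⟨1, ψ, h, fun f hf =>
      Splits.of_natDegree_le_one (natDegree_map_le.trans (by omega))⟩
  | succ n ih =>
    obtain ⟨N, ψ, h, H⟩ := ih
    obtain ⟨χ, k⟩ := exists_sub (n + 1).factorial_pos
    refine ⟨_, _, h.comp k, fun f hf => ?_⟩
    rw [← map_map]
    rcases lt_or_eq_of_le hf with h1 | h1
    · exact H _ (natDegree_map_le.trans (by omega))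
    by_cases h2 : f.natDegree ≤ 1
    · exact Splits.of_natDegree_le_one (natDegree_map_le.trans (natDegree_map_le.trans h2))
    have h0 : f ≠ 0 := by rintro rfl; simp at h2
    have hm := monic_mul_leadingCoeff_inv h0
    have hd := natDegree_mul_leadingCoeff_inv f h0
    obtain ⟨g, q, e, g1, q1⟩ := pu_red hm (by omega) (by rwa [hd, h1])
    rw [hm.natDegree_map, hd, h1] at g1 q1
    have e2 : f = f * C f.leadingCoeff⁻¹ * C f.leadingCoeff := by
      rw [mul_assoc, ← C_mul, inv_mul_cancel₀ (leadingCoeff_ne_zero.mpr h0), C_1, mul_one]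
    rw [e2, Polynomial.map_mul, e, Polynomial.map_mul, Polynomial.map_mul, map_C, map_C]
    exact ((H g (by omega)).mul (H q (by omega))).mul (Splits.C _)

end Pool.Agent.Lib.MP_e5111b_co.FG
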