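import Pool.Agent.Lib.MP_e5111b_co.FG.Det
import Pool.Agent.Lib.MP_e5111b_co.FG.Comb

namespace Pool.Agent.Lib.MP_e5111b_co.FG

open Finset

theorem small_pow (m n k : ℕ) (h : n ≤ m) :
    ((m : ℤ) - n) ^ k * (m + k * n) ≤ (m : ℤ) ^ (k + 1) := by
  have h0 : (0 : ℤ) ≤ (m : ℤ) - n := by omega
  induction k with
  | zero => simp
  | succ k ih =>
    have h1 : ((m : ℤ) - n) * (m + (k + 1 : ℕ) * n) ≤ (m + k * n) * m := by
      push_cast
      nlinarith [mul_nonneg (Int.natCast_nonneg k) (mul_self_nonneg (n : ℤ)),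
        mul_self_nonneg (n : ℤ)]
    calc ((m : ℤ) - n) ^ (k + 1) * (m + (k + 1 : ℕ) * n)
        = ((m : ℤ) - n) ^ k * (((m : ℤ) - n) * (m + (k + 1 : ℕ) * n)) := by ring
      _ ≤ ((m : ℤ) - n) ^ k * ((m + k * n) * m) := mul_le_mul_of_nonneg_left h1 (pow_nonneg h0 k)
      _ = ((m : ℤ) - n) ^ k * (m + k * n) * m := by ring
      _ ≤ (m : ℤ) ^ (k + 1) * m := mul_le_mul_of_nonneg_right ih (Int.natCast_nonneg m)
      _ = (m : ℤ) ^ (k + 1 + 1) := by ring

open Classical in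
/-- tuples that meet a small set -/
theorem small_hit {m k : ℕ} (A : Finset (Fin m)) (h : k * #A ≤ m) (hk : 1 ≤ k) :
    (k : ℤ) * #A * (m : ℤ) ^ k ≤
      2 * m * ∑ R : Fin k → Fin m, if ∃ t, R t ∈ A then (1 : ℤ) else 0 := by
  have h1 : ∑ R : Fin k → Fin m, (if ∃ t, R t ∈ A then (1 : ℤ) else 0) =
      (m : ℤ) ^ k - ((m : ℤ) - #A) ^ k := by
    have h2 : #{R : Fin k → Fin m | ¬ ∃ t, R t ∈ A} = (m - #A) ^ k := by
      rw [show ({R : Fin k → Fin m | ¬ ∃ t, R t ∈ A} : Finset _) =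
        Fintype.piFinset fun _ => Aᶜ by ext R; simp, Fintype.card_piFinset]
      simp [card_compl]
    have h3 := card_filter_add_card_filter_not (s := (univ : Finset (Fin k → Fin m)))
      fun R => ∃ t, R t ∈ A
    rw [h2, card_univ, Fintype.card_fun, Fintype.card_fin, Fintype.card_fin] at h3
    have h4 : #A ≤ m := by simpa using card_le_univ A
    rw [sum_boole, eq_sub_iff_add_eq, ← Nat.cast_sub h4]
    exact_mod_cast h3
  have h4 : #A ≤ m := by simpa using card_le_univ A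
  have h5 := small_pow m #A k h4
  have h6 : ((k : ℤ) * #A) ≤ m := by exact_mod_cast h
  have h7 : (0 : ℤ) ≤ k * #A := by positivity
  have h8 : ((m : ℤ) - #A) ^ k ≤ (m : ℤ) ^ k :=
    pow_le_pow_left₀ (by omega) (by omega) k
  rw [h1]
  generalize ((m : ℤ) - #A) ^ k = u at h5 h8
  rw [pow_succ] at h5
  generalize (m : ℤ) ^ k = v at h5 h8
  generalize (k : ℤ) * #A = c at h5 h6 h7
  nlinarith [mul_nonneg (sub_nonneg.2 h6) (sub_nonneg.2 h8)]

theorem small_tup {m k : ℕ} (f : Fin m → ℤ) :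
    (m : ℤ) * ∑ R : Fin k → Fin m, ∑ t, f (R t) = k * (m : ℤ) ^ k * ∑ j, f j := by
  induction k with
  | zero => simp
  | succ k ih =>
    rw [← (Fin.consEquiv fun _ => Fin m).sum_comp, Fintype.sum_prod_type]
    simp only [Fin.consEquiv_apply, Fin.sum_univ_succ, Fin.cons_zero, Fin.cons_succ,
      sum_add_distrib, sum_const, card_univ, Fintype.card_fun, Fintype.card_fin, nsmul_eq_mul,
      ← mul_sum]
    push_cast
    rw [mul_add, ih]
    ring

namespace PS

variable {K : Type} [Field K] (P : PS K) {m : ℕ}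

open Classical in
/-- the determinant bound, counted by levels -/
theorem small_lev {M : Type} [Fintype M] (d : ℕ) (e : K → M → K) (he : P.Mon d e) {ι κ : Type}
    (Z : Finset ι) (X : ι → K) (R : Finset κ) (Y : κ → K)
    (hind : IndMod (Submodule.span K (e '' (Y '' R))) Z fun i => e (X i)) (Q : Set K)
    (hQ : ∀ q ∈ Q, e q ∈ Submodule.span K (e '' (Y '' R))) (L : Finset (P.σ × ℤ))
    (hL : ∀ p ∈ L, P.rho p.1 < p.2) :
    ∑ i ∈ Z, ∑ p ∈ L, (if ∃ q ∈ Q, P.rel p (X i) q then (1 : ℤ) else 0) ≤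
      d * (∑ i ∈ Z, P.ck (X i) + ∑ j ∈ R, P.ck (Y j)) := by
  have h := P.det d e he Z X R Y hind
    (fun s i => #{p ∈ {p ∈ L | ∃ q ∈ Q, P.rel p (X i) q} | p.1 = s})
    (fun s i _ => ⟨Int.natCast_nonneg _, ?_⟩) (L.image Prod.fst)
  · refine le_trans (le_of_eq ?_) h
    rw [sum_comm (s := L.image Prod.fst)]
    refine sum_congr rfl fun i _ => ?_
    rw [sum_boole, ← Nat.cast_sum, Nat.cast_inj]
    exact card_eq_sum_card_fiberwise (f := Prod.fst)
      fun p hp => mem_coe.2 (mem_image_of_mem _ (mem_filter.1 hp).1)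
  · generalize hF : ({p ∈ {p ∈ L | ∃ q ∈ Q, P.rel p (X i) q} | p.1 = s} : Finset _) = F
    rcases F.eq_empty_or_nonempty with rfl | hne
    · exact Or.inl rfl
    obtain ⟨p, hp, hmax⟩ := exists_max_image F Prod.snd hne
    have mem : ∀ p ∈ F, p ∈ L ∧ (∃ q ∈ Q, P.rel p (X i) q) ∧ p.1 = s := fun p hp => by
      rw [← hF, mem_filter, mem_filter] at hp
      exact ⟨hp.1.1, hp.1.2, hp.2⟩
    obtain ⟨h1, ⟨q, hq, h2⟩, rfl⟩ := mem p hp
    refine Or.inr ⟨q, hQ q hq, ge.mono (P := P) h2 ?_⟩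
    have h3 : #F ≤ #(Ioc (P.rho p.1) p.2) := card_le_card_of_injOn Prod.snd
      (fun a ha => mem_coe.2 (mem_Ioc.2 ⟨(mem a ha).2.2 ▸ hL a (mem a ha).1, hmax a ha⟩))
      fun a ha b hb e => Prod.ext ((mem a ha).2.2.trans (mem b hb).2.2.symm) e
    rw [Int.card_Ioc] at h3
    have := hL p h1
    omega

theorem sm_gen {M : Type} [Fintype M] (d : ℕ) (e : K → M → K) (he : P.Mon d e)
    (X Y : Fin m → K) (k θ : ℕ) (hm : m = k * θ) (hk : 1 ≤ k)
    (hind : ∀ R : Finset (Fin m), #R ≤ k → ∀ Z : Finset (Fin m), #Z = k →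
      IndMod (Submodule.span K (e '' (Y '' R))) Z fun i => e (X i)) :
    P.Sm2 θ X Y ((2 * d : ℕ) * θ * (∑ i, P.ck (X i) + ∑ j, P.ck (Y j))) := by
  classical
  intro L hL
  rcases Nat.eq_zero_or_pos m with rfl | m0
  · simp [sm]
  have h1 : ∀ R : Fin k → Fin m,
      ∑ i, ∑ p ∈ L, (if ∃ t, P.rel p (X i) (Y (R t)) then (1 : ℤ) else 0) ≤
        d * ∑ i, P.ck (X i) + θ * d * ∑ t, P.ck (Y (R t)) := fun R => by
    have h2 := block_sum hm (fun i => ∑ p ∈ L, (if ∃ t, P.rel p (X i) (Y (R t)) then (1 : ℤ) else 0)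
      - d * P.ck (X i)) (d * ∑ t, P.ck (Y (R t))) fun Z hZ => by
        have h3 := P.small_lev d e he Z X (univ.image R) Y
          (hind _ (card_image_le.trans (by simp)) Z hZ) (Set.range fun t => Y (R t))
          (by
            rintro _ ⟨t, rfl⟩
            exact Submodule.subset_span ⟨_, ⟨R t, by simp, rfl⟩, rfl⟩) L hL
        have h4 : ∑ j ∈ univ.image R, P.ck (Y j) ≤ ∑ t, P.ck (Y (R t)) :=
          sum_image_le_of_nonneg fun j _ => P.ck_nonneg _
        have h5 := mul_le_mul_of_nonneg_left h4 (Int.natCast_nonneg d)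
        simp only [Set.exists_range_iff] at h3
        rw [sum_sub_distrib, ← mul_sum]
        rw [mul_add] at h3
        linarith
    rw [sum_sub_distrib, ← mul_sum] at h2
    linarith
  have h2 : ∀ p i, (k : ℤ) * (m : ℤ) ^ k * ∑ j, (if P.rel p (X i) (Y j) ∧
      cnt (P.rel p) X (X i) ≤ θ ∧ cnt (P.rel p) Y (X i) ≤ θ then (1 : ℤ) else 0) ≤
      2 * m * ∑ R : Fin k → Fin m, if ∃ t, P.rel p (X i) (Y (R t)) then (1 : ℤ) else 0 := by
    intro p i
    by_cases h : cnt (P.rel p) X (X i) ≤ θ ∧ cnt (P.rel p) Y (X i) ≤ θ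
    · have h3 : cnt (P.rel p) Y (X i) = #{j | P.rel p (X i) (Y j)} := by
        rw [cnt, sum_boole]
        congr 2
        ext j
        simp only [mem_filter, mem_univ, true_and]
        exact ⟨(P.rel_equiv p).symm, (P.rel_equiv p).symm⟩
      have h4 := small_hit {j | P.rel p (X i) (Y j)} (k := k) (by
        have := h.2
        rw [h3] at this
        exact (Nat.mul_le_mul_left k (by exact_mod_cast this)).trans hm.ge) hk
      simp only [h, and_true, sum_boole, mem_filter, mem_univ, true_and] at h4 ⊢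
      refine le_trans (le_of_eq (by ring)) (h4.trans (le_of_eq ?_))
      congr
    · simp only [h, and_false, if_false, sum_const_zero, mul_zero]
      exact mul_nonneg (by omega) (sum_nonneg fun R _ => by split_ifs <;> omega)
  have h3 : (k : ℤ) * (m : ℤ) ^ k * ∑ p ∈ L, sm (P.rel p) θ X Y ≤ 2 * m * ∑ R : Fin k → Fin m,
      ∑ i, ∑ p ∈ L, (if ∃ t, P.rel p (X i) (Y (R t)) then (1 : ℤ) else 0) := by
    rw [sum_comm (s := (univ : Finset (Fin k → Fin m))), mul_sum, mul_sum]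
    simp only [sm, mul_sum (s := (univ : Finset (Fin m)))]
    rw [sum_comm]
    refine sum_le_sum fun i _ => ?_
    rw [sum_comm (s := (univ : Finset (Fin k → Fin m))), mul_sum]
    refine sum_le_sum fun p _ => ?_
    rw [← mul_sum]
    convert h2 p i
  have h4 := mul_le_mul_of_nonneg_left (sum_le_sum fun R (_ : R ∈ univ) => h1 R)
    (show (0 : ℤ) ≤ 2 * m by omega)
  have h5 := small_tup (k := k) fun j => P.ck (Y j)
  rw [sum_add_distrib, sum_const, card_univ, Fintype.card_fun, Fintype.card_fin, Fintype.card_fin,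
    nsmul_eq_mul, ← mul_sum] at h4
  have h6 : (0 : ℤ) < (k : ℤ) * (m : ℤ) ^ k := by positivity
  refine le_of_mul_le_mul_left (h3.trans (h4.trans (le_of_eq ?_))) h6
  have h7 : (m : ℤ) = k * θ := by exact_mod_cast hm
  push_cast
  linear_combination (2 * θ * d : ℤ) * h5 + 2 * (m : ℤ) ^ k * d * (∑ i, P.ck (X i)) * h7

theorem sm_one {M : Type} [Fintype M] (d : ℕ) (e : K → M → K) (he : P.Mon d e)
    (X Y : Fin m → K) (N θ : ℕ) (hN : N ∣ m) (hN1 : 1 ≤ N)
    (h1 : ∀ i, e (X i) ∉ Submodule.span K (e '' Set.range Y))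
    (h2 : ∀ R : Finset (Fin m), #R = N → ∀ j, e (Y j) ∈ Submodule.span K (e '' (Y '' R))) :
    P.Sm2 θ X Y ((d * N : ℕ) * θ * (∑ i, P.ck (X i) + ∑ j, P.ck (Y j))) := by
  classical
  intro L hL
  rcases Nat.eq_zero_or_pos m with rfl | m0
  · simp [sm]
  obtain ⟨u, hu⟩ := hN
  obtain ⟨R, hR, hmin⟩ := exists_min_image (powersetCard N (univ : Finset (Fin m)))
    (fun R => ∑ j ∈ R, P.ck (Y j))
    (powersetCard_nonempty.2 (by simpa using Nat.le_of_dvd m0 ⟨u, hu⟩))
  have h3 := block_sum hu (fun j => -P.ck (Y j)) (-∑ j ∈ R, P.ck (Y j)) fun Z hZ => by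
    rw [sum_neg_distrib]
    exact neg_le_neg (hmin Z (mem_powersetCard.2 ⟨subset_univ _, hZ⟩))
  rw [sum_neg_distrib] at h3
  have h4 : ∀ i, ∑ p ∈ L, (if ∃ j, P.rel p (X i) (Y j) then (1 : ℤ) else 0) ≤
      d * (P.ck (X i) + ∑ j ∈ R, P.ck (Y j)) := fun i => by
    have h5 := P.small_lev d e he {i} X R Y (fun c hc j hj => by
        rw [sum_singleton] at hc
        rw [mem_singleton.1 hj]
        by_contra c0
        exact h1 i (Submodule.span_mono (Set.image_mono (Set.image_subset_range _ _))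
          ((Submodule.smul_mem_iff _ c0).1 hc))) (Set.range Y)
      (by
        rintro _ ⟨j, rfl⟩
        exact h2 R (mem_powersetCard.1 hR).2 j) L hL
    simpa only [sum_singleton, Set.exists_range_iff] using h5
  have h5 : ∀ p i, ∑ j, (if P.rel p (X i) (Y j) ∧ cnt (P.rel p) X (X i) ≤ θ ∧
      cnt (P.rel p) Y (X i) ≤ θ then (1 : ℤ) else 0) ≤
      θ * if ∃ j, P.rel p (X i) (Y j) then (1 : ℤ) else 0 := fun p i => by
    by_cases h : ∃ j, P.rel p (X i) (Y j)
    · rw [if_pos h, mul_one]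
      by_cases h' : cnt (P.rel p) Y (X i) ≤ θ
      · refine le_trans (sum_le_sum fun j _ => ?_) h'
        split_ifs with h6 h7
        · exact le_rfl
        · exact absurd ((P.rel_equiv p).symm h6.1) h7
        · exact zero_le_one
        · exact le_rfl
      · simp [h']
    · simp [not_exists.1 h]
  have h6 : ∑ p ∈ L, sm (P.rel p) θ X Y ≤ θ * ∑ i, d * (P.ck (X i) + ∑ j ∈ R, P.ck (Y j)) := by
    simp only [sm]
    rw [sum_comm, mul_sum]
    refine sum_le_sum fun i _ => le_trans ?_ (mul_le_mul_of_nonneg_left (h4 i) (by omega))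
    rw [mul_sum]
    exact sum_le_sum fun p _ => by convert h5 p i
  rw [← mul_sum, sum_add_distrib, sum_const, card_univ, Fintype.card_fin, nsmul_eq_mul] at h6
  have h7 : (m : ℤ) = N * u := by exact_mod_cast hu
  have h8 : 0 ≤ ∑ i, P.ck (X i) := sum_nonneg fun i _ => P.ck_nonneg _
  have h9 : ∑ i, P.ck (X i) + m * ∑ j ∈ R, P.ck (Y j) ≤
      N * (∑ i, P.ck (X i) + ∑ j, P.ck (Y j)) := by
    have := mul_le_mul_of_nonneg_left h3 (Int.natCast_nonneg N)
    have := mul_le_mul_of_nonneg_right (show (1 : ℤ) ≤ N by exact_mod_cast hN1) h8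
    rw [h7]
    linarith
  refine h6.trans ((mul_le_mul_of_nonneg_left (mul_le_mul_of_nonneg_left h9
    (Int.natCast_nonneg d)) (Int.natCast_nonneg θ)).trans (le_of_eq ?_))
  push_cast
  ring

theorem Sm2.symm {P : PS K} {θ B : ℤ} {X Y : Fin m → K} (h : P.Sm2 θ X Y B) : P.Sm2 θ Y X B :=
  fun L hL => (sum_congr rfl fun p _ => sm_symm (P.rel_equiv p) θ Y X).trans_le (h L hL)

end PS

end Pool.Agent.Lib.MP_e5111b_co.FG
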