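import Pool.Agent.Lib.MP_e5111b_co.FG.Pui

/-! Ramifying finitely many places, and extensions by a polynomial that splits everywhere. -/

namespace Pool.Agent.Lib.MP_e5111b_co.FG

open Finset Polynomial

theorem fib_sum {σ τ : Type} (T : σ → Finset τ) (f : (Σ s, T s) → ℤ) (g : σ → ℤ)
    (hg : (Function.support g).Finite) (S : Set σ) (hS : S.Finite)
    (h0 : ∀ p, p.1 ∉ S → f p = 0) (h : ∀ s, ∑ r ∈ (T s).attach, f ⟨s, r⟩ = g s) :
    (Function.support f).Finite ∧ ∑ᶠ p, f p = ∑ᶠ s, g s := by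
  classical
  have h1 : Function.support f ⊆
      (((hS.union hg).toFinset.sigma fun s => (T s).attach : Finset (Σ s, T s)) : Set _) := by
    intro p hp
    rw [mem_coe, mem_sigma, Set.Finite.mem_toFinset]
    exact ⟨Or.inl (by_contra fun c => hp (h0 p c)), mem_attach _ _⟩
  refine ⟨(finite_toSet _).subset h1, ?_⟩
  rw [finsum_eq_sum_of_support_subset _ h1, sum_sigma,
    finsum_eq_sum_of_support_subset (s := (hS.union hg).toFinset) g fun s hs => by
      rw [mem_coe, Set.Finite.mem_toFinset]; exact Or.inr hs]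
  exact sum_congr rfl fun s _ => h s

theorem fib_card {σ τ : Type} (T : σ → Finset τ) (U : Finset σ) (n : ℕ)
    (h : ∀ s ∈ U, #(T s) ≤ n) : #(U.sigma fun s => (T s).attach) ≤ #U * n := by
  rw [card_sigma]
  exact sum_le_card_nsmul _ _ _ fun s hs => by rw [card_attach]; exact h s hs

variable {F : Type} [Field F]

/-- Substitute `τ ^ N` at the places of `U`, and repeat the other places `N` times. -/
theorem EP.ram (Q : EP F) (h1 : ∀ s, -1 ≤ (Q.mul s).order) (U : Finset Q.σ) {N : ℕ}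
    {ψ : LS →+* LS} (hψ : Sub N ψ) : ∃ Q' : EP F, Q'.κ = Q.κ ∧ Q'.Ug N #U ∧
      ∀ p, ∃ s, (s ∈ U ∧ Q'.emb p = ψ.comp (Q.emb s)) ∨ (s ∉ U ∧ Q'.emb p = Q.emb s) := by
  classical
  have : CharZero LS := algebraRat.charZero LS
  have hN : (N : LS) ≠ 0 := by exact_mod_cast hψ.pos.ne'
  have oN : (N : LS).order = 0 := by
    have : (N : LS) = HahnSeries.C (N : ℂ) := by rw [map_natCast]
    rw [this, HahnSeries.order_C]
  let T : Q.σ → Finset ℕ := fun s => if s ∈ U then {0} else range N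
  let e : Q.σ → F →+* LS := fun s => if s ∈ U then ψ.comp (Q.emb s) else Q.emb s
  let μ : Q.σ → LS := fun s => if s ∈ U then ψ (Q.mul s) / N else Q.mul s
  have eo : ∀ s x, (e s x).order = if s ∈ U then N * (Q.emb s x).order else (Q.emb s x).order := by
    intro s x
    by_cases h : s ∈ U <;> simp [e, h, hψ.ord]
  have key : ∀ x, (Function.support fun p : Σ s, T s => (e p.1 x).order).Finite ∧
      ∑ᶠ p : Σ s, T s, (e p.1 x).order = ∑ᶠ s, N * (Q.emb s x).order := fun x =>
    fib_sum T _ _ ((Q.fin x).subset (Function.support_mul_subset_right _ _)) _ (Q.fin x)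
      (fun p hp => by
        have h0 : (Q.emb p.1 x).order = 0 := not_not.mp hp
        rw [eo, h0]; simp) fun s => by
      show ∑ _r ∈ (T s).attach, (e s x).order = _
      rw [sum_const, card_attach, eo]
      by_cases h : s ∈ U <;> simp [T, h]
  refine ⟨{
    σ := Σ s, T s
    s0 := ⟨Q.s0, 0, by by_cases h : Q.s0 ∈ U <;> simp [T, h, hψ.pos]⟩
    emb := fun p => e p.1
    mul := fun p => μ p.1
    mul_ne := fun p => ?_
    D := Q.D
    hD := fun p x => ?_
    fin := fun x => (key x).1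
    prod := fun x => by rw [(key x).2, ← mul_finsum, Q.prod, mul_zero]
    κ := Q.κ
    hκ := fun p a => ?_ }, rfl, ⟨U.sigma fun s => (T s).attach, ?_, fun p => ?_⟩, fun p => ?_⟩
  · by_cases h : p.1 ∈ U
    · simp only [μ, if_pos h]; exact div_ne_zero ((_root_.map_ne_zero ψ).mpr (Q.mul_ne _)) hN
    · simp only [μ, if_neg h]; exact Q.mul_ne _
  · by_cases h : p.1 ∈ U
    · simp only [μ, e, if_pos h, RingHom.comp_apply, Q.hD, map_mul, hψ.th]; field_simp
    · simp only [μ, e, if_neg h, Q.hD]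
  · by_cases h : p.1 ∈ U
    · simp only [e, if_pos h, RingHom.comp_apply, Q.hκ, hψ.C]
    · simp only [e, if_neg h, Q.hκ]
  · simpa using fib_card T U 1 fun s hs => by simp [T, hs]
  · have h2 := h1 p.1
    have h3 := hψ.pos
    show -(N : ℤ) ≤ (μ p.1).order ∧ (_ → -1 ≤ (μ p.1).order)
    by_cases h : p.1 ∈ U
    · refine ⟨?_, fun c => absurd (mem_sigma.mpr ⟨h, mem_attach _ _⟩) c⟩
      simp only [μ, if_pos h]
      rw [div_eq_mul_inv, ord_mul ((_root_.map_ne_zero ψ).mpr (Q.mul_ne _)) (inv_ne_zero hN), ord_inv, oN,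
        hψ.ord]
      nlinarith
    · simp only [μ, if_neg h]
      exact ⟨by omega, fun _ => h2⟩
  · refine ⟨p.1, ?_⟩
    by_cases h : p.1 ∈ U
    · exact Or.inl ⟨h, if_pos h⟩
    · exact Or.inr ⟨h, if_neg h⟩

theorem ord_sum_nonneg {ι : Type} (t : Finset ι) (f : ι → LS) (h : ∀ i ∈ t, 0 ≤ (f i).order) :
    0 ≤ (∑ i ∈ t, f i).order :=
  Finset.sum_induction f (fun x => 0 ≤ x.order) (fun _ _ => ord_add_nonneg) (by simp) h

theorem ord_eval_nonneg {g : LS[X]} (h : ∀ i, 0 ≤ (g.coeff i).order) {r : LS} (hr : 0 ≤ r.order) :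
    0 ≤ (g.eval r).order := by
  rw [eval_eq_sum_range]
  refine ord_sum_nonneg _ _ fun i _ => ord_mul_nonneg (h i) ?_
  rw [HahnSeries.order_pow]; exact nsmul_nonneg hr i

theorem ord_root_nonneg {g : LS[X]} (hg : g.Monic) (h : ∀ i, 0 ≤ (g.coeff i).order) {r : LS}
    (hr : g.eval r = 0) : 0 ≤ r.order := by
  by_contra hc
  have r0 : r ≠ 0 := by rintro rfl; simp at hc
  have n0 : 0 < g.natDegree := by
    by_contra h0
    rw [eq_one_of_monic_natDegree_zero hg (by omega)] at hr
    simp at hr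
  have e : r = -∑ i ∈ range g.natDegree, g.coeff i * r⁻¹ ^ (g.natDegree - 1 - i) := by
    rw [eval_eq_sum_range, sum_range_succ, hg.coeff_natDegree, one_mul] at hr
    apply mul_left_cancel₀ (pow_ne_zero (g.natDegree - 1) r0)
    have : r ^ (g.natDegree - 1) * r = r ^ g.natDegree := by
      rw [← pow_succ]; congr 1; omega
    have e2 : r ^ (g.natDegree - 1) * ∑ i ∈ range g.natDegree,
        g.coeff i * r⁻¹ ^ (g.natDegree - 1 - i) = ∑ i ∈ range g.natDegree, g.coeff i * r ^ i := by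
      rw [mul_sum]
      refine sum_congr rfl fun i hi => ?_
      have h1 : g.natDegree - 1 = i + (g.natDegree - 1 - i) := by
        have := mem_range.mp hi
        omega
      conv_lhs => rw [h1, Nat.add_sub_cancel_left, pow_add, inv_pow]
      field_simp
    linear_combination hr + this + e2
  apply hc
  rw [e, HahnSeries.order_neg]
  refine ord_sum_nonneg _ _ fun i _ => ord_mul_nonneg (h i) ?_
  rw [HahnSeries.order_pow, ord_inv]
  exact nsmul_nonneg (by omega) _

theorem ord_root_nonneg' {g : LS[X]} (hg : g ≠ 0) (h : ∀ i, (g.coeff i).order = 0) {r : LS}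
    (hr : g.eval r = 0) : 0 ≤ r.order := by
  refine ord_root_nonneg (monic_mul_leadingCoeff_inv hg) (fun i => ?_)
    (by rw [eval_mul, hr, zero_mul])
  rw [coeff_mul_C]
  refine ord_mul_nonneg (h i).ge ?_
  rw [ord_inv, leadingCoeff, h]; simp

theorem ord_prod {ι : Type} (t : Finset ι) (f : ι → LS) (h : ∀ i ∈ t, f i ≠ 0) :
    (∏ i ∈ t, f i).order = ∑ i ∈ t, (f i).order := by
  classical
  induction t using Finset.induction_on with
  | empty => simp
  | insert a t ha ih =>
    have h1 := fun i hi => h i (mem_insert_of_mem hi)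
    rw [prod_insert ha, sum_insert ha, ord_mul (h a (mem_insert_self _ _))
      (prod_ne_zero_iff.mpr h1), ih h1]

theorem EP.cD (Q : EP F) (g : F[X]) : ∃ h : F[X], ∀ s r, Q.mul s * th (eval₂ (Q.emb s) r g) =
    eval₂ (Q.emb s) r h + eval₂ (Q.emb s) r (derivative g) * (Q.mul s * th r) := by
  induction g using Polynomial.induction_on with
  | C a => exact ⟨C (Q.D a), fun s r => by simp [Q.hD]⟩
  | add p q hp hq =>
    obtain ⟨h, e⟩ := hp
    obtain ⟨h', e'⟩ := hq
    refine ⟨h + h', fun s r => ?_⟩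
    rw [derivative_add, eval₂_add, eval₂_add, eval₂_add, th_add, mul_add, e, e']; ring
  | monomial n a hp =>
    obtain ⟨h, e⟩ := hp
    refine ⟨h * X, fun s r => ?_⟩
    have : C a * X ^ (n + 1) = C a * X ^ n * X := by ring
    rw [this, derivative_mul, derivative_X, mul_one, eval₂_add, eval₂_mul_X, eval₂_mul_X,
      eval₂_mul_X, th_mul]
    linear_combination r * e s r

theorem EP.coeff_fin (Q : EP F) (g : F[X]) :
    {s | ∃ i, (Q.emb s (g.coeff i)).order ≠ 0}.Finite := by
  refine (g.support.finite_toSet.biUnion fun i _ => Q.fin (g.coeff i)).subset ?_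
  rintro s ⟨i, hi⟩
  refine Set.mem_biUnion (x := i) (mem_support_iff.mpr fun h => hi ?_) hi
  rw [h]; simp

/-- Adjoining a root of a polynomial that splits at every place. -/
theorem EP.spl (Q : EP F) {R G : ℕ} (hQ : Q.Ug R G) (q : F[X]) [hq : Fact (Irreducible q)]
    (hs : ∀ s, (q.map (Q.emb s)).Splits) : ∃ Q' : EP (AdjoinRoot q),
      Q'.κ = (AdjoinRoot.of q).comp Q.κ ∧ Q'.Ug R (G * q.natDegree) := by
  classical
  have := Q.charZero
  have sep : q.Separable := hq.out.separable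
  have n0 : 0 < q.natDegree := hq.out.natDegree_pos
  have q0 : ∀ s, q.map (Q.emb s) ≠ 0 := fun s => Polynomial.map_ne_zero hq.out.ne_zero
  obtain ⟨ρ, hρ⟩ : ∃ ρ : F[X] → F, ∀ g, ρ g =
    resultant q g q.natDegree g.natDegree / q.leadingCoeff ^ g.natDegree := ⟨_, fun _ => rfl⟩
  let T : Q.σ → Finset LS := fun s => (q.map (Q.emb s)).roots.toFinset
  have hT : ∀ s (r : T s), eval₂ (Q.emb s) r q = 0 := fun s r => by
    have := r.2
    rw [Multiset.mem_toFinset, mem_roots (q0 s), IsRoot.def, eval_map] at this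
    exact this
  let e : (Σ s, T s) → AdjoinRoot q →+* LS := fun p => AdjoinRoot.lift _ _ (hT p.1 p.2)
  have he : ∀ p g, e p (AdjoinRoot.mk q g) = eval₂ (Q.emb p.1) p.2 g := fun p g =>
    AdjoinRoot.lift_mk _ g
  choose cD hcD using Q.cD
  choose rep hrep using AdjoinRoot.mk_surjective (g := q)
  have hd : AdjoinRoot.mk q (derivative q) ≠ 0 := fun h =>
    hq.out.not_isUnit (sep.isUnit_of_dvd' dvd_rfl (AdjoinRoot.mk_eq_zero.mp h))
  have nm : ∀ s g, ∏ r ∈ (T s).attach, e ⟨s, r⟩ (AdjoinRoot.mk q g) =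
      Q.emb s (ρ g) := fun s g => by
    rw [hρ, map_div₀, map_pow, ← resultant_map_map, ← leadingCoeff_map,
      ← natDegree_map (p := q) (Q.emb s), resultant_eq_prod_eval _ _ _ natDegree_map_le (hs s),
      mul_div_cancel_left₀ _ (pow_ne_zero _ (leadingCoeff_ne_zero.mpr (q0 s)))]
    simp only [he]
    rw [prod_attach (T s) fun r => eval₂ (Q.emb s) r g, Finset.prod, Multiset.toFinset_val,
      (nodup_roots sep.map).dedup]
    simp only [eval_map]
  have key : ∀ x, (Function.support fun p => (e p x).order).Finite ∧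
      ∑ᶠ p, (e p x).order = 0 := fun x => by
    by_cases hx : x = 0
    · simp [hx]
    obtain ⟨g, rfl⟩ := AdjoinRoot.mk_surjective x
    have h1 : ∀ s, ∑ r ∈ (T s).attach, (e ⟨s, r⟩ (AdjoinRoot.mk q g)).order =
        (Q.emb s (ρ g)).order := fun s => by
      rw [← nm, ord_prod _ _ fun r _ => (_root_.map_ne_zero _).mpr hx]
    rw [← Q.prod (ρ g)]
    refine fib_sum T _ _ (Q.fin _) _ (((Q.coeff_fin q).union (Q.coeff_fin g)).union
      (Q.fin (ρ g))) (fun p hp => ?_) h1
    simp only [Set.mem_union, Set.mem_ofPred_eq, Function.mem_support, not_or, not_exists,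
      not_not] at hp
    have h2 : ∀ r ∈ (T p.1).attach, 0 ≤ (e ⟨p.1, r⟩ (AdjoinRoot.mk q g)).order := fun r _ => by
      rw [he, eval₂_eq_eval_map]
      refine ord_eval_nonneg (fun i => by rw [coeff_map, hp.1.2]) (ord_root_nonneg' (q0 _)
        (fun i => by rw [coeff_map, hp.1.1]) ?_)
      rw [← eval₂_eq_eval_map]; exact hT p.1 r
    exact (sum_eq_zero_iff_of_nonneg h2).mp ((h1 p.1).trans hp.2) p.2 (mem_attach _ _)
  obtain ⟨r0, hr0⟩ : (T Q.s0).Nonempty := by
    rw [Multiset.toFinset_nonempty, ← Multiset.card_pos, ← (hs Q.s0).natDegree_eq_card_roots,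
      natDegree_map]
    exact n0
  obtain ⟨U, hU, hb⟩ := hQ
  refine ⟨{
    σ := Σ s, T s
    s0 := ⟨Q.s0, r0, hr0⟩
    emb := e
    mul := fun p => Q.mul p.1
    mul_ne := fun p => Q.mul_ne p.1
    D := fun x => AdjoinRoot.mk q (cD (rep x)) + AdjoinRoot.mk q (derivative (rep x)) *
      (-AdjoinRoot.mk q (cD q) / AdjoinRoot.mk q (derivative q))
    hD := fun p x => ?_
    fin := fun x => (key x).1
    prod := fun x => (key x).2
    κ := (AdjoinRoot.of q).comp Q.κ
    hκ := fun p a => by rw [RingHom.comp_apply, AdjoinRoot.lift_of, Q.hκ] }, rfl,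
    U.sigma fun s => (T s).attach, ?_, fun p => ⟨(hb p.1).1, fun c => (hb p.1).2 fun h =>
      c (mem_sigma.mpr ⟨h, mem_attach _ _⟩)⟩⟩
  · have h1 := hcD q p.1 p.2
    have h2 := (_root_.map_ne_zero (e p)).mpr hd
    have h3 : th 0 = 0 := by ext; simp [th_coeff]
    rw [hT, h3, mul_zero, ← he, ← he] at h1
    conv_rhs => rw [← hrep x, he, hcD, ← he, ← he]
    rw [map_add, map_mul, map_div₀, map_neg]
    congr 2
    rw [div_eq_iff h2]
    linear_combination h1
  · refine (fib_card T U q.natDegree fun s _ => ?_).trans (Nat.mul_le_mul_right _ hU)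
    exact (Multiset.toFinset_card_le _).trans ((card_roots' _).trans natDegree_map_le)

end Pool.Agent.Lib.MP_e5111b_co.FG
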