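import Pool.Agent.Lib.MP_e5111b_co.FG.Defs

namespace Pool.Agent.Lib.MP_e5111b_co.FG

open Finset

namespace PS

variable {K : Type} [Field K] (P : PS K)

theorem D_zero : P.D 0 = 0 := by
  have := P.D_add 0 0
  rw [add_zero] at this
  linear_combination -this

theorem D_one : P.D 1 = 0 := by
  have := P.D_mul 1 1
  rw [mul_one, one_mul] at this
  linear_combination -this

theorem D_neg (x : K) : P.D (-x) = -P.D x := by
  have := P.D_add x (-x)
  rw [add_neg_cancel, P.D_zero] at this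
  linear_combination -this

theorem D_sub (x y : K) : P.D (x - y) = P.D x - P.D y := by
  rw [sub_eq_add_neg, P.D_add, P.D_neg, sub_eq_add_neg]

theorem D_natCast (n : ℕ) : P.D (n : K) = 0 := by
  induction n with
  | zero => simpa using P.D_zero
  | succ n ih => rw [Nat.cast_succ, P.D_add, ih, P.D_one, add_zero]

theorem D_intCast (n : ℤ) : P.D (n : K) = 0 := by
  obtain ⟨k, rfl | rfl⟩ := n.eq_nat_or_neg
  · simpa using P.D_natCast k
  · rw [Int.cast_neg, P.D_neg, Int.cast_natCast, P.D_natCast, neg_zero]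

theorem D_inv_eq_zero {x : K} (h : P.D x = 0) : P.D x⁻¹ = 0 := by
  by_cases hx : x = 0
  · rw [hx, inv_zero, P.D_zero]
  have := P.D_mul x x⁻¹
  rw [mul_inv_cancel₀ hx, P.D_one, h, mul_zero, add_zero] at this
  exact (mul_eq_zero.1 this.symm).resolve_left hx

theorem D_mul_eq_zero {x y : K} (h : P.D x = 0) (h' : P.D y = 0) : P.D (x * y) = 0 := by
  rw [P.D_mul, h, h', mul_zero, mul_zero, add_zero]

theorem D_div_eq_zero {x y : K} (h : P.D x = 0) (h' : P.D y = 0) : P.D (x / y) = 0 := by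
  rw [div_eq_mul_inv]
  exact P.D_mul_eq_zero h (P.D_inv_eq_zero h')

theorem w_one (s : P.σ) : P.w s 1 = 0 := P.cst' s 1 P.D_one

theorem w_intCast (s : P.σ) (n : ℤ) : P.w s (n : K) = 0 := P.cst' s _ (P.D_intCast n)

theorem w_natCast (s : P.σ) (n : ℕ) : P.w s (n : K) = 0 := P.cst' s _ (P.D_natCast n)

theorem w_neg (s : P.σ) (x : K) : P.w s (-x) = P.w s x := by
  by_cases hx : x = 0
  · rw [hx, neg_zero]
  have h1 : P.w s (-1) = 0 := P.cst' s _ (by rw [P.D_neg, P.D_one, neg_zero])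
  rw [← neg_one_mul, P.w_mul s _ _ (by simp) hx, h1, zero_add]

theorem w_sub_comm (s : P.σ) (x y : K) : P.w s (x - y) = P.w s (y - x) := by
  rw [← P.w_neg, neg_sub]

theorem w_inv (s : P.σ) (x : K) : P.w s x⁻¹ = -P.w s x := by
  by_cases hx : x = 0
  · rw [hx, inv_zero, P.w_zero, neg_zero]
  have := P.w_mul s x x⁻¹ hx (inv_ne_zero hx)
  rw [mul_inv_cancel₀ hx, P.w_one] at this
  omega

theorem one_le_rho (s : P.σ) : 1 ≤ P.rho s := by
  have := P.R2
  unfold rho
  split_ifs <;> omega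

theorem rho_bad {s : P.σ} (h : P.bad s) : P.rho s = P.R := by
  unfold rho
  rw [if_pos h]

theorem rho_good {s : P.σ} (h : ¬ P.bad s) : P.rho s = 1 := by
  unfold rho
  rw [if_neg h]

variable {P} {s : P.σ} {n n' : ℤ} {x y : K}

theorem ge_zero : P.ge s n 0 := Or.inl rfl

theorem ge_self (x : K) : P.ge s (P.w s x) x := Or.inr le_rfl

theorem ge_iff (hx : x ≠ 0) : P.ge s n x ↔ n ≤ P.w s x := by
  simp [ge, hx]

theorem ge.mono (h : P.ge s n x) (h' : n' ≤ n) : P.ge s n' x := h.imp id h'.trans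

theorem ge.add (h : P.ge s n x) (h' : P.ge s n y) : P.ge s n (x + y) := by
  by_cases hx : x = 0
  · rwa [hx, zero_add]
  by_cases hy : y = 0
  · rwa [hy, add_zero]
  by_cases hxy : x + y = 0
  · exact Or.inl hxy
  exact Or.inr ((le_min (h.resolve_left hx) (h'.resolve_left hy)).trans (P.w_add s x y hx hy hxy))

theorem ge.neg (h : P.ge s n x) : P.ge s n (-x) := by
  rcases h with h | h
  · exact Or.inl (by rw [h, neg_zero])
  · exact Or.inr (by rwa [P.w_neg])

theorem ge.sub (h : P.ge s n x) (h' : P.ge s n y) : P.ge s n (x - y) := by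
  rw [sub_eq_add_neg]
  exact h.add h'.neg

theorem ge.mul (h : P.ge s n x) (h' : P.ge s n' y) : P.ge s (n + n') (x * y) := by
  by_cases hx : x = 0
  · exact Or.inl (by rw [hx, zero_mul])
  by_cases hy : y = 0
  · exact Or.inl (by rw [hy, mul_zero])
  refine Or.inr ?_
  rw [P.w_mul s x y hx hy]
  exact add_le_add (h.resolve_left hx) (h'.resolve_left hy)

theorem ge_one : P.ge s 0 1 := Or.inr (P.w_one s).ge

theorem ge_intCast (k : ℤ) : P.ge s 0 (k : K) := Or.inr (P.w_intCast s k).ge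

theorem ge.pow (h : P.ge s n x) (k : ℕ) : P.ge s (k * n) (x ^ k) := by
  induction k with
  | zero => simpa using ge_one
  | succ k ih =>
    rw [pow_succ, Nat.cast_succ, add_mul, one_mul]
    exact ih.mul h

theorem ge_sum {ι : Type} (t : Finset ι) (f : ι → K) (h : ∀ i ∈ t, P.ge s n (f i)) :
    P.ge s n (∑ i ∈ t, f i) :=
  Finset.sum_induction f (P.ge s n) (fun _ _ => ge.add) ge_zero h

theorem ge_prod {ι : Type} (t : Finset ι) (f : ι → K) (g : ι → ℤ)
    (h : ∀ i ∈ t, P.ge s (g i) (f i)) : P.ge s (∑ i ∈ t, g i) (∏ i ∈ t, f i) := by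
  classical
  induction t using Finset.induction_on with
  | empty => simpa using ge_one
  | insert a t ha ih =>
    rw [sum_insert ha, prod_insert ha]
    exact (h a (mem_insert_self _ _)).mul (ih fun i hi => h i (mem_insert_of_mem hi))

theorem ge.D (h : P.ge s n x) : P.ge s (n - P.rho s) (P.D x) := by
  by_cases hD : P.D x = 0
  · exact Or.inl hD
  have hx : x ≠ 0 := fun h0 => hD (by rw [h0, P.D_zero])
  have h1 := h.resolve_left hx
  refine Or.inr ?_
  by_cases hb : P.bad s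
  · have := P.D1 s x hD
    have h2 := P.rho_bad hb
    omega
  · have := P.D1g s x hb hD
    have h2 := P.rho_good hb
    omega

theorem ge_mul_left {a : K} (ha : a ≠ 0) : P.ge s (n + P.w s a) (a * x) ↔ P.ge s n x := by
  by_cases hx : x = 0
  · simp [hx, ge_zero]
  rw [ge_iff (mul_ne_zero ha hx), ge_iff hx, P.w_mul s a x ha hx]
  omega

/-- adding a term of larger order does not change the order -/
theorem w_add_eq (hx : x ≠ 0) (h : P.ge s (P.w s x + 1) y) :
    x + y ≠ 0 ∧ P.w s (x + y) = P.w s x := by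
  have h0 : x + y ≠ 0 := by
    intro h0
    have : y = -x := by linear_combination h0
    rw [this, ge_iff (neg_ne_zero.2 hx), P.w_neg] at h
    omega
  refine ⟨h0, le_antisymm ?_ ?_⟩
  · by_contra hlt
    have h1 : P.ge s (P.w s x + 1) (x + y) := Or.inr (by omega)
    have h2 := h1.sub h
    rw [add_sub_cancel_right, ge_iff hx] at h2
    omega
  · exact ((ge_self x).add (h.mono (by omega))).resolve_left h0

variable (P)

theorem rel_equiv (p : P.σ × ℤ) : Equivalence (P.rel p) where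
  refl x := Or.inl (sub_self x)
  symm {x y} h := by
    have := ge.neg h
    rwa [neg_sub] at this
  trans {x y z} h h' := by
    have := ge.add h h'
    rwa [sub_add_sub_cancel] at this

/-- the finite set of places where `x` is not a unit -/
noncomputable def supp (x : K) : Finset P.σ := (P.fin x).toFinset

theorem mem_supp {x : K} {s : P.σ} : s ∈ P.supp x ↔ P.w s x ≠ 0 := by
  simp [supp]

theorem sum_w (x : K) (S : Finset P.σ) (hS : P.supp x ⊆ S) : ∑ s ∈ S, P.w s x = 0 := by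
  rw [← P.prod x, finsum_eq_sum_of_support_subset]
  intro s hs
  exact hS (P.mem_supp.2 hs)

theorem h_eq (x : K) (S : Finset P.σ) (hS : P.supp x ⊆ S) :
    P.h x = ∑ s ∈ S, max 0 (-P.w s x) := by
  unfold h
  refine finsum_eq_sum_of_support_subset _ fun s hs => hS (P.mem_supp.2 fun h0 => hs ?_)
  simp [h0]

theorem h_eq' (x : K) (S : Finset P.σ) (hS : P.supp x ⊆ S) :
    P.h x = ∑ s ∈ S, max 0 (P.w s x) := by
  have h1 := P.sum_w x S hS
  rw [P.h_eq x S hS, ← sub_eq_zero, ← sum_sub_distrib, ← neg_eq_zero, ← sum_neg_distrib, ← h1]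
  refine sum_congr rfl fun s _ => ?_
  omega

theorem ck_eq [DecidableEq P.σ] (x : K) (S : Finset P.σ) (hS : P.supp x ∪ P.supp (P.D x) ⊆ S) :
    P.ck x = ∑ s ∈ S, P.kap s x := by
  unfold ck
  refine finsum_eq_sum_of_support_subset _ fun s hs => hS ?_
  by_contra h0
  rw [mem_union, not_or, P.mem_supp, P.mem_supp, not_not, not_not] at h0
  exact hs (by simp [kap, h0.1, h0.2])

theorem kap_nonneg (s : P.σ) (x : K) : 0 ≤ P.kap s x := le_max_left _ _

variable {P}

theorem Bd.of_finset {c : P.σ → ℤ} {B : ℤ} (h0 : ∀ s, 0 ≤ c s) (T : Finset P.σ)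
    (h : ∀ S, T ⊆ S → ∑ s ∈ S, c s ≤ B) : P.Bd c B := by
  classical
  intro S
  exact (sum_le_sum_of_subset_of_nonneg subset_union_left fun s _ _ => h0 s).trans
    (h (S ∪ T) subset_union_right)

theorem Bd.mono {c c' : P.σ → ℤ} {B B' : ℤ} (h : P.Bd c B) (hc : ∀ s, c' s ≤ c s) (hB : B ≤ B') :
    P.Bd c' B' := fun S => ((sum_le_sum fun s _ => hc s).trans (h S)).trans hB

theorem Bd.add {c c' : P.σ → ℤ} {B B' : ℤ} (h : P.Bd c B) (h' : P.Bd c' B') :
    P.Bd (fun s => c s + c' s) (B + B') := fun S => by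
  rw [sum_add_distrib]
  exact add_le_add (h S) (h' S)

theorem Bd.smul {c : P.σ → ℤ} {B : ℤ} (h : P.Bd c B) {a : ℤ} (ha : 0 ≤ a) :
    P.Bd (fun s => a * c s) (a * B) := fun S => by
  rw [← mul_sum]
  exact mul_le_mul_of_nonneg_left (h S) ha

theorem Bd.sum {ι : Type} (t : Finset ι) {c : ι → P.σ → ℤ} {B : ι → ℤ}
    (h : ∀ i ∈ t, P.Bd (c i) (B i)) : P.Bd (fun s => ∑ i ∈ t, c i s) (∑ i ∈ t, B i) := fun S => by
  rw [sum_comm]
  exact sum_le_sum fun i hi => h i hi S

theorem Bd.nonneg {c : P.σ → ℤ} {B : ℤ} (h : P.Bd c B) : 0 ≤ B := by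
  simpa using h ∅

variable (P)

theorem bd_neg (x : K) : P.Bd (fun s => max 0 (-P.w s x)) (P.h x) :=
  Bd.of_finset (fun _ => le_max_left _ _) (P.supp x) fun S hS => (P.h_eq x S hS).ge

theorem bd_pos (x : K) : P.Bd (fun s => max 0 (P.w s x)) (P.h x) :=
  Bd.of_finset (fun _ => le_max_left _ _) (P.supp x) fun S hS => (P.h_eq' x S hS).ge

theorem bd_kap (x : K) : P.Bd (fun s => P.kap s x) (P.ck x) := by
  classical
  exact Bd.of_finset (fun s => P.kap_nonneg s x) _ fun S hS => (P.ck_eq x S hS).ge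

theorem bd_ne (x : K) : P.Bd (fun s => if P.w s x ≠ 0 then 1 else 0) (2 * P.h x) :=
  ((P.bd_neg x).add (P.bd_pos x)).mono (fun s => by split_ifs <;> omega) (by omega)

theorem h_nonneg (x : K) : 0 ≤ P.h x := (P.bd_neg x).nonneg

theorem ck_nonneg (x : K) : 0 ≤ P.ck x := (P.bd_kap x).nonneg

theorem h_le_of_bd {x : K} {c : P.σ → ℤ} {B : ℤ} (h : P.Bd c B)
    (hc : ∀ s, max 0 (-P.w s x) ≤ c s) : P.h x ≤ B := by
  rw [P.h_eq x _ subset_rfl]
  exact (sum_le_sum fun s _ => hc s).trans (h _)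

theorem h_le_of_bd' {x : K} {c : P.σ → ℤ} {B : ℤ} (h : P.Bd c B)
    (hc : ∀ s, max 0 (P.w s x) ≤ c s) : P.h x ≤ B := by
  rw [P.h_eq' x _ subset_rfl]
  exact (sum_le_sum fun s _ => hc s).trans (h _)

theorem h_neg (x : K) : P.h (-x) = P.h x := by
  simp only [h, P.w_neg]

theorem h_sub_comm (x y : K) : P.h (x - y) = P.h (y - x) := by
  rw [← P.h_neg, neg_sub]

theorem h_inv (x : K) : P.h x⁻¹ = P.h x := by
  rw [P.h_eq' x _ subset_rfl, P.h_eq x⁻¹ (P.supp x)]
  · simp only [P.w_inv, neg_neg]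
  · intro s hs
    rw [P.mem_supp] at hs ⊢
    rwa [P.w_inv, neg_ne_zero] at hs

theorem h_add (x y : K) : P.h (x + y) ≤ P.h x + P.h y := by
  refine P.h_le_of_bd ((P.bd_neg x).add (P.bd_neg y)) fun s => ?_
  have h1 : P.ge s (min 0 (min (P.w s x) (P.w s y))) (x + y) :=
    ((ge_self x).mono (by omega)).add ((ge_self y).mono (by omega))
  rcases h1 with h1 | h1
  · rw [h1, P.w_zero]
    omega
  · omega

theorem h_sub (x y : K) : P.h (x - y) ≤ P.h x + P.h y := by
  rw [sub_eq_add_neg, ← P.h_neg y]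
  exact P.h_add x (-y)

theorem h_mul (x y : K) : P.h (x * y) ≤ P.h x + P.h y := by
  refine P.h_le_of_bd ((P.bd_neg x).add (P.bd_neg y)) fun s => ?_
  rcases (ge_self (s := s) x).mul (ge_self y) with h1 | h1
  · rw [h1, P.w_zero]
    omega
  · omega

theorem h_div (x y : K) : P.h (x / y) ≤ P.h x + P.h y := by
  rw [div_eq_mul_inv, ← P.h_inv y]
  exact P.h_mul x y⁻¹

theorem h_of_D {x : K} (hx : P.D x = 0) : P.h x = 0 := by
  simp [h, P.cst' _ x hx]

theorem h_one : P.h 1 = 0 := P.h_of_D P.D_one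

theorem h_zero : P.h 0 = 0 := P.h_of_D P.D_zero

theorem D_of_h {x : K} (hx : P.h x ≤ 0) : P.D x = 0 := by
  refine P.cst x fun s => ?_
  have := P.bd_neg x {s}
  rw [sum_singleton] at this
  omega

open Classical in
theorem kap_le (s : P.σ) (x : K) :
    P.kap s x ≤ 2 * max 0 (-P.w s x) + 2 * (if P.bad s then (P.R : ℤ) else 0) := by
  unfold kap
  by_cases hD : P.D x = 0
  · rw [hD, P.w_zero]
    split_ifs <;> omega
  have h1 := P.D1 s x hD
  split_ifs with hb
  · omega
  · have h2 := P.D1g s x hb hD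
    have h3 := P.D2 s x hb hD
    omega

theorem ck_le (x : K) {nb : ℤ} (h : P.NB nb) : P.ck x ≤ 2 * P.h x + 2 * nb := by
  classical
  rw [P.ck_eq x _ subset_rfl]
  exact (sum_le_sum fun s _ => P.kap_le s x).trans
    ((((P.bd_neg x).smul (by norm_num)).add (Bd.smul h (by norm_num))) _)

theorem h_D_le (x : K) : P.h (P.D x) ≤ P.ck x :=
  P.h_le_of_bd (P.bd_kap x) fun s => by
    unfold kap
    omega

theorem ge_kap (s : P.σ) (x : K) : P.ge s (-P.kap s x) x :=
  Or.inr (by unfold kap; omega)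

theorem ge_kap_D (s : P.σ) (x : K) : P.ge s (-P.kap s x) (P.D x) :=
  Or.inr (by unfold kap; omega)

open Classical in
theorem bd_U {Q : ℕ} (h : #P.U ≤ Q) : P.Bd (fun s => if s ∈ P.U then 1 else 0) Q := fun S => by
  rw [sum_boole]
  exact_mod_cast (card_le_card fun s hs => (mem_filter.1 hs).2).trans h

/-- product formula: gains are paid by costs -/
theorem pf {z : K} (hz : z ≠ 0) {g c : P.σ → ℤ} {B : ℤ} (hg : ∀ s, 0 ≤ g s) (hc : P.Bd c B)
    (h : ∀ s, P.ge s (g s - c s) z) : P.Bd g B := by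
  refine Bd.of_finset hg (P.supp z) fun S hS => ?_
  have h1 := P.sum_w z S hS
  have h2 : ∑ s ∈ S, (g s - c s) ≤ ∑ s ∈ S, P.w s z :=
    sum_le_sum fun s _ => (h s).resolve_left hz
  have h3 := hc S
  rw [sum_sub_distrib] at h2
  omega

end PS

end Pool.Agent.Lib.MP_e5111b_co.FG
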